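import Pool.Agent.R837.FN.Grass
import Pool.Agent.R837.FM.Aff
import Pool.Agent.Y212.Dk.Top

/-!
The actions of the finite groups on the function field of the space of pairs of matrices.
-/

set_option autoImplicit false
set_option linter.unusedSectionVars false

open Finset MvPolynomial

universe u v w z

namespace Pool.Agent.R837.FN

open Pool.Agent.R837.FM Pool.Agent.Y212.Dk

section sub

variable {F : Type v} [Field F] [Fintype F] {k : Type u} [Field k] [Algebra F k] {n m s : ℕ}

/-- The substitution `B ↦ g B`, `C ↦ C`. -/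
noncomputable def sub (g : Matrix (Fin n) (Fin n) F) : PP k n m s →ₐ[k] PP k n m s :=
  aeval (Sum.elim (fun u => ∑ i, C (algebraMap F k (g u.1 i)) * X (Sum.inl (i, u.2)))
    fun u => X (Sum.inr u))

lemma sub_inl (g : Matrix (Fin n) (Fin n) F) (i : Fin n) (l : Fin s) :
    sub (m := m) g (X (Sum.inl (i, l))) =
      ∑ j, C (algebraMap F k (g i j)) * X (Sum.inl (j, l)) := by
  unfold sub
  rw [aeval_X]
  rfl

lemma sub_inr (g : Matrix (Fin n) (Fin n) F) (u : Fin s × Fin m) :
    sub (k := k) g (X (Sum.inr u)) = X (Sum.inr u) := by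
  unfold sub
  rw [aeval_X]
  rfl

lemma sub_C (g : Matrix (Fin n) (Fin n) F) (c : k) :
    sub (m := m) (s := s) g (C c) = C c := AlgHom.commutes _ c

lemma sub_comp (g h : Matrix (Fin n) (Fin n) F) :
    (sub (k := k) (m := m) (s := s) g).comp (sub h) = sub (h * g) := by
  apply algHom_ext
  rintro (⟨i, l⟩ | u)
  · rw [AlgHom.comp_apply, sub_inl, sub_inl, map_sum]
    have h1 : ∀ j, sub (k := k) (m := m) (s := s) g
        (C (algebraMap F k (h i j)) * X (Sum.inl (j, l))) =
        ∑ j', C (algebraMap F k (h i j * g j j')) * X (Sum.inl (j', l)) := by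
      intro j
      rw [map_mul, sub_C, sub_inl, Finset.mul_sum]
      refine Finset.sum_congr rfl fun j' _ => ?_
      rw [map_mul, C_mul]
      ring
    rw [Finset.sum_congr rfl fun j _ => h1 j, Finset.sum_comm]
    refine Finset.sum_congr rfl fun j' _ => ?_
    rw [← Finset.sum_mul, Matrix.mul_apply, map_sum, map_sum]
  · rw [AlgHom.comp_apply, sub_inr, sub_inr, sub_inr]

lemma sub_one : sub (k := k) (m := m) (s := s) (1 : Matrix (Fin n) (Fin n) F) =
    AlgHom.id k _ := by
  apply algHom_ext
  rintro (⟨i, l⟩ | u)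
  · rw [sub_inl, Finset.sum_eq_single i]
    · simp
    · intro j _ hj
      rw [Matrix.one_apply_ne (Ne.symm hj)]
      simp
    · intro h
      exact absurd (Finset.mem_univ i) h
  · rw [sub_inr]
    rfl

lemma sub_injective (g : Matrix.GeneralLinearGroup (Fin n) F) : Function.Injective
    (sub (k := k) (m := m) (s := s) (g : Matrix (Fin n) (Fin n) F)) := by
  have h1 : (sub (k := k) (m := m) (s := s)
      ((g⁻¹ : Matrix.GeneralLinearGroup (Fin n) F) : Matrix (Fin n) (Fin n) F)).comp
      (sub (g : Matrix (Fin n) (Fin n) F)) = AlgHom.id k _ := by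
    rw [sub_comp, ← Units.val_mul, mul_inv_cancel, Units.val_one, sub_one]
  intro a b hab
  have h2 := congrArg (sub (k := k) (m := m) (s := s)
      ((g⁻¹ : Matrix.GeneralLinearGroup (Fin n) F) : Matrix (Fin n) (Fin n) F)) hab
  have h3 : ∀ c, sub (k := k) (m := m) (s := s)
      ((g⁻¹ : Matrix.GeneralLinearGroup (Fin n) F) : Matrix (Fin n) (Fin n) F)
      (sub (g : Matrix (Fin n) (Fin n) F) c) = c := fun c => congrArg (fun f => f c) h1
  rwa [h3, h3] at h2

lemma sub_phi (g : Matrix (Fin n) (Fin n) F) (i : Fin n) (j : Fin m) :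
    sub g (phi k n m s (X (i, j))) =
      ∑ i', C (algebraMap F k (g i i')) * phi k n m s (X (i', j)) := by
  simp only [phi, aeval_X, map_sum, map_mul, sub_inl, sub_inr, Finset.sum_mul, Finset.mul_sum]
  rw [Finset.sum_comm]
  exact Finset.sum_congr rfl fun i' _ => Finset.sum_congr rfl fun l _ => by ring

lemma sub_mC (g : Matrix (Fin n) (Fin n) F) (e : Fin s → Fin m) :
    sub g (mC k e) = mC k e := by
  rw [mC, AlgHom.map_det]
  congr 1
  ext1 i j
  simp [Cm, sub_inr]

/-- The action on the field. -/
noncomputable def sK (g : Matrix.GeneralLinearGroup (Fin n) F) : FD k n m s →ₐ[k] FD k n m s :=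
  IsFractionRing.liftAlgHom (A := PP k n m s) (K := FD k n m s)
    (g := (IsScalarTower.toAlgHom k (PP k n m s) (FD k n m s)).comp
      (sub (g : Matrix (Fin n) (Fin n) F)))
    ((IsFractionRing.injective (PP k n m s) (FD k n m s)).comp (sub_injective g))

lemma sub_injective' (g : Matrix.GeneralLinearGroup (Fin n) F) : Function.Injective
    ((IsScalarTower.toAlgHom k (PP k n m s) (FD k n m s)).comp
      (sub (g : Matrix (Fin n) (Fin n) F))).toRingHom :=
  (IsFractionRing.injective (PP k n m s) (FD k n m s)).comp (sub_injective g)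

lemma sK_algebraMap (g : Matrix.GeneralLinearGroup (Fin n) F) (f : PP k n m s) :
    sK g (algebraMap (PP k n m s) (FD k n m s) f) =
      algebraMap (PP k n m s) (FD k n m s) (sub (g : Matrix (Fin n) (Fin n) F) f) :=
  IsFractionRing.lift_algebraMap (sub_injective' g) f

lemma sK_comp (g h : Matrix.GeneralLinearGroup (Fin n) F) (x : FD k n m s) :
    sK g (sK h x) = sK (h * g) x := by
  have h2 : ∀ c : PP k n m s, sK g (sK h (algebraMap (PP k n m s) (FD k n m s) c)) =
      sK (h * g) (algebraMap (PP k n m s) (FD k n m s) c) := by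
    intro c
    rw [sK_algebraMap, sK_algebraMap, sK_algebraMap, Units.val_mul, ← sub_comp]
    rfl
  obtain ⟨a, b, -, rfl⟩ := IsFractionRing.div_surjective (A := PP k n m s) x
  have h3 : sK g (sK h (algebraMap (PP k n m s) (FD k n m s) a /
      algebraMap (PP k n m s) (FD k n m s) b)) =
      sK g (sK h (algebraMap (PP k n m s) (FD k n m s) a)) /
      sK g (sK h (algebraMap (PP k n m s) (FD k n m s) b)) := by
    rw [map_div₀, map_div₀]
  rw [h3, h2, h2, map_div₀]

lemma sK_one (x : FD k n m s) : sK (1 : Matrix.GeneralLinearGroup (Fin n) F) x = x := by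
  have h2 : ∀ c : PP k n m s, sK (1 : Matrix.GeneralLinearGroup (Fin n) F)
      (algebraMap (PP k n m s) (FD k n m s) c) = algebraMap (PP k n m s) (FD k n m s) c := by
    intro c
    rw [sK_algebraMap, Units.val_one, sub_one]
    rfl
  obtain ⟨a, b, -, rfl⟩ := IsFractionRing.div_surjective (A := PP k n m s) x
  rw [map_div₀, h2, h2]

lemma sK_XD (g : Matrix.GeneralLinearGroup (Fin n) F) (i : Fin n) (j : Fin m) :
    sK g (XD k n m s i j) =
      ∑ i', algebraMap F (FD k n m s) ((g : Matrix (Fin n) (Fin n) F) i i') *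
        XD k n m s i' j := by
  rw [XD_apply, sK_algebraMap, sub_phi, map_sum]
  refine Finset.sum_congr rfl fun i' _ => ?_
  have h3 : ∀ a : F, algebraMap (PP k n m s) (FD k n m s) (C (algebraMap F k a)) =
      algebraMap F (FD k n m s) a := by
    intro a
    rw [IsScalarTower.algebraMap_apply F k (FD k n m s),
      IsScalarTower.algebraMap_apply k (PP k n m s) (FD k n m s)]
    rfl
  rw [XD_apply, map_mul, h3]

lemma sK_UD (g : Matrix.GeneralLinearGroup (Fin n) F) (e : Fin s → Fin m)
    (he : mC (n := n) k e ≠ 0) (l : Fin s) (j : Fin m) :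
    sK g (UD k n e l j) = UD k n e l j := by
  rw [UD_eq_div e he, map_div₀, sK_algebraMap, sK_algebraMap, sub_mC, sub_mC]

end sub

end Pool.Agent.R837.FN
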