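import Pool.Agent.R837.FN.Det1

/-!
The function fields of the quotients of determinantal varieties by Frobenius kernels.
-/

set_option autoImplicit false
set_option linter.unusedSectionVars false

open Finset MvPolynomial

universe u v w z

namespace Pool.Agent.R837.FN

open Pool.Agent.R837.FM Pool.Agent.Y212.Dk

section field

variable (k : Type u) [Field k] (n m s p r r' : ℕ)

/-- The generators of the function field. -/
def gset : Set (FD k n m s) := {a | ∃ i j, a = XD k n m s i j ^ (p ^ r)} ∪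
  {a | ∃ e : Fin s → Fin m, mC (n := n) k e ≠ 0 ∧ ∃ l j, a = UD k n e l j ^ (p ^ r')}

/-- The function field of the quotient of the determinantal variety. -/
noncomputable def LG : IntermediateField k (FD k n m s) := IntermediateField.adjoin k (gset k n m s p r r')

/-- The charts of the Grassmannian. -/
abbrev T0 : Type := {e : Fin s → Fin m // mC (n := n) k e ≠ 0}

variable {k n m s}

/-- The coordinates. -/
noncomputable def zL (i : Fin n) (j : Fin m) : LG k n m s p r r' :=
  ⟨XD k n m s i j ^ (p ^ r), IntermediateField.subset_adjoin _ _ (Or.inl ⟨i, j, rfl⟩)⟩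

/-- The coordinates of the Grassmannian. -/
noncomputable def uL (e : T0 k n m s) (l : Fin s) (j : Fin m) : LG k n m s p r r' :=
  ⟨UD k n e.1 l j ^ (p ^ r'), IntermediateField.subset_adjoin _ _ (Or.inr ⟨e.1, e.2, l, j, rfl⟩)⟩

/-- The twisted coordinates of the Grassmannian. -/
noncomputable def eL (e : T0 k n m s) (l : Fin s) (j : Fin m) : LG k n m s p r r' :=
  uL p r r' e l j ^ (p ^ (r - r'))

lemma coe_zL (i : Fin n) (j : Fin m) :
    ((zL p r r' i j : LG k n m s p r r') : FD k n m s) = XD k n m s i j ^ (p ^ r) := rfl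

lemma coe_uL (e : T0 k n m s) (l : Fin s) (j : Fin m) :
    (uL p r r' e l j : FD k n m s) = UD k n e.1 l j ^ (p ^ r') := rfl

variable {p r r'}

lemma coe_eL (hr : r' ≤ r) (e : T0 k n m s) (l : Fin s) (j : Fin m) :
    (eL p r r' e l j : FD k n m s) = UD k n e.1 l j ^ (p ^ r) := by
  unfold eL
  rw [IntermediateField.coe_pow, coe_uL, ← pow_mul, ← pow_add, Nat.add_sub_cancel' hr]

section frob

variable [hp : Fact p.Prime] [CharP k p]

include hp in
lemma charP_FD (k : Type u) [Field k] [CharP k p] (n m s : ℕ) : CharP (FD k n m s) p :=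
  charP_of_injective_algebraMap (R := k)
    (FaithfulSMul.algebraMap_injective k (FD k n m s)) p

lemma pow_sum_FD {ι : Type*} (t : Finset ι) (f : ι → FD k n m s) (N : ℕ) :
    (∑ i ∈ t, f i) ^ (p ^ N) = ∑ i ∈ t, f i ^ (p ^ N) := by
  have := charP_FD (p := p) k n m s
  exact sum_pow_char_pow _ _ _ _

lemma zL_sum (hr : r' ≤ r) (i : Fin n) (e : T0 k n m s) (j : Fin m) :
    zL p r r' i j = ∑ l, zL p r r' i (e.1 l) * eL p r r' e l j := by
  apply Subtype.ext
  have h1 : ((∑ l, zL p r r' i (e.1 l) * eL p r r' e l j : LG k n m s p r r') : FD k n m s) =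
      ∑ l, (XD k n m s i (e.1 l) * UD k n e.1 l j) ^ (p ^ r) := by
    rw [IntermediateField.coe_sum]
    refine Finset.sum_congr rfl fun l _ => ?_
    rw [IntermediateField.coe_mul, coe_eL hr, coe_zL, mul_pow]
  rw [h1, ← pow_sum_FD, coe_zL]
  congr 1
  rw [← XD_sum e.1 e.2 i j]
  exact Finset.sum_congr rfl fun l _ => by rw [xe_eq e.1 e.2]

lemma UD_sum (e e' : T0 k n m s) (l : Fin s) (j : Fin m) :
    UD k n e.1 l j = ∑ l', UD k n e.1 l (e'.1 l') * UD k n e'.1 l' j := by
  have h1 : UD k n e.1 = (UD k n e.1).submatrix id e'.1 * UD k n e'.1 := by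
    have h2 : (UD k n e.1).submatrix id e'.1 = (Ce k n e.1)⁻¹ * Ce k n e'.1 := by
      ext1 a b
      simp [UD, Ce, Matrix.mul_apply]
    rw [h2, Matrix.mul_assoc, Ce_mul_UD e'.1 e'.2]
    rfl
  have h2 := congrFun (congrFun h1 l) j
  rw [Matrix.mul_apply] at h2
  exact h2

lemma eL_sum (hr : r' ≤ r) (e e' : T0 k n m s) (l : Fin s) (j : Fin m) :
    eL p r r' e l j = ∑ l', eL p r r' e l (e'.1 l') * eL p r r' e' l' j := by
  apply Subtype.ext
  have h1 : ((∑ l', eL p r r' e l (e'.1 l') * eL p r r' e' l' j : LG k n m s p r r') :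
      FD k n m s) = ∑ l', (UD k n e.1 l (e'.1 l') * UD k n e'.1 l' j) ^ (p ^ r) := by
    rw [IntermediateField.coe_sum]
    refine Finset.sum_congr rfl fun l _ => ?_
    rw [IntermediateField.coe_mul, coe_eL hr, coe_eL hr, mul_pow]
  rw [h1, ← pow_sum_FD, coe_eL hr, ← UD_sum]

end frob

lemma uL_range (e : T0 k n m s) (i l : Fin s) (h0 : p ^ r' ≠ 0) :
    uL p r r' e i (e.1 l) = if i = l then 1 else 0 := by
  apply Subtype.ext
  rw [coe_uL, UD_range e.1 e.2]
  split_ifs
  · rw [one_pow]
    rfl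
  · rw [zero_pow h0]
    rfl

/-- The chart of the Grassmannian. -/
noncomputable def RG (p r r' : ℕ) (e : T0 k n m s) : Subalgebra k (LG k n m s p r r') :=
  Algebra.adjoin k (Set.range fun v : {v : Fin s × Fin m // v.2 ∉ Set.range e.1} =>
    uL p r r' e v.1.1 v.1.2)

lemma uL_mem (h0 : p ^ r' ≠ 0) (e : T0 k n m s) (l : Fin s) (j : Fin m) :
    uL p r r' e l j ∈ RG p r r' e := by
  by_cases hj : j ∈ Set.range e.1
  · obtain ⟨l', rfl⟩ := hj
    rw [uL_range e l l' h0]
    split_ifs
    · exact Subalgebra.one_mem _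
    · exact Subalgebra.zero_mem _
  · exact Algebra.subset_adjoin ⟨⟨(l, j), hj⟩, rfl⟩

lemma eL_mem (h0 : p ^ r' ≠ 0) (e : T0 k n m s) (l : Fin s) (j : Fin m) :
    eL p r r' e l j ∈ RG p r r' e := Subalgebra.pow_mem _ (uL_mem h0 e l j) _

end field

section act

variable {F : Type v} [Field F] [Fintype F] {k : Type u} [Field k] [Algebra F k]
  {n m s p r r' : ℕ} [hp : Fact p.Prime] [CharP k p]

include hp in
lemma sK_mem (g : Matrix.GeneralLinearGroup (Fin n) F) (x : FD k n m s)
    (hx : x ∈ LG k n m s p r r') : sK g x ∈ LG k n m s p r r' := by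
  have h1 : LG k n m s p r r' ≤ (LG k n m s p r r').comap (sK g) := by
    conv_lhs => unfold LG
    rw [IntermediateField.adjoin_le_iff]
    rintro _ (⟨i, j, rfl⟩ | ⟨e, he, l, j, rfl⟩)
    · change sK g (XD k n m s i j ^ (p ^ r)) ∈ LG k n m s p r r'
      rw [map_pow, sK_XD, pow_sum_FD]
      refine sum_mem fun i' _ => ?_
      rw [mul_pow]
      refine mul_mem (pow_mem ?_ _) (IntermediateField.subset_adjoin _ _ (Or.inl ⟨i', j, rfl⟩))
      rw [IsScalarTower.algebraMap_apply F k (FD k n m s)]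
      exact IntermediateField.algebraMap_mem _ _
    · change sK g (UD k n e l j ^ (p ^ r')) ∈ LG k n m s p r r'
      rw [map_pow, sK_UD g e he]
      exact IntermediateField.subset_adjoin _ _ (Or.inr ⟨e, he, l, j, rfl⟩)
  exact h1 hx

/-- The action on the function field. -/
noncomputable def sL (g : Matrix.GeneralLinearGroup (Fin n) F) :
    LG k n m s p r r' →+* LG k n m s p r r' where
  toFun x := ⟨sK g (x : FD k n m s), sK_mem g _ x.2⟩
  map_one' := Subtype.ext (map_one (sK g))
  map_mul' x y := Subtype.ext (map_mul (sK g) _ _)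
  map_zero' := Subtype.ext (map_zero (sK g))
  map_add' x y := Subtype.ext (map_add (sK g) _ _)

lemma coe_sL (g : Matrix.GeneralLinearGroup (Fin n) F) (x : LG k n m s p r r') :
    ((sL g x : LG k n m s p r r') : FD k n m s) = sK g (x : FD k n m s) := rfl

lemma sL_comp (g h : Matrix.GeneralLinearGroup (Fin n) F) (x : LG k n m s p r r') :
    sL g (sL h x) = sL (h * g) x :=
  Subtype.ext (sK_comp g h (x : FD k n m s))

lemma sL_one (x : LG k n m s p r r') : sL (1 : Matrix.GeneralLinearGroup (Fin n) F) x = x :=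
  Subtype.ext (sK_one (F := F) (x : FD k n m s))

lemma sL_algebraMap (g : Matrix.GeneralLinearGroup (Fin n) F) (c : k) :
    sL g (algebraMap k (LG k n m s p r r') c) = algebraMap k (LG k n m s p r r') c :=
  Subtype.ext ((sK g).commutes c)

lemma sL_uL (g : Matrix.GeneralLinearGroup (Fin n) F) (e : T0 k n m s) (l : Fin s)
    (j : Fin m) : sL g (uL p r r' e l j) = uL p r r' e l j := by
  apply Subtype.ext
  rw [coe_sL, coe_uL, map_pow, sK_UD g e.1 e.2]

lemma sL_zL (g : Matrix.GeneralLinearGroup (Fin n) F) (i : Fin n) (j : Fin m) :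
    sL g (zL p r r' i j) = ∑ i', ((g : Matrix (Fin n) (Fin n) F) i i' ^ (p ^ r)) •
      (zL p r r' i' j : LG k n m s p r r') := by
  apply Subtype.ext
  rw [coe_sL, coe_zL, map_pow, sK_XD, pow_sum_FD, IntermediateField.coe_sum]
  refine Finset.sum_congr rfl fun i' _ => ?_
  rw [mul_pow, Algebra.smul_def, IntermediateField.coe_mul, coe_zL, map_pow,
    IntermediateField.coe_pow]
  rfl

end act

end Pool.Agent.R837.FN
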