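import Pool.Agent.R837.FN.Det2

/-!
The initial stage for the quotients of determinantal varieties by Frobenius kernels.
-/

set_option autoImplicit false
set_option linter.unusedSectionVars false

open Finset MvPolynomial

universe u v w z

namespace Pool.Agent.R837.FN

open Pool.Agent.R837.FM Pool.Agent.Y212.Dk

section dets

variable {k : Type u} [Field k] {n m s p r r' : ℕ}

/-- The minors of `C` in the function field. -/
noncomputable def cc (k : Type u) [Field k] (n : ℕ) {m s : ℕ} (e : Fin s → Fin m) : FD k n m s :=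
  algebraMap (PP k n m s) (FD k n m s) (mC k e)

/-- The minor of `B` in the function field. -/
noncomputable def cb (k : Type u) [Field k] {n : ℕ} (m : ℕ) {s : ℕ} (hs : s ≤ n) : FD k n m s :=
  algebraMap (PP k n m s) (FD k n m s) (mB k hs)

lemma cc_ne (e : T0 k n m s) : cc k n e.1 ≠ 0 := by
  unfold cc
  rw [Ne, FaithfulSMul.algebraMap_eq_zero_iff]
  exact e.2

lemma cb_ne (hs : s ≤ n) : cb k m hs ≠ 0 := by
  unfold cb
  rw [Ne, FaithfulSMul.algebraMap_eq_zero_iff]
  exact mB_ne hs

/-- The quotients of the minors. -/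
noncomputable def dL (p r r' : ℕ) (e : T0 k n m s) (e' : Fin s → Fin m) : LG k n m s p r r' :=
  (Matrix.of fun a b => uL p r r' e a (e' b)).det

/-- The minors of the coordinates. -/
noncomputable def DL (k : Type u) [Field k] {n m s : ℕ} (p r r' : ℕ) (hs : s ≤ n)
    (e : Fin s → Fin m) : LG k n m s p r r' :=
  (Matrix.of fun a b => zL p r r' (Fin.castLE hs a) (e b)).det

lemma det_mem_alg {K : Type*} [Field K] [Algebra k K] {ι : Type*} [Fintype ι] [DecidableEq ι]
    (S : Subalgebra k K)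
    (M : Matrix ι ι K) (h : ∀ i j, M i j ∈ S) : M.det ∈ S := by
  rw [Matrix.det_apply]
  refine Subalgebra.sum_mem _ fun σ _ => ?_
  rw [Units.smul_def]
  exact S.zsmul_mem (Subalgebra.prod_mem _ fun i _ => h _ _) _

lemma dL_mem (h0 : p ^ r' ≠ 0) (e : T0 k n m s) (e' : Fin s → Fin m) :
    dL p r r' e e' ∈ RG p r r' e :=
  det_mem_alg _ _ fun a b => uL_mem h0 e a (e' b)

variable [hp : Fact p.Prime] [CharP k p]

lemma det_pow_FD {ι : Type} [Fintype ι] [DecidableEq ι] (M : Matrix ι ι (FD k n m s)) (N : ℕ) :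
    (Matrix.of fun a b => M a b ^ (p ^ N)).det = M.det ^ (p ^ N) := by
  have := charP_FD (p := p) k n m s
  rw [← iterateFrobenius_def, RingHom.map_det]
  congr 1

lemma coe_det {ι : Type} [Fintype ι] [DecidableEq ι] (M : Matrix ι ι (LG k n m s p r r')) :
    ((M.det : LG k n m s p r r') : FD k n m s) =
      (Matrix.of fun a b => ((M a b : LG k n m s p r r') : FD k n m s)).det := by
  have h := (LG k n m s p r r').val.map_det M
  exact h

lemma coe_dL (e : T0 k n m s) (e' : Fin s → Fin m) :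
    ((dL p r r' e e' : LG k n m s p r r') : FD k n m s) =
      (cc k n e' / cc k n e.1) ^ (p ^ r') := by
  unfold dL
  rw [coe_det]
  have h1 : (Matrix.of fun a b => (((Matrix.of fun a b => uL p r r' e a (e' b)) a b :
      LG k n m s p r r') : FD k n m s)) =
      Matrix.of fun a b => ((UD k n e.1).submatrix id e') a b ^ (p ^ r') := rfl
  rw [h1, det_pow_FD]
  congr 1
  exact (mC_div e.1 e.2 e').symm

lemma coe_DL (hs : s ≤ n) (e : Fin s → Fin m) :
    ((DL k p r r' hs e : LG k n m s p r r') : FD k n m s) =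
      (cb k m hs * cc k n e) ^ (p ^ r) := by
  unfold DL
  rw [coe_det]
  have h1 : (Matrix.of fun a b => (((Matrix.of fun a b => zL p r r' (Fin.castLE hs a) (e b)) a b :
      LG k n m s p r r') : FD k n m s)) =
      Matrix.of fun a b => ((XD k n m s).submatrix (Fin.castLE hs) e) a b ^ (p ^ r) := rfl
  rw [h1, det_pow_FD]
  congr 1
  unfold cb cc
  rw [← map_mul, mB_mul_mC, AlgHom.map_det, RingHom.map_det]
  congr 1
  ext1 a b
  exact XD_apply _ _

lemma DL_ne (hs : s ≤ n) (e : Fin s → Fin m) :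
    (DL k p r r' hs e : LG k n m s p r r') ≠ 0 ↔ mC (n := n) k e ≠ 0 := by
  have h0 : p ^ r ≠ 0 := (pow_pos hp.out.pos r).ne'
  have h1 : (DL k p r r' hs e : LG k n m s p r r') ≠ 0 ↔
      ((DL k p r r' hs e : LG k n m s p r r') : FD k n m s) ≠ 0 := by
    rw [Ne, Ne, not_iff_not]
    exact (ZeroMemClass.coe_eq_zero).symm
  rw [h1, coe_DL, Ne, pow_eq_zero_iff h0, mul_eq_zero, not_or]
  constructor
  · rintro ⟨-, h⟩ h'
    exact h (by unfold cc; rw [h', map_zero])
  · intro h
    exact ⟨cb_ne hs, cc_ne ⟨e, h⟩⟩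

lemma DL_eq (hr : r' ≤ r) (hs : s ≤ n) (e : T0 k n m s) (e' : Fin s → Fin m) :
    (DL k p r r' hs e' : LG k n m s p r r') =
      DL k p r r' hs e.1 * dL p r r' e e' ^ (p ^ (r - r')) := by
  apply Subtype.ext
  rw [IntermediateField.coe_mul, IntermediateField.coe_pow, coe_DL, coe_DL, coe_dL, ← pow_mul,
    ← pow_add, Nat.add_sub_cancel' hr, ← mul_pow]
  congr 1
  have := cc_ne e
  field_simp

lemma uL_eq (e : T0 k n m s) (l : Fin s) (j : Fin m) :
    (uL p r r' e l j : LG k n m s p r r') = dL p r r' e (Function.update e.1 l j) := by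
  apply Subtype.ext
  rw [coe_dL, coe_uL, UD_eq_div e.1 e.2]
  rfl

lemma dL_mul (e e' : T0 k n m s) (e'' : Fin s → Fin m) :
    (dL p r r' e e'.1 * dL p r r' e' e'' : LG k n m s p r r') = dL p r r' e e'' := by
  apply Subtype.ext
  rw [IntermediateField.coe_mul, coe_dL, coe_dL, coe_dL, ← mul_pow]
  congr 1
  have := cc_ne e
  have := cc_ne e'
  field_simp

lemma dL_ne (e e' : T0 k n m s) : (dL p r r' e e'.1 : LG k n m s p r r') ≠ 0 := by
  intro h
  have h1 := coe_dL (r := r) (p := p) (r' := r') e e'.1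
  rw [h] at h1
  have h2 : (cc k n e'.1 / cc k n e.1) ^ (p ^ r') ≠ 0 :=
    pow_ne_zero _ (div_ne_zero (cc_ne e') (cc_ne e))
  exact h2 h1.symm

section act

variable {F : Type v} [Field F] [Fintype F] [Algebra F k]

lemma sL_dL (g : Matrix.GeneralLinearGroup (Fin n) F) (e : T0 k n m s) (e' : Fin s → Fin m) :
    sL g (dL p r r' e e') = (dL p r r' e e' : LG k n m s p r r') := by
  unfold dL
  rw [RingHom.map_det]
  congr 1
  ext1 a b
  exact sL_uL g e a (e' b)

variable (F)

/-- The general linear group over a finite field is finite. -/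
noncomputable def ftGL (n : ℕ) : Fintype (Matrix.GeneralLinearGroup (Fin n) F) := by
  classical
  have : Finite (Matrix (Fin n) (Fin n) F) := inferInstanceAs (Finite (Fin n → Fin n → F))
  exact Fintype.ofFinite _

/-- The equations of the charts. -/
noncomputable def HG (k : Type u) [Field k] [Algebra F k] {n m s : ℕ} (p r r' : ℕ)
    [Fact p.Prime] [CharP k p] (hs : s ≤ n) (e : Fin s → Fin m) : LG k n m s p r r' :=
  let _ := ftGL F n
  ∏ g : Matrix.GeneralLinearGroup (Fin n) F, sL g (DL k p r r' hs e)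

variable {F}

lemma HG_ne (hs : s ≤ n) (e : T0 k n m s) :
    (HG F k p r r' hs e.1 : LG k n m s p r r') ≠ 0 := by
  let _ := ftGL F n
  unfold HG
  refine Finset.prod_ne_zero_iff.2 fun g _ => ?_
  exact (map_ne_zero _).2 ((DL_ne hs e.1).2 e.2)

lemma sL_HG (hs : s ≤ n) (e : Fin s → Fin m) (h : Matrix.GeneralLinearGroup (Fin n) F) :
    sL h (HG F k p r r' hs e : LG k n m s p r r') = HG F k p r r' hs e := by
  let _ := ftGL F n
  unfold HG
  rw [map_prod]
  refine Fintype.prod_equiv (Equiv.mulRight h) _ _ fun g => ?_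
  rw [sL_comp]
  rfl

lemma HG_eq (hr : r' ≤ r) (hs : s ≤ n) (e : T0 k n m s) (e' : Fin s → Fin m) :
    ∃ N : ℕ, 0 < N ∧ (HG F k p r r' hs e' : LG k n m s p r r') =
      HG F k p r r' hs e.1 * dL p r r' e e' ^ N := by
  let _ := ftGL F n
  refine ⟨p ^ (r - r') * Fintype.card (Matrix.GeneralLinearGroup (Fin n) F),
    Nat.mul_pos (pow_pos hp.out.pos _) Fintype.card_pos, ?_⟩
  have h1 : ∀ g : Matrix.GeneralLinearGroup (Fin n) F,
      sL g (DL k p r r' hs e' : LG k n m s p r r') =
      sL g (DL k p r r' hs e.1) * dL p r r' e e' ^ (p ^ (r - r')) := by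
    intro g
    rw [DL_eq hr hs e e', map_mul, map_pow, sL_dL]
  unfold HG
  rw [Finset.prod_congr rfl fun g _ => h1 g, Finset.prod_mul_distrib, Finset.prod_const, ← pow_mul]
  rfl

end act

end dets

end Pool.Agent.R837.FN
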