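import Pool.Agent.R837.FN.Det3

/-!
The initial stage for the quotients of determinantal varieties by Frobenius kernels.
-/

set_option autoImplicit false
set_option linter.unusedSectionVars false

open Finset MvPolynomial

universe u v w z

namespace Pool.Agent.R837.FN

open Pool.Agent.R837.FM Pool.Agent.Y212.Dk

section stage

variable {k : Type u} [Field k] {n m s p r r' : ℕ} [hp : Fact p.Prime] [CharP k p]

include hp in
lemma inv_mem_LG (hs : s ≤ n) (e : T0 k n m s) {f : PP k n m s}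
    (hf : f ∈ InvD k n m s (p ^ r) (p ^ r')) :
    algebraMap _ (FD k n m s) f ∈ LG k n m s p r r' := by
  have h1 := algebraMap_memD hs e.1 e.2 r r' hf
  have h2 : Algebra.adjoin k (Set.range fun v : Tg n e.1 =>
      wD k n e.1 v ^ (Sum.elim (fun _ => p ^ r) (fun _ => p ^ r') v : ℕ)) ≤
      (LG k n m s p r r').toSubalgebra := by
    rw [Algebra.adjoin_le_iff]
    rintro _ ⟨v, rfl⟩
    rcases v with v | v
    · change xe k n e.1 v.1 v.2 ^ (p ^ r) ∈ LG k n m s p r r'
      rw [xe_eq e.1 e.2]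
      exact IntermediateField.subset_adjoin _ _ (Or.inl ⟨_, _, rfl⟩)
    · exact IntermediateField.subset_adjoin _ _ (Or.inr ⟨e.1, e.2, _, _, rfl⟩)
  exact h2 h1

/-- The inclusion of the ring of the invariants of the Frobenius kernels. -/
noncomputable def jL (hs : s ≤ n) (e : T0 k n m s) (r r' : ℕ) :
    InvD k n m s (p ^ r) (p ^ r') →ₐ[k] LG k n m s p r r' where
  toFun f := ⟨algebraMap _ (FD k n m s) (f : PP k n m s), inv_mem_LG hs e f.2⟩
  map_one' := Subtype.ext (map_one _)
  map_mul' _ _ := Subtype.ext (map_mul _ _ _)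
  map_zero' := Subtype.ext (map_zero _)
  map_add' _ _ := Subtype.ext (map_add _ _ _)
  commutes' c := Subtype.ext (IsScalarTower.algebraMap_apply k (PP k n m s) (FD k n m s) c).symm

lemma coe_jL (hs : s ≤ n) (e : T0 k n m s) (f : InvD k n m s (p ^ r) (p ^ r')) :
    ((jL hs e r r' f : LG k n m s p r r') : FD k n m s) =
      algebraMap _ (FD k n m s) (f : PP k n m s) := rfl

/-- The ring of the invariants of the Frobenius kernels. -/
noncomputable def BL (hs : s ≤ n) (e : T0 k n m s) (r r' : ℕ) :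
    Subalgebra k (LG k n m s p r r') := (jL hs e r r').range

/-- The ring generated by the coordinates. -/
noncomputable def ZL (k : Type u) [Field k] (n m s p r r' : ℕ) :
    Subalgebra k (LG k n m s p r r') := Algebra.adjoin k {a | ∃ i j, a = zL p r r' i j}

lemma zL_mem_ZL (i : Fin n) (j : Fin m) : zL p r r' i j ∈ ZL k n m s p r r' := by
  unfold ZL
  exact Algebra.subset_adjoin ⟨i, j, rfl⟩

lemma zL_mem_BL (hr : r' ≤ r) (hs : s ≤ n) (e : T0 k n m s) (i : Fin n) (j : Fin m) :
    zL p r r' i j ∈ BL hs e r r' := by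
  refine ⟨⟨_, pow_memD hr (i, j)⟩, ?_⟩
  apply Subtype.ext
  change algebraMap _ (FD k n m s) (phi k n m s (X (i, j)) ^ (p ^ r)) = XD k n m s i j ^ (p ^ r)
  rw [map_pow, XD_apply]

lemma ZL_le (hr : r' ≤ r) (hs : s ≤ n) (e : T0 k n m s) :
    ZL k n m s p r r' ≤ BL hs e r r' := by
  unfold ZL
  rw [Algebra.adjoin_le_iff]
  rintro _ ⟨i, j, rfl⟩
  exact zL_mem_BL hr hs e i j

lemma DL_mem (hs : s ≤ n) (e : Fin s → Fin m) : DL k p r r' hs e ∈ ZL k n m s p r r' :=
  det_mem_alg _ _ fun a b => zL_mem_ZL (Fin.castLE hs a) (e b)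

section act

variable {F : Type v} [Field F] [Fintype F] [Algebra F k]

lemma sL_ZL (g : Matrix.GeneralLinearGroup (Fin n) F) (x : LG k n m s p r r')
    (hx : x ∈ ZL k n m s p r r') : sL g x ∈ ZL k n m s p r r' := by
  let σ : LG k n m s p r r' →ₐ[k] LG k n m s p r r' :=
    { (sL g : LG k n m s p r r' →+* LG k n m s p r r') with commutes' := sL_algebraMap g }
  have h1 : ZL k n m s p r r' ≤ (ZL k n m s p r r').comap σ := by
    conv_lhs => unfold ZL
    rw [Algebra.adjoin_le_iff]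
    rintro _ ⟨i, j, rfl⟩
    change sL g (zL p r r' i j) ∈ ZL k n m s p r r'
    rw [sL_zL]
    refine Subalgebra.sum_mem _ fun i' _ => ?_
    rw [← algebraMap_smul k]
    exact Subalgebra.smul_mem _ (zL_mem_ZL i' j) _
  exact h1 hx

lemma HG_mem (hs : s ≤ n) (e : Fin s → Fin m) :
    HG F k p r r' hs e ∈ ZL k n m s p r r' := by
  unfold HG
  exact Subalgebra.prod_mem _ fun g _ => sL_ZL g _ (DL_mem hs e)

/-- The quotient by one of the factors. -/
lemma HG_factor (hs : s ≤ n) (e : Fin s → Fin m) : ∃ x ∈ ZL k n m s p r r',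
    HG F k p r r' hs e = DL k p r r' hs e * x := by
  classical
  let _ := ftGL F n
  unfold HG
  refine ⟨∏ g ∈ Finset.univ.erase (1 : Matrix.GeneralLinearGroup (Fin n) F),
    sL g (DL k p r r' hs e), Subalgebra.prod_mem _ fun g _ => sL_ZL g _ (DL_mem hs e), ?_⟩
  have h1 := Finset.mul_prod_erase Finset.univ
    (fun g : Matrix.GeneralLinearGroup (Fin n) F => sL g (DL k p r r' hs e :
      LG k n m s p r r')) (Finset.mem_univ 1)
  rw [sL_one] at h1
  rw [h1]

lemma uL_DL_mem (hr : r' ≤ r) (hs : s ≤ n) (e0 e : T0 k n m s) (l : Fin s) (j : Fin m) :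
    uL p r r' e l j * DL k p r r' hs e.1 ∈ BL hs e0 r r' := by
  have hQ : 0 < p ^ (r - r') := pow_pos hp.out.pos _
  let t : Fin (p ^ (r - r')) → Fin s → Fin m :=
    fun a => if a = ⟨0, hQ⟩ then Function.update e.1 l j else e.1
  refine ⟨⟨_, z_memD hr hs t⟩, ?_⟩
  apply Subtype.ext
  rw [IntermediateField.coe_mul, coe_uL, coe_DL]
  change algebraMap _ (FD k n m s) (∏ a, (mB k hs * mC k (t a)) ^ (p ^ r')) = _
  have h1 : algebraMap _ (FD k n m s) (∏ a, (mB k hs * mC k (t a)) ^ (p ^ r')) =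
      ∏ a, (cb k m hs * cc k n (t a)) ^ (p ^ r') := by
    rw [map_prod]
    refine Finset.prod_congr rfl fun a _ => ?_
    rw [map_pow, map_mul]
    rfl
  have h2 : (cb k m hs * cc k n e.1) ^ (p ^ r) =
      ∏ _a : Fin (p ^ (r - r')), (cb k m hs * cc k n e.1) ^ (p ^ r') := by
    rw [Finset.prod_const, Finset.card_univ, Fintype.card_fin, ← pow_mul, ← pow_add,
      Nat.add_sub_cancel' hr]
  have hc := cc_ne e
  have hb := cb_ne (k := k) (m := m) hs
  have h3 : (∏ a, (cb k m hs * cc k n (t a)) ^ (p ^ r')) /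
      ∏ _a : Fin (p ^ (r - r')), (cb k m hs * cc k n e.1) ^ (p ^ r') =
      UD k n e.1 l j ^ (p ^ r') := by
    rw [← Finset.prod_div_distrib, Finset.prod_eq_single (⟨0, hQ⟩ : Fin (p ^ (r - r')))]
    · rw [← div_pow, mul_div_mul_left _ _ hb, UD_eq_div e.1 e.2]
      have h4 : t ⟨0, hQ⟩ = Function.update e.1 l j := if_pos rfl
      rw [h4]
      rfl
    · intro a _ ha
      have h4 : t a = e.1 := if_neg ha
      rw [h4, div_self]
      exact pow_ne_zero _ (mul_ne_zero hb hc)
    · intro h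
      exact absurd (Finset.mem_univ _) h
  rw [h1, h2, ← h3, div_mul_cancel₀]
  rw [← h2]
  exact pow_ne_zero _ (mul_ne_zero hb hc)

/-- The space of the rows. -/
noncomputable def XG (F : Type v) [Field F] (k : Type u) [Field k] [Algebra F k] (n m s p r r' : ℕ) :
    Submodule F (Fin m → LG k n m s p r r') where
  carrier := {y | ∀ (e : T0 k n m s) (j : Fin m), y j = ∑ l, y (e.1 l) * eL p r r' e l j}
  add_mem' := by
    intro a b ha hb e j
    rw [Pi.add_apply, ha e j, hb e j, ← Finset.sum_add_distrib]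
    exact Finset.sum_congr rfl fun l _ => by rw [Pi.add_apply, add_mul]
  zero_mem' := by
    intro e j
    simp
  smul_mem' := by
    intro c a ha e j
    rw [Pi.smul_apply, ha e j, Finset.smul_sum]
    exact Finset.sum_congr rfl fun l _ => by rw [Pi.smul_apply, smul_mul_assoc]

lemma zL_mem_XG (hr : r' ≤ r) (i : Fin n) : (zL p r r' i) ∈ XG F k n m s p r r' :=
  fun e j => zL_sum hr i e j

lemma sigma_XG (hr : r' ≤ r) (e : T0 k n m s) (σ : LG k n m s p r r' →+* LG k n m s p r r')
    (hσ : ∀ b ∈ RG p r r' e, σ b = b) (y : Fin m → LG k n m s p r r')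
    (hy : y ∈ XG F k n m s p r r') : (fun l => σ (y l)) ∈ XG F k n m s p r r' := by
  have h0 : p ^ r' ≠ 0 := (pow_pos hp.out.pos r').ne'
  have h1 : ∀ j, σ (y j) = ∑ l, σ (y (e.1 l)) * eL p r r' e l j := by
    intro j
    conv_lhs => rw [hy e j]
    rw [map_sum]
    refine Finset.sum_congr rfl fun l _ => ?_
    rw [map_mul, hσ _ (eL_mem h0 e l j)]
  intro e' j
  change σ (y j) = ∑ l, σ (y (e'.1 l)) * eL p r r' e' l j
  rw [h1 j]
  have h2 : ∀ l', σ (y (e'.1 l')) * eL p r r' e' l' j =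
      ∑ l, σ (y (e.1 l)) * (eL p r r' e l (e'.1 l') * eL p r r' e' l' j) := by
    intro l'
    rw [h1 (e'.1 l'), Finset.sum_mul]
    exact Finset.sum_congr rfl fun l _ => by ring
  rw [Finset.sum_congr rfl fun l' _ => h2 l', Finset.sum_comm]
  refine Finset.sum_congr rfl fun l _ => ?_
  rw [← Finset.mul_sum, ← eL_sum hr]

/-- The initial stage. -/
theorem stage_det (hr : r' ≤ r) (hs : s ≤ n) (e0 : T0 k n m s) :
    Stage F (BL hs e0 r r') (XG F k n m s p r r') ⊥ (Fintype.card Empty)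
      (fun e : T0 k n m s => RG p r r' e) (fun e => HG F k p r r' hs e.1)
      (fun e => rG (XG F k n m s p r r') e.1) := by
  classical
  have h0 : p ^ r' ≠ 0 := (pow_pos hp.out.pos r').ne'
  refine stage_grass (E := fun e l j => eL p r r' e l j) (fun e l j => eL_mem h0 e l j)
    (fun y hy e j => hy e j) (fun e => HG_ne hs e) (fun e => ZL_le hr hs e0 (HG_mem hs e.1))
    ?_ ?_ ?_ ?_
  · intro e e'
    obtain ⟨N, -, hN⟩ := HG_eq (F := F) hr hs e e'.1
    rw [hN, mul_div_cancel_left₀ _ (HG_ne hs e)]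
    exact Subalgebra.pow_mem _ (dL_mem h0 e e'.1) _
  · intro e e'
    obtain ⟨N, hN0, hN⟩ := HG_eq (F := F) hr hs e e'.1
    have hd : (HG F k p r r' hs e'.1 : LG k n m s p r r') / HG F k p r r' hs e.1 =
        dL p r r' e e'.1 ^ N := by
      rw [hN, mul_div_cancel_left₀ _ (HG_ne hs e)]
    rw [hd]
    have hinv : (dL p r r' e e'.1 : LG k n m s p r r')⁻¹ ∈
        Loc (RG p r r' e) (dL p r r' e e'.1 ^ N) := by
      have h1 : (dL p r r' e e'.1 : LG k n m s p r r')⁻¹ =
          dL p r r' e e'.1 ^ (N - 1) * (dL p r r' e e'.1 ^ N)⁻¹ := by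
        have h2 := dL_ne (p := p) (r := r) (r' := r') e e'
        have h3 : (dL p r r' e e'.1 : LG k n m s p r r') ^ N =
            dL p r r' e e'.1 ^ (N - 1) * dL p r r' e e'.1 := by
          rw [← pow_succ, Nat.sub_add_cancel hN0]
        rw [h3]
        field_simp
      rw [h1]
      exact Subalgebra.mul_mem _ (le_loc _ _ (Subalgebra.pow_mem _ (dL_mem h0 e e'.1) _))
        (inv_mem_loc _ _)
    conv_lhs => unfold RG
    rw [Algebra.adjoin_le_iff]
    rintro _ ⟨v, rfl⟩
    change uL p r r' e' v.1.1 v.1.2 ∈ _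
    have h4 : (uL p r r' e' v.1.1 v.1.2 : LG k n m s p r r') =
        (dL p r r' e e'.1)⁻¹ * dL p r r' e (Function.update e'.1 v.1.1 v.1.2) := by
      rw [uL_eq, eq_inv_mul_iff_mul_eq₀ (dL_ne e e'), dL_mul]
    rw [h4]
    exact Subalgebra.mul_mem _ hinv (le_loc _ _ (dL_mem h0 e _))
  · intro e
    conv_lhs => unfold RG
    rw [Algebra.adjoin_le_iff]
    rintro _ ⟨v, rfl⟩
    change uL p r r' e v.1.1 v.1.2 ∈ _
    obtain ⟨x, hx, hH⟩ := HG_factor (F := F) (k := k) (p := p) (r := r) (r' := r') hs e.1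
    have h1 : (uL p r r' e v.1.1 v.1.2 : LG k n m s p r r') =
        (uL p r r' e v.1.1 v.1.2 * DL k p r r' hs e.1 * x) * (HG F k p r r' hs e.1)⁻¹ := by
      rw [mul_assoc (uL p r r' e v.1.1 v.1.2), ← hH, mul_inv_cancel_right₀ (HG_ne hs e)]
    rw [h1]
    exact Subalgebra.mul_mem _ (le_loc _ _ (Subalgebra.mul_mem _ (uL_DL_mem hr hs e0 e _ _)
      (ZL_le hr hs e0 hx))) (inv_mem_loc _ _)
  · intro V hV
    obtain ⟨e, -, he⟩ := Finset.exists_max_image (Finset.univ : Finset (Fin s → Fin m))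
      (fun e => V.valuation (DL k p r r' hs e)) ⟨e0.1, Finset.mem_univ _⟩
    have hne : mC (n := n) k e ≠ 0 := by
      rw [← DL_ne (r := r) (r' := r') (p := p) hs e]
      intro h
      have h1 := he e0.1 (Finset.mem_univ _)
      rw [h, map_zero, le_zero_iff, Valuation.zero_iff] at h1
      exact (DL_ne hs e0.1).2 e0.2 h1
    refine ⟨⟨e, hne⟩, ?_⟩
    have hu : ∀ l j, uL p r r' ⟨e, hne⟩ l j ∈ V := by
      intro l j
      have h1 := he (Function.update e l j) (Finset.mem_univ _)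
      have h2 : (DL k p r r' hs (Function.update e l j) : LG k n m s p r r') =
          DL k p r r' hs e * uL p r r' ⟨e, hne⟩ l j ^ (p ^ (r - r')) := by
        rw [DL_eq hr hs ⟨e, hne⟩, uL_eq]
      rw [h2, map_mul, map_pow] at h1
      have h3 : 0 < V.valuation (DL k p r r' hs e : LG k n m s p r r') := by
        rw [zero_lt_iff, Ne, map_eq_zero]
        exact (DL_ne hs e).2 hne
      have h4 : V.valuation (uL p r r' ⟨e, hne⟩ l j : LG k n m s p r r') ^ (p ^ (r - r')) ≤ 1 := by
        by_contra hcon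
        rw [not_le] at hcon
        have h5 := mul_lt_mul_of_pos_left hcon h3
        rw [mul_one] at h5
        exact absurd h1 (not_le.2 h5)
      rw [← V.valuation_le_one_iff]
      exact (pow_le_one_iff_of_nonneg zero_le (pow_pos hp.out.pos _).ne').1 h4
    have hk : ∀ c : k, algebraMap k (LG k n m s p r r') c ∈ V := fun c =>
      hV _ (Subalgebra.algebraMap_mem _ c)
    have h6 : RG p r r' (⟨e, hne⟩ : T0 k n m s) ≤ valAlg V hk := by
      unfold RG
      rw [Algebra.adjoin_le_iff]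
      rintro _ ⟨v, rfl⟩
      exact hu _ _
    exact fun a ha => h6 ha

end act

end stage

end Pool.Agent.R837.FN
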