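import Pool.Agent.R837.FN.Det4

/-!
The function fields of the quotients of determinantal varieties by Frobenius kernels: generators,
transcendence degree, Frobenius twists of matrices.
-/

set_option autoImplicit false
set_option linter.unusedSectionVars false

open Finset MvPolynomial

universe u v w z

namespace Pool.Agent.R837.FN

open Pool.Agent.R837.FM Pool.Agent.Y212.Dk

section gen

variable {k : Type u} [Field k] {n m s p r r' : ℕ} [hp : Fact p.Prime] [CharP k p]

/-- Algebraically independent elements. -/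
noncomputable def wL (p r r' : ℕ) (e : T0 k n m s) : Tg n e.1 → LG k n m s p r r' :=
  Sum.elim (fun u => zL p r r' u.1 (e.1 u.2)) fun v => uL p r r' e v.1.1 v.1.2

lemma ai_wL (e : T0 k n m s) : AlgebraicIndependent k (wL p r r' e) := by
  rw [← AlgHom.algebraicIndependent_iff (LG k n m s p r r').val Subtype.val_injective]
  have h1 := (algebraicIndependent_wD e.1 e.2).polynomial_aeval_of_transcendental
    (f := fun v : Tg n e.1 =>
      (Polynomial.X ^ (Sum.elim (fun _ => p ^ r) (fun _ => p ^ r') v : ℕ) : Polynomial k)) ?_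
  · have h2 : (fun i => (Polynomial.aeval (wD k n e.1 i))
        ((fun v : Tg n e.1 => (Polynomial.X ^ (Sum.elim (fun _ => p ^ r) (fun _ => p ^ r') v : ℕ) :
          Polynomial k)) i)) = (LG k n m s p r r').val ∘ wL p r r' e := by
      funext v
      simp only [map_pow, Polynomial.aeval_X]
      rcases v with v | v
      · change xe k n e.1 v.1 v.2 ^ (p ^ r) = XD k n m s v.1 (e.1 v.2) ^ (p ^ r)
        rw [xe_eq e.1 e.2]
      · rfl
    rw [← h2]
    exact h1
  · intro v
    rcases v with v | v
    · exact (Polynomial.transcendental_X k).pow (pow_pos hp.out.pos _)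
    · exact (Polynomial.transcendental_X k).pow (pow_pos hp.out.pos _)

lemma card_compl (e : T0 k n m s) :
    Fintype.card {v : Fin s × Fin m // v.2 ∉ Set.range e.1} = s * (m - s) := by
  classical
  let E : {v : Fin s × Fin m // v.2 ∉ Set.range e.1} ≃ Fin s × {j : Fin m // ¬ j ∈ Set.range e.1} :=
    { toFun := fun v => (v.1.1, ⟨v.1.2, v.2⟩)
      invFun := fun w => ⟨(w.1, w.2.1), w.2.2⟩
      left_inv := fun _ => rfl
      right_inv := fun _ => rfl }
  rw [Fintype.card_congr E, Fintype.card_prod, Fintype.card_fin, Fintype.card_subtype_compl,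
    Fintype.card_fin]
  congr 2
  have h1 := Set.card_range_of_injective (e_injD e.1 e.2)
  rw [Fintype.card_fin] at h1
  exact h1

lemma le_trdeg_LG (e : T0 k n m s) : ((s * (m - s) + s * n : ℕ) : Cardinal) ≤
    Algebra.trdeg k (LG k n m s p r r') := by
  have h1 := (ai_wL (p := p) (r := r) (r' := r') e).lift_cardinalMk_le_trdeg
  rw [Cardinal.lift_id'.{0, u}] at h1
  have h3 : Cardinal.lift.{u} (Cardinal.mk (Tg n e.1)) =
      ((s * (m - s) + s * n : ℕ) : Cardinal) := by
    rw [Cardinal.mk_fintype, Fintype.card_sum, card_compl, Fintype.card_prod, Fintype.card_fin,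
      Fintype.card_fin, Cardinal.lift_natCast, add_comm, mul_comm n s]
  rw [h3] at h1
  exact h1

lemma adjoin_LG (e : T0 k n m s) : IntermediateField.adjoin k
    ((RG p r r' e : Set (LG k n m s p r r')) ∪ {a | ∃ i l, a = zL p r r' i l}) = ⊤ := by
  have h0 : p ^ r' ≠ 0 := (pow_pos hp.out.pos r').ne'
  set M := IntermediateField.adjoin k
    ((RG p r r' e : Set (LG k n m s p r r')) ∪ {a | ∃ i l, a = zL p r r' i l}) with hM
  have hd : ∀ e', dL p r r' e e' ∈ M := fun e' =>
    IntermediateField.subset_adjoin _ _ (Or.inl (dL_mem h0 e e'))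
  have h1 : LG k n m s p r r' ≤ M.map (LG k n m s p r r').val := by
    conv_lhs => unfold LG
    rw [IntermediateField.adjoin_le_iff]
    rintro _ (⟨i, j, rfl⟩ | ⟨e', he', l, j, rfl⟩)
    · exact ⟨zL p r r' i j, IntermediateField.subset_adjoin _ _ (Or.inr ⟨i, j, rfl⟩), rfl⟩
    · refine ⟨uL p r r' ⟨e', he'⟩ l j, ?_, rfl⟩
      change uL p r r' ⟨e', he'⟩ l j ∈ M
      have h4 : (uL p r r' ⟨e', he'⟩ l j : LG k n m s p r r') =
          (dL p r r' e e')⁻¹ * dL p r r' e (Function.update e' l j) := by
        rw [uL_eq, eq_inv_mul_iff_mul_eq₀ (dL_ne e ⟨e', he'⟩), dL_mul e ⟨e', he'⟩]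
      rw [h4]
      exact mul_mem (inv_mem (hd _)) (hd _)
  rw [eq_top_iff]
  intro x _
  obtain ⟨y, hy, hxy⟩ := h1 x.2
  have : y = x := Subtype.ext hxy
  rw [← this]
  exact hy

lemma pow_mem_ZL (hs : s ≤ n) (e : T0 k n m s) (f : InvD k n m s (p ^ r) (p ^ r')) :
    jL hs e r r' f ^ (p ^ r) ∈ ZL k n m s p r r' := by
  obtain ⟨F, hF⟩ := (mem_InvD.1 f.2).1
  have key : ∀ F : MvPolynomial (Fin n × Fin m) k, ∃ y ∈ ZL k n m s p r r',
      ((y : LG k n m s p r r') : FD k n m s) =
        algebraMap (PP k n m s) (FD k n m s) (phi k n m s F) ^ (p ^ r) := by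
    intro F
    induction F using MvPolynomial.induction_on with
    | C a =>
      refine ⟨algebraMap k _ (a ^ (p ^ r)), Subalgebra.algebraMap_mem _ _, ?_⟩
      have h2 : phi k n m s (C a) = algebraMap k (PP k n m s) a := (phi k n m s).commutes a
      rw [h2, ← IsScalarTower.algebraMap_apply, ← map_pow]
      rfl
    | add f g hf hg =>
      obtain ⟨y, hy, h1⟩ := hf
      obtain ⟨y', hy', h1'⟩ := hg
      refine ⟨y + y', Subalgebra.add_mem _ hy hy', ?_⟩
      have := charP_FD (p := p) k n m s
      rw [IntermediateField.coe_add, h1, h1', map_add, map_add, add_pow_char_pow]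
    | mul_X f v hf =>
      obtain ⟨y, hy, h1⟩ := hf
      refine ⟨y * zL p r r' v.1 v.2, Subalgebra.mul_mem _ hy (zL_mem_ZL v.1 v.2), ?_⟩
      rw [IntermediateField.coe_mul, h1, map_mul, map_mul, mul_pow, coe_zL, XD_apply]
  obtain ⟨y, hy, h1⟩ := key F
  have h2 : jL hs e r r' f ^ (p ^ r) = y := by
    apply Subtype.ext
    rw [h1, IntermediateField.coe_pow, coe_jL]
    congr 2
    exact hF.symm
  rw [h2]
  exact hy

end gen

section twist

variable {F : Type v} [Field F] [Fintype F] {p r : ℕ} [hp : Fact p.Prime] [CharP F p]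

/-- The Frobenius of a finite field. -/
noncomputable def fF (F : Type v) [Field F] [Fintype F] (p r : ℕ) [Fact p.Prime] [CharP F p] :
    F ≃+* F :=
  RingEquiv.ofBijective (iterateFrobenius F p r)
    (Finite.injective_iff_bijective.1 (iterateFrobenius F p r).injective)

lemma fF_apply (x : F) : fF F p r x = x ^ (p ^ r) := rfl

lemma cond_map (E : F ≃+* F) {n : ℕ} {lv ss : Fin n → ℕ} {g : Matrix (Fin n) (Fin n) F}
    (hg : Cond lv ss g) : Cond lv ss (g.map E) := by
  refine ⟨fun i j hij => ?_, fun i hi => ?_⟩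
  · rw [Matrix.map_apply, hg.1 i j hij, map_zero]
  · rw [Matrix.map_apply, ← map_pow, hg.2 i hi, map_one]

lemma det_map (E : F ≃+* F) {n : ℕ} {g : Matrix (Fin n) (Fin n) F} (hg : g.det ≠ 0) :
    (g.map E).det ≠ 0 := by
  have h1 : (g.map E).det = E g.det := by
    rw [RingEquiv.map_det]
    rfl
  rw [h1]
  exact (map_ne_zero_iff E E.injective).2 hg

end twist

end Pool.Agent.R837.FN
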