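import Pool.Agent.R837.FN.Det5

/-!
The quotients of determinantal varieties by the products of Frobenius kernels with parabolic groups
over finite fields.
-/

set_option autoImplicit false
set_option linter.unusedSectionVars false

open Finset MvPolynomial AlgebraicGeometry CategoryTheory

universe u v w z

namespace Pool.Agent.R837.FN

open Pool.Agent.R837.FM Pool.Agent.Y212.Dk

section main

variable {F : Type v} [Field F] [Fintype F] {k : Type u} [Field k] [Algebra F k]
  {n m s p r r' : ℕ} [hp : Fact p.Prime] [CharP k p]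

/-- The invariants of the group scheme. -/
def AD (F : Type v) [Field F] (k : Type u) [Field k] [Algebra F k] [Fintype F]
    (n m s q q' : ℕ) (lv ss : Fin n → ℕ) : Subalgebra k (PP k n m s) where
  carrier := {f | f ∈ InvD k n m s q q' ∧
    ∀ g : Matrix.GeneralLinearGroup (Fin n) F, Cond lv ss (g : Matrix (Fin n) (Fin n) F) →
      sub (g : Matrix (Fin n) (Fin n) F) f = f}
  mul_mem' := fun {a b} ha hb => ⟨Subalgebra.mul_mem _ ha.1 hb.1, fun g hg => by
    rw [map_mul, ha.2 g hg, hb.2 g hg]⟩
  add_mem' := fun {a b} ha hb => ⟨Subalgebra.add_mem _ ha.1 hb.1, fun g hg => by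
    rw [map_add, ha.2 g hg, hb.2 g hg]⟩
  algebraMap_mem' := fun c => ⟨Subalgebra.algebraMap_mem _ c, fun g _ => AlgHom.commutes _ c⟩

/-- The inclusion in the function field. -/
noncomputable def gA (hs : s ≤ n) (e : T0 k n m s) (r r' : ℕ) (lv ss : Fin n → ℕ) :
    AD F k n m s (p ^ r) (p ^ r') lv ss →ₐ[k] LG k n m s p r r' :=
  (jL hs e r r').comp (Subalgebra.inclusion fun _ hx => hx.1)

lemma gA_injective (hs : s ≤ n) (e : T0 k n m s) (r r' : ℕ) (lv ss : Fin n → ℕ) :
    Function.Injective (gA (F := F) (p := p) hs e r r' lv ss) := by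
  intro a b hab
  apply Subtype.ext
  exact IsFractionRing.injective (PP k n m s) (FD k n m s) (congrArg Subtype.val hab)

/-- The rows. -/
noncomputable def xG (F : Type v) [Field F] [Fintype F] (k : Type u) [Field k] [Algebra F k]
    {n m s p r r' : ℕ} [Fact p.Prime] [CharP k p] (hr : r' ≤ r) (i : Fin n) :
    XG F k n m s p r r' := ⟨zL p r r' i, zL_mem_XG hr i⟩

lemma xG_li (hs0 : 0 < s) (e : T0 k n m s) : LinearIndependent F fun i : Fin n =>
    (zL p r r' i : Fin m → LG k n m s p r r') := by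
  have h1 := (ai_wL (p := p) (r := r) (r' := r') e).linearIndependent
  have h2 := h1.comp (fun i : Fin n => (Sum.inl (i, ⟨0, hs0⟩) : Tg n e.1)) fun i i' h => by
    have h3 := Sum.inl.inj h
    exact (Prod.mk.inj h3).1
  have h3 : LinearIndependent F fun i : Fin n =>
      (zL p r r' i (e.1 ⟨0, hs0⟩) : LG k n m s p r r') :=
    LinearIndependent.restrict_scalars (R := F) (K := k) (by
      intro a b hab
      have hab' : algebraMap F k a = algebraMap F k b := by
        rw [Algebra.algebraMap_eq_smul_one, Algebra.algebraMap_eq_smul_one]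
        exact hab
      exact (algebraMap F k).injective hab') h2
  rw [Fintype.linearIndependent_iff] at h3 ⊢
  intro b hb
  apply h3 b
  have h4 := congrFun hb (e.1 ⟨0, hs0⟩)
  rw [Finset.sum_apply] at h4
  exact h4

/-- The atlas. -/
theorem atlas_det (hs0 : 0 < s) (hs : s ≤ n) (hr : r' ≤ r) (lv ss : Fin n → ℕ)
    (hss : ∀ i, ss i ∣ Fintype.card F - 1) (e0 : T0 k n m s)
    (Pr : Subalgebra k (LG k n m s p r r') → LG k n m s p r r' →
      (XG F k n m s p r r' →ₗ[F] (Fin s → LG k n m s p r r')) → Prop)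
    (hP0 : ∀ t : T0 k n m s, Pr (RG p r r' t) (HG F k p r r' hs t.1)
      (rG (XG F k n m s p r r') t.1))
    (hP : ∀ (R : Subalgebra k (LG k n m s p r r')) (H : LG k n m s p r r')
      (ρ : XG F k n m s p r r' →ₗ[F] (Fin s → LG k n m s p r r')) (a : ℕ) (d : Fin s → ℕ)
      (h : Good F (fun i : {i // lv i = a} => ρ (xG F k hr i)) d) (M : ℕ), Pr R H ρ →
      Pr (h.alg R (ee F lv ss a)) (H ^ M * h.Δ ^ (ee F lv ss a)) (rnl ρ d h.c)) :
    ∃ (T : Type) (_ : Finite T) (C : T → Subalgebra k (LG k n m s p r r'))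
      (H : T → LG k n m s p r r')
      (ρ : T → XG F k n m s p r r' →ₗ[F] (Fin s → LG k n m s p r r')),
      (∀ t, H t ≠ 0) ∧ (∀ t, ∃ a, H t = gA (F := F) hs e0 r r' lv ss a) ∧
      (∀ t, Algebra.Smooth k (C t)) ∧
      (∀ t a, gA (F := F) hs e0 r r' lv ss a ∈ C t) ∧ (∀ t t', H t' / H t ∈ C t) ∧
      (∀ t t', C t' ≤ Loc (C t) (H t' / H t)) ∧
      (∀ t, ∀ x ∈ C t, ∃ (n : ℕ) (a : _), H t ^ n * x = gA (F := F) hs e0 r r' lv ss a) ∧
      (∀ V : ValuationSubring (LG k n m s p r r'), (∀ a, gA (F := F) hs e0 r r' lv ss a ∈ V) →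
        ∃ t, ∀ x ∈ C t, x ∈ V) ∧
      ∀ t, Pr (C t) (H t) (ρ t) := by
  classical
  have hchF : CharP F p := by
    have h1 := (algebraMap F k).charP_iff (algebraMap F k).injective p
    exact h1.2 inferInstance
  have h0 : p ^ r' ≠ 0 := (pow_pos hp.out.pos r').ne'
  have hA1 : ∀ b ∈ BL hs e0 r r', (∀ σ ∈ {σ : LG k n m s p r r' →+* LG k n m s p r r' |
      ∃ g : Matrix.GeneralLinearGroup (Fin n) F, Cond lv ss (g : Matrix (Fin n) (Fin n) F) ∧
        σ = sL g}, σ b = b) → ∃ a, b = gA (F := F) hs e0 r r' lv ss a := by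
    rintro _ ⟨f, rfl⟩ hσ
    refine ⟨⟨f.1, f.2, fun g hg => ?_⟩, rfl⟩
    have h1 := hσ _ ⟨g, hg, rfl⟩
    have h2 := congrArg Subtype.val h1
    have h3 : sK g (algebraMap _ (FD k n m s) (f : PP k n m s)) =
        algebraMap _ (FD k n m s) (f : PP k n m s) := h2
    rw [sK_algebraMap] at h3
    exact IsFractionRing.injective (PP k n m s) (FD k n m s) h3
  have hBint : ∀ V : ValuationSubring (LG k n m s p r r'),
      (∀ c : k, algebraMap k (LG k n m s p r r') c ∈ V) →
      (∀ i l, ((xG F k hr i : XG F k n m s p r r') : Fin m → LG k n m s p r r') l ∈ V) →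
        ∀ b ∈ BL hs e0 r r', b ∈ V := by
    rintro V hV1 hV2 _ ⟨f, rfl⟩
    have h1 : ZL k n m s p r r' ≤ valAlg V hV1 := by
      unfold ZL
      rw [Algebra.adjoin_le_iff]
      rintro _ ⟨i, j, rfl⟩
      exact hV2 i j
    have h2 : jL hs e0 r r' f ^ (p ^ r) ∈ V := h1 (pow_mem_ZL hs e0 f)
    change jL hs e0 r r' f ∈ V
    rw [← V.valuation_le_one_iff] at h2 ⊢
    rw [map_pow] at h2
    exact (pow_le_one_iff_of_nonneg zero_le (pow_pos hp.out.pos _).ne').1 h2
  -- the twisted matrices
  have hx1 : ∀ (g : Matrix.GeneralLinearGroup (Fin n) F) (i : Fin n),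
      (fun l => sL g (((xG F k hr i : XG F k n m s p r r') : Fin m → LG k n m s p r r') l)) =
        ∑ j, ((g : Matrix (Fin n) (Fin n) F).map (fF F p r)) i j •
          ((xG F k hr j : XG F k n m s p r r') : Fin m → LG k n m s p r r') := by
    intro g i
    funext l
    rw [Finset.sum_apply]
    exact sL_zL g i l
  refine atlas2 (F := F) (k := k) (L := LG k n m s p r r') (x := xG F k hr) (lv := lv)
    (e := ee F lv ss) (g := gA (F := F) hs e0 r r' lv ss) (B := BL hs e0 r r')
    (fun i l => zL_mem_BL hr hs e0 i l) hBint (J0 := Empty) (z := fun j => j.elim) ?_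
    (stage_det (F := F) hr hs e0) (s * (m - s)) ?_ (fun t σ hσ y hy => sigma_XG hr t σ hσ y hy)
    ?_ ?_ ?_ (le_trdeg_LG e0) (ee_spec hss)
    {σ | ∃ g : Matrix.GeneralLinearGroup (Fin n) F, Cond lv ss (g : Matrix (Fin n) (Fin n) F) ∧
        σ = sL g} ?_ hA1 ?_ ?_ Pr hP0 hP
  · rw [Set.range_eq_empty, Submodule.span_empty]
  · intro t
    exact ⟨_, inferInstance, _, card_compl t, rfl⟩
  · have h1 := xG_li (F := F) (p := p) (r := r) (r' := r') hs0 e0
    rw [Fintype.linearIndependent_iff] at h1 ⊢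
    intro b hb
    rw [Fintype.sum_sum_type, Finset.univ_eq_empty (α := Empty), Finset.sum_empty,
      add_zero] at hb
    rintro (i | j)
    · exact h1 (fun i => b (Sum.inl i)) hb i
    · exact j.elim
  · exact fun c => ⟨algebraMap F k c,
      (IsScalarTower.algebraMap_apply F k (LG k n m s p r r') c).symm⟩
  · intro t
    exact adjoin_LG t
  · rintro _ ⟨g, hg, rfl⟩
    refine ⟨fun t => ⟨?_, sL_HG hs t.1 g⟩, fun a => ?_⟩
    · refine fix_of_le (sL g : LG k n m s p r r' →+* LG k n m s p r r') (R := ⊥) ?_ ?_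
      · intro b hb
        obtain ⟨c, rfl⟩ := Algebra.mem_bot.1 hb
        exact sL_algebraMap g c
      · intro _ W hW _
        unfold RG
        rw [Algebra.adjoin_le_iff]
        rintro _ ⟨v, rfl⟩
        exact (hW _).2 (sL_uL g t _ _)
    · have h3 : Cond lv ss ((g : Matrix (Fin n) (Fin n) F).map (fF F p r)) := cond_map _ hg
      have h4 : ((g : Matrix (Fin n) (Fin n) F).map (fF F p r)).det ≠ 0 :=
        det_map _ g.det_ne_zero
      refine q_of_matrix (L := LG k n m s p r r') (x := xG F k hr) h3 h4 (σ := sL g)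
        (fun i => ?_) a
      rw [hx1 g i, sub_self]
      exact Submodule.zero_mem _
  · rintro σ ⟨t0, hσ0⟩ hσ b
    obtain ⟨h, hdet, hh, hhσ⟩ := matrix_of_q hss hσ
    refine ⟨⟨⟨b.1, b.2.1⟩, rfl⟩, ?_⟩
    let g : Matrix.GeneralLinearGroup (Fin n) F :=
      Matrix.GeneralLinearGroup.mkOfDetNeZero (h.map (fF F p r).symm) (det_map _ hdet)
    have hg1 : (g : Matrix (Fin n) (Fin n) F) = h.map (fF F p r).symm := rfl
    have hg : Cond lv ss (g : Matrix (Fin n) (Fin n) F) := by
      rw [hg1]
      exact cond_map _ hh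
    have hg2 : (g : Matrix (Fin n) (Fin n) F).map (fF F p r) = h := by
      rw [hg1]
      ext i j
      simp
    have hk : ∀ c : k, σ (algebraMap k _ c) = algebraMap k _ c :=
      fun c => hσ0 _ (Subalgebra.algebraMap_mem _ c)
    have hz : ∀ i l, σ (zL p r r' i l) = sL g (zL p r r' i l) := by
      intro i l
      have h1 := hhσ i
      rw [Submodule.mem_bot, sub_eq_zero] at h1
      have h2 := hx1 g i
      rw [hg2, ← h1] at h2
      exact (congrFun h2 l).symm
    have hall : ∀ x, σ x = sL g x := by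
      let σ' : LG k n m s p r r' →ₐ[k] LG k n m s p r r' := { σ with commutes' := hk }
      let τ' : LG k n m s p r r' →ₐ[k] LG k n m s p r r' :=
        { (sL g : LG k n m s p r r' →+* LG k n m s p r r') with commutes' := sL_algebraMap g }
      let EQ : IntermediateField k (LG k n m s p r r') :=
        { AlgHom.equalizer σ' τ' with
          inv_mem' := by
            intro x hx
            have hx' : σ' x = τ' x := hx
            change σ' x⁻¹ = τ' x⁻¹
            rw [map_inv₀, map_inv₀, hx'] }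
      have h1 : (⊤ : IntermediateField k (LG k n m s p r r')) ≤ EQ := by
        rw [← adjoin_LG t0, IntermediateField.adjoin_le_iff]
        rintro x (hx | ⟨i, l, rfl⟩)
        · change σ x = sL g x
          rw [hσ0 x hx]
          symm
          refine fix_of_le (sL g : LG k n m s p r r' →+* LG k n m s p r r') (R := ⊥) ?_ ?_ x hx
          · intro b hb
            obtain ⟨c, rfl⟩ := Algebra.mem_bot.1 hb
            exact sL_algebraMap g c
          · intro _ W hW _
            unfold RG
            rw [Algebra.adjoin_le_iff]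
            rintro _ ⟨v, rfl⟩
            exact (hW _).2 (sL_uL g t0 _ _)
        · exact hz i l
      exact fun x => h1 (x := x) trivial
    rw [hall]
    apply Subtype.ext
    change sK g (algebraMap _ (FD k n m s) (b : PP k n m s)) =
        algebraMap _ (FD k n m s) (b : PP k n m s)
    rw [sK_algebraMap, b.2.2 g hg]
  · intro V hV
    have hk : ∀ c : k, algebraMap k (LG k n m s p r r') c ∈ V := by
      intro c
      rw [← (gA (F := F) hs e0 r r' lv ss).commutes c]
      exact hV _
    refine hBint V hk fun i l => ?_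
    -- the polynomial with the conjugates as zeros
    let _ := ftGL F n
    let G : Finset (Matrix.GeneralLinearGroup (Fin n) F) :=
      Finset.univ.filter fun g => g ∈ par F lv ss
    let P : Polynomial (LG k n m s p r r') :=
      ∏ g ∈ G, (Polynomial.X - Polynomial.C (sL g (zL p r r' i l)))
    have hPmon : P.Monic := Polynomial.monic_prod_of_monic _ _ fun g _ =>
      Polynomial.monic_X_sub_C _
    have hPZ : ∀ j, P.coeff j ∈ ZL k n m s p r r' := by
      intro j
      let PZ : Polynomial (ZL k n m s p r r') :=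
        ∏ g ∈ G, (Polynomial.X - Polynomial.C ⟨sL g (zL p r r' i l), sL_ZL g _ (zL_mem_ZL i l)⟩)
      have h1 : P = PZ.map (algebraMap (ZL k n m s p r r') (LG k n m s p r r')) := by
        rw [Polynomial.map_prod]
        refine Finset.prod_congr rfl fun g _ => ?_
        rw [Polynomial.map_sub, Polynomial.map_X, Polynomial.map_C]
        rfl
      rw [h1, Polynomial.coeff_map]
      exact (PZ.coeff j).2
    have hPfix : ∀ h : Matrix.GeneralLinearGroup (Fin n) F,
        Cond lv ss (h : Matrix (Fin n) (Fin n) F) → P.map (sL h) = P := by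
      intro h hh
      have hh' : h ∈ par F lv ss := hh
      rw [Polynomial.map_prod]
      refine Finset.prod_nbij' (fun g => g * h) (fun g => g * h⁻¹) ?_ ?_ ?_ ?_ ?_
      · intro g hg
        exact Finset.mem_filter.2 ⟨Finset.mem_univ _,
          (par F lv ss).mul_mem (Finset.mem_filter.1 hg).2 hh'⟩
      · intro g hg
        exact Finset.mem_filter.2 ⟨Finset.mem_univ _,
          (par F lv ss).mul_mem (Finset.mem_filter.1 hg).2 ((par F lv ss).inv_mem hh')⟩
      · intro g _
        exact mul_inv_cancel_right g h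
      · intro g _
        exact inv_mul_cancel_right g h
      · intro g _
        rw [Polynomial.map_sub, Polynomial.map_X, Polynomial.map_C, sL_comp]
    have hPV : P ∈ Polynomial.lifts (algebraMap V (LG k n m s p r r')) := by
      rw [Polynomial.lifts_iff_coeff_lifts]
      intro j
      obtain ⟨a, ha⟩ := hA1 (P.coeff j) (ZL_le hr hs e0 (hPZ j)) (by
        rintro _ ⟨h, hh, rfl⟩
        rw [← Polynomial.coeff_map, hPfix h hh])
      rw [ha]
      exact ⟨⟨_, hV a⟩, rfl⟩
    obtain ⟨q, hq1, -, hq2⟩ := Polynomial.lifts_and_natDegree_eq_and_monic hPV hPmon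
    have hroot : P.eval (zL p r r' i l : LG k n m s p r r') = 0 := by
      rw [Polynomial.eval_prod]
      refine Finset.prod_eq_zero (i := 1) (Finset.mem_filter.2 ⟨Finset.mem_univ _,
        (par F lv ss).one_mem⟩) ?_
      rw [sL_one, Polynomial.eval_sub, Polynomial.eval_X, Polynomial.eval_C, sub_self]
    have h2 : IsIntegral V (zL p r r' i l : LG k n m s p r r') := by
      refine ⟨q, hq2, ?_⟩
      rw [← Polynomial.eval_map, hq1]
      exact hroot
    obtain ⟨y, hy⟩ := IsIntegrallyClosed.isIntegral_iff.1 h2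
    change (zL p r r' i l : LG k n m s p r r') ∈ V
    rw [← hy]
    exact y.2

/-- The resolution. -/
theorem main_det (hs0 : 0 < s) (hs : s ≤ n) (hsm : s ≤ m) (hr : r' ≤ r) (lv ss : Fin n → ℕ)
    (hss : ∀ i, ss i ∣ Fintype.card F - 1) :
    Pool.Agent.H920R2.HasResolution
      (X := Spec (CommRingCat.of (AD F k n m s (p ^ r) (p ^ r') lv ss)))
      (Spec.map (CommRingCat.ofHom (algebraMap k (AD F k n m s (p ^ r) (p ^ r') lv ss)))) := by
  obtain ⟨e0, he0⟩ := exists_mC_ne (k := k) (n := n) hsm
  obtain ⟨T, hT, C, H, ρ, h1, h2, h3, h4, h5, h6, h7, h8, -⟩ :=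
    atlas_det (F := F) (p := p) (r := r) (r' := r') hs0 hs hr lv ss hss ⟨e0, he0⟩
      (fun _ _ _ => True) (fun _ => trivial) (fun _ _ _ _ _ _ _ _ => trivial)
  exact hasResolution_glue (gA_injective (F := F) (k := k) (m := m) (p := p) hs
    (⟨e0, he0⟩ : T0 k n m s) r r' lv ss) h1 h2 h3 h4 h5 h6 h7 h8

end main

end Pool.Agent.R837.FN
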