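import Pool.Agent.R837.FN.Det6

/-!
Finiteness properties of the rings of invariants.
-/

set_option autoImplicit false
set_option linter.unusedSectionVars false

open Finset MvPolynomial AlgebraicGeometry CategoryTheory

universe u v w z

namespace Pool.Agent.R837.FN

open Pool.Agent.R837.FM Pool.Agent.Y212.Dk

section fin

variable {F : Type v} [Field F] [Fintype F] {k : Type u} [Field k] [Algebra F k]
  {n m s p r r' : ℕ} [hp : Fact p.Prime] [CharP k p]

lemma fI_one {a : ℕ} (i j : Fin a) : (X (i, j) : MvPolynomial (Fin a × Fin a) (PP k n m s)) -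
    (if i = j then 1 else 0) ∈ fI k n m s a 1 := by
  have h : (X (i, j) : MvPolynomial (Fin a × Fin a) (PP k n m s)) ^ 1 -
    (if i = j then 1 else 0) ∈ fI k n m s a 1 := Ideal.subset_span ⟨(i, j), rfl⟩
  rwa [pow_one] at h

lemma sum_mem_one {a : ℕ} (i : Fin a) (x : Fin a → PP k n m s) :
    (∑ l, X (i, l) * C (x l) : MvPolynomial (Fin a × Fin a) (PP k n m s)) - C (x i) ∈
      fI k n m s a 1 := by
  have h2 : (C (x i) : MvPolynomial (Fin a × Fin a) (PP k n m s)) =
      ∑ l, (if i = l then 1 else 0) * C (x l) := by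
    simp
  rw [h2, ← Finset.sum_sub_distrib]
  refine Ideal.sum_mem _ fun l _ => ?_
  rw [← sub_mul]
  exact Ideal.mul_mem_right _ _ (fI_one i l)

lemma sum_mem_one' {a : ℕ} (i : Fin a) (x : Fin a → PP k n m s) :
    (∑ l, X (l, i) * C (x l) : MvPolynomial (Fin a × Fin a) (PP k n m s)) - C (x i) ∈
      fI k n m s a 1 := by
  have h2 : (C (x i) : MvPolynomial (Fin a × Fin a) (PP k n m s)) =
      ∑ l, (if l = i then 1 else 0) * C (x l) := by
    simp
  rw [h2, ← Finset.sum_sub_distrib]
  refine Ideal.sum_mem _ fun l _ => ?_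
  rw [← sub_mul]
  exact Ideal.mul_mem_right _ _ (fI_one l i)

lemma sub_mem_of_gen {a : ℕ} (co : PP k n m s →ₐ[k] MvPolynomial (Fin a × Fin a) (PP k n m s))
    (I : Ideal (MvPolynomial (Fin a × Fin a) (PP k n m s)))
    (h : ∀ v, co (X v) - C (X v) ∈ I) (f : PP k n m s) : co f - C f ∈ I := by
  induction f using MvPolynomial.induction_on with
  | C c =>
    have h1 : co (C c) = C (C c) := co.commutes c
    rw [h1, sub_self]
    exact I.zero_mem
  | add f g hf hg =>
    have h1 : co (f + g) - C (f + g) = (co f - C f) + (co g - C g) := by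
      rw [map_add, map_add]; ring
    rw [h1]
    exact I.add_mem hf hg
  | mul_X f v hf =>
    have h1 : co (f * X v) - C (f * X v) = co (X v) * (co f - C f) + C f * (co (X v) - C (X v)) := by
      rw [map_mul, map_mul]; ring
    rw [h1]
    exact I.add_mem (I.mul_mem_left _ hf) (I.mul_mem_left _ (h v))

/-- Without Frobenius kernels all functions are invariant. -/
lemma mem_InvD_one {f : PP k n m s} (hf : f ∈ (phi k n m s).range) : f ∈ InvD k n m s 1 1 := by
  refine mem_InvD.2 ⟨hf, sub_mem_of_gen _ _ ?_ f, sub_mem_of_gen _ _ ?_ f⟩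
  · rintro (⟨i, l⟩ | v)
    · have h1 : coL k n m s (X (Sum.inl (i, l))) =
          ∑ j, X (i, j) * C (X (Sum.inl (j, l))) := by
        unfold coL
        rw [aeval_X]
        rfl
      rw [h1]
      exact sum_mem_one i fun j => X (Sum.inl (j, l))
    · have h1 : coL k n m s (X (Sum.inr v)) = C (X (Sum.inr v)) := by
        unfold coL
        rw [aeval_X]
        rfl
      rw [h1, sub_self]
      exact Ideal.zero_mem _
  · rintro (v | ⟨l, j⟩)
    · have h1 : coR k n m s (X (Sum.inl v)) = C (X (Sum.inl v)) := by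
        unfold coR
        rw [aeval_X]
        rfl
      rw [h1, sub_self]
      exact Ideal.zero_mem _
    · have h1 : coR k n m s (X (Sum.inr (l, j))) =
          ∑ j', X (j', j) * C (X (Sum.inr (l, j'))) := by
        unfold coR
        rw [aeval_X]
        rfl
      rw [h1]
      exact sum_mem_one' j fun j' => X (Sum.inr (l, j'))

/-- The coordinates are integral over the invariants. -/
lemma isIntegral_phi (hr : r' ≤ r) (lv ss : Fin n → ℕ) (i : Fin n) (j : Fin m) :
    IsIntegral (AD F k n m s (p ^ r) (p ^ r') lv ss) (phi k n m s (X (i, j))) := by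
  classical
  let _ := ftGL F n
  let Z : Subalgebra k (PP k n m s) :=
    Algebra.adjoin k {a | ∃ i j, a = phi k n m s (X (i, j)) ^ (p ^ r)}
  have hz : ∀ i j, phi k n m s (X (i, j)) ^ (p ^ r) ∈ Z := fun i j =>
    Algebra.subset_adjoin ⟨i, j, rfl⟩
  have hZ : Z ≤ InvD k n m s (p ^ r) (p ^ r') := by
    rw [Algebra.adjoin_le_iff]
    rintro _ ⟨i, j, rfl⟩
    exact pow_memD hr (i, j)
  have hch : CharP (PP k n m s) p := inferInstance
  have hsZ : ∀ (g : Matrix (Fin n) (Fin n) F), ∀ f ∈ Z, sub g f ∈ Z := by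
    intro g
    have h1 : Z ≤ Z.comap (sub g) := by
      change Algebra.adjoin k _ ≤ _
      rw [Algebra.adjoin_le_iff]
      rintro _ ⟨i, j, rfl⟩
      change sub g (phi k n m s (X (i, j)) ^ (p ^ r)) ∈ Z
      rw [map_pow, sub_phi, sum_pow_char_pow]
      refine Subalgebra.sum_mem _ fun i' _ => ?_
      rw [mul_pow]
      exact Subalgebra.mul_mem _ (Subalgebra.pow_mem _ (Subalgebra.algebraMap_mem _ _) _) (hz i' j)
    exact fun f hf => h1 hf
  let G : Finset (Matrix.GeneralLinearGroup (Fin n) F) :=
    Finset.univ.filter fun g => g ∈ par F lv ss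
  let x : PP k n m s := phi k n m s (X (i, j)) ^ (p ^ r)
  let P : Polynomial (PP k n m s) :=
    ∏ g ∈ G, (Polynomial.X - Polynomial.C (sub (g : Matrix (Fin n) (Fin n) F) x))
  have hPmon : P.Monic := Polynomial.monic_prod_of_monic _ _ fun g _ =>
    Polynomial.monic_X_sub_C _
  have hPZ : ∀ j, P.coeff j ∈ Z := by
    intro j'
    let PZ : Polynomial Z :=
      ∏ g ∈ G, (Polynomial.X - Polynomial.C ⟨sub (g : Matrix (Fin n) (Fin n) F) x,
        hsZ _ _ (hz i j)⟩)
    have h1 : P = PZ.map (algebraMap Z (PP k n m s)) := by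
      rw [Polynomial.map_prod]
      refine Finset.prod_congr rfl fun g _ => ?_
      rw [Polynomial.map_sub, Polynomial.map_X, Polynomial.map_C]
      rfl
    rw [h1, Polynomial.coeff_map]
    exact (PZ.coeff j').2
  have hPfix : ∀ h : Matrix.GeneralLinearGroup (Fin n) F,
      Cond lv ss (h : Matrix (Fin n) (Fin n) F) →
      P.map (sub (k := k) (m := m) (s := s) (h : Matrix (Fin n) (Fin n) F)).toRingHom = P := by
    intro h hh
    have hh' : h ∈ par F lv ss := hh
    rw [Polynomial.map_prod]
    refine Finset.prod_nbij' (fun g => g * h) (fun g => g * h⁻¹) ?_ ?_ ?_ ?_ ?_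
    · intro g hg
      exact Finset.mem_filter.2 ⟨Finset.mem_univ _,
        (par F lv ss).mul_mem (Finset.mem_filter.1 hg).2 hh'⟩
    · intro g hg
      exact Finset.mem_filter.2 ⟨Finset.mem_univ _,
        (par F lv ss).mul_mem (Finset.mem_filter.1 hg).2 ((par F lv ss).inv_mem hh')⟩
    · intro g _
      exact mul_inv_cancel_right g h
    · intro g _
      exact inv_mul_cancel_right g h
    · intro g _
      rw [Polynomial.map_sub, Polynomial.map_X, Polynomial.map_C, Units.val_mul, ← sub_comp]
      rfl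
  have hPA : ∀ j, P.coeff j ∈ AD F k n m s (p ^ r) (p ^ r') lv ss := by
    intro j'
    refine ⟨hZ (hPZ j'), fun g hg => ?_⟩
    have h1 := congrArg (fun q => Polynomial.coeff q j') (hPfix g hg)
    rw [Polynomial.coeff_map] at h1
    exact h1
  have hPl : P ∈ Polynomial.lifts
      (algebraMap (AD F k n m s (p ^ r) (p ^ r') lv ss) (PP k n m s)) := by
    rw [Polynomial.lifts_iff_coeff_lifts]
    exact fun j' => ⟨⟨_, hPA j'⟩, rfl⟩
  obtain ⟨q, hq1, -, hq2⟩ := Polynomial.lifts_and_natDegree_eq_and_monic hPl hPmon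
  have h2 : IsIntegral (AD F k n m s (p ^ r) (p ^ r') lv ss) x := by
    refine ⟨q, hq2, ?_⟩
    rw [← Polynomial.eval_map, hq1, Polynomial.eval_prod]
    refine Finset.prod_eq_zero (i := 1) (Finset.mem_filter.2 ⟨Finset.mem_univ _,
      (par F lv ss).one_mem⟩) ?_
    rw [Polynomial.eval_sub, Polynomial.eval_X, Polynomial.eval_C, Units.val_one, sub_one]
    exact sub_self _
  exact IsIntegral.of_pow (pow_pos hp.out.pos r) h2

/-- The algebra of invariants is of finite type. -/
theorem finiteType_AD (hr : r' ≤ r) (lv ss : Fin n → ℕ) :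
    Algebra.FiniteType k (AD F k n m s (p ^ r) (p ^ r') lv ss) := by
  set A := AD F k n m s (p ^ r) (p ^ r') lv ss with hAdef
  set φ := phi k n m s with hφ
  have hA : A ≤ φ.range := fun x hx => (mem_InvD.1 hx.1).1
  let A' : Subalgebra k φ.range := A.comap φ.range.val
  let e : A' ≃ₐ[k] A := by
    refine AlgEquiv.ofBijective
      ((φ.range.val.comp A'.val).codRestrict A fun x => x.2) ⟨?_, ?_⟩
    · intro x y hxy
      apply Subtype.ext
      apply Subtype.ext
      exact congrArg (fun z : A => (z : PP k n m s)) hxy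
    · intro x
      exact ⟨⟨⟨x.1, hA x.2⟩, x.2⟩, rfl⟩
  have hX : ∀ i, IsIntegral A' (φ.rangeRestrict (X i)) := by
    rintro ⟨i, j⟩
    obtain ⟨q, hq, hq0⟩ := isIntegral_phi (F := F) (k := k) (s := s) (p := p) hr lv ss i j
    refine ⟨q.map e.symm.toRingEquiv.toRingHom, hq.map _, ?_⟩
    rw [Polynomial.eval₂_map]
    apply Subtype.ext
    have h1 := Polynomial.hom_eval₂ q ((algebraMap A' φ.range).comp
      e.symm.toRingEquiv.toRingHom) (φ.range.val : φ.range →+* PP k n m s)
      (φ.rangeRestrict (X (i, j)))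
    refine h1.trans ?_
    have h2 : ((φ.range.val : φ.range →+* PP k n m s).comp ((algebraMap A' φ.range).comp
      e.symm.toRingEquiv.toRingHom)) = algebraMap A (PP k n m s) := by
      apply RingHom.ext
      intro a
      obtain ⟨a', rfl⟩ := e.surjective a
      change ((e.symm (e a') : A') : PP k n m s) = ((e a' : A) : PP k n m s)
      rw [AlgEquiv.symm_apply_apply]
      rfl
    rw [h2]
    exact hq0
  have hft : Algebra.FiniteType k φ.range :=
    Algebra.FiniteType.of_surjective φ.rangeRestrict φ.rangeRestrict_surjective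
  have h1 : Algebra.IsIntegral A' φ.range := by
    constructor
    intro b
    obtain ⟨f, rfl⟩ := φ.rangeRestrict_surjective b
    induction f using MvPolynomial.induction_on with
    | C a =>
      have h2 : φ.rangeRestrict (C a) = algebraMap A' φ.range (algebraMap k A' a) :=
        φ.rangeRestrict.commutes a
      rw [h2]
      exact isIntegral_algebraMap
    | add p q hp hq =>
      rw [map_add]
      exact hp.add hq
    | mul_X p i hp =>
      rw [map_mul]
      exact hp.mul (hX i)
  have h2 : Algebra.FiniteType A' φ.range := by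
    apply Algebra.FiniteType.of_restrictScalars_finiteType k
  have h3 := @Algebra.IsIntegral.finite A' φ.range _ _ _ h1 h2
  have h4 : Algebra.FiniteType k A' := by
    refine ⟨?_⟩
    refine fg_of_fg_of_fg k A' φ.range hft.1 h3.1 ?_
    exact Subtype.val_injective
  exact h4.equiv e

end fin

end Pool.Agent.R837.FN
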