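import Pool.Agent.R837.FN.Graded
import Pool.Agent.R837.FM.Aff

/-!
Gradings of polynomial rings over graded rings, and the actions of matrices.
-/

set_option autoImplicit false
set_option linter.unusedSectionVars false

open Finset AlgebraicGeometry CategoryTheory MvPolynomial

universe u v w z

namespace Pool.Agent.R837.FN

open Pool.Agent.R837.FM Pool.Agent.Y177.Dg

section grading

variable {k : Type u} [Field k] {S : Type u} [CommRing S] [Algebra k S] {Λ : Type}
  [AddCommGroup Λ] {ι : Type}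

/-- The weight of an exponent. -/
noncomputable def wt (w : ι → Λ) : (ι →₀ ℕ) →+ Λ := Finsupp.weight w

lemma wt_apply [Fintype ι] (w : ι → Λ) (d : ι →₀ ℕ) : wt w d = ∑ u, d u • w u := by
  unfold wt
  rw [Finsupp.weight_apply]
  exact Finsupp.sum_fintype _ _ fun i => zero_smul _ _

lemma wt_single [Fintype ι] [DecidableEq ι] (w : ι → Λ) (u : ι) :
    wt w (Finsupp.single u 1) = w u := by
  unfold wt
  rw [Finsupp.weight_single, one_smul]

/-- The projections of the polynomial ring. -/
noncomputable def pf (P : Λ → S →ₗ[k] S) (w : ι → Λ) (i : Λ) (f : MvPolynomial ι S) :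
    MvPolynomial ι S := ∑ d ∈ f.support, monomial d (P (i - wt w d) (f.coeff d))

lemma coeff_pf (P : Λ → S →ₗ[k] S) (w : ι → Λ) (i : Λ) (f : MvPolynomial ι S) (e : ι →₀ ℕ) :
    (pf P w i f).coeff e = P (i - wt w e) (f.coeff e) := by
  classical
  unfold pf
  rw [coeff_sum]
  simp only [coeff_monomial]
  rw [Finset.sum_ite_eq']
  split_ifs with h
  · rfl
  · rw [MvPolynomial.notMem_support_iff.1 h, map_zero]

/-- The projections of the polynomial ring. -/
noncomputable def pS (P : Λ → S →ₗ[k] S) (w : ι → Λ) (i : Λ) :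
    MvPolynomial ι S →ₗ[k] MvPolynomial ι S where
  toFun := pf P w i
  map_add' f g := by
    ext e
    rw [coeff_pf, coeff_add, coeff_add, coeff_pf, coeff_pf, map_add]
  map_smul' c f := by
    ext e
    rw [coeff_pf, coeff_smul, RingHom.id_apply, coeff_smul, coeff_pf, map_smul]

lemma coeff_pS (P : Λ → S →ₗ[k] S) (w : ι → Λ) (i : Λ) (f : MvPolynomial ι S) (e : ι →₀ ℕ) :
    (pS P w i f).coeff e = P (i - wt w e) (f.coeff e) := coeff_pf P w i f e

lemma pS_eq_iff (P : Λ → S →ₗ[k] S) (w : ι → Λ) (i : Λ) (f : MvPolynomial ι S) :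
    pS P w i f = f ↔ ∀ e, P (i - wt w e) (f.coeff e) = f.coeff e := by
  rw [MvPolynomial.ext_iff]
  simp only [coeff_pS]

variable [Fintype Λ] [DecidableEq Λ]

theorem pg_pS {P : Λ → S →ₗ[k] S} (hP : PG P) (w : ι → Λ) : PG (pS P w) where
  sum f := by
    ext e
    rw [coeff_sum]
    simp only [coeff_pS]
    rw [Fintype.sum_equiv (Equiv.subRight (wt w e)) (fun i => P (i - wt w e) (f.coeff e))
      (fun i => P i (f.coeff e)) fun i => rfl, hP.sum]
  orth i j f := by
    ext e
    rw [coeff_pS, coeff_pS, hP.orth]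
    by_cases h : i = j
    · subst h
      rw [if_pos rfl, if_pos rfl, coeff_pS]
    · rw [if_neg (fun h' => h (sub_left_injective h')), if_neg h, coeff_zero]
  mul i j f g hf hg := by
    classical
    rw [pS_eq_iff] at hf hg ⊢
    intro e
    rw [coeff_mul, map_sum]
    refine Finset.sum_congr rfl fun x hx => ?_
    have h1 := hP.mul _ _ _ _ (hf x.1) (hg x.2)
    have h2 : i - wt w x.1 + (j - wt w x.2) = i + j - wt w e := by
      rw [← Finset.HasAntidiagonal.mem_antidiagonal.1 hx, map_add]
      abel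
    rwa [h2] at h1

lemma pS_C {P : Λ → S →ₗ[k] S} (w : ι → Λ) (i : Λ) (c : S) :
    pS P w i (C c) = C (P i c) := by
  classical
  ext e
  rw [coeff_pS, coeff_C, coeff_C]
  split_ifs with h
  · rw [← h, map_zero, sub_zero]
  · rw [map_zero]

lemma pS_X [Fintype ι] [DecidableEq ι] {P : Λ → S →ₗ[k] S} (hP : PG P) (w : ι → Λ) (u : ι) :
    pS P w (w u) (X u) = X u := by
  rw [pS_eq_iff]
  intro e
  rw [coeff_X]
  split_ifs with h
  · rw [← h, wt_single, sub_self, hP.one]
  · rw [map_zero]

end grading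

section act

variable {F : Type v} [Field F] [Fintype F] {S : Type u} [CommRing S] [Algebra F S] {n m : ℕ}

/-- The substitution `x ↦ g x`. -/
noncomputable def lin (S : Type u) [CommRing S] [Algebra F S] (m : ℕ)
    (g : Matrix (Fin n) (Fin n) F) :
    MvPolynomial (Fin n × Fin m) S →ₐ[S] MvPolynomial (Fin n × Fin m) S :=
  aeval fun p => ∑ j, C (algebraMap F S (g p.1 j)) * X (j, p.2)

lemma lin_X (g : Matrix (Fin n) (Fin n) F) (i : Fin n) (l : Fin m) :
    lin S m g (X (i, l)) = ∑ j, C (algebraMap F S (g i j)) * X (j, l) := by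
  unfold lin
  rw [aeval_X]

lemma lin_C (g : Matrix (Fin n) (Fin n) F) (c : S) :
    lin S m g (C c) = C c := AlgHom.commutes _ c

lemma lin_comp (g h : Matrix (Fin n) (Fin n) F) :
    (lin S m g).comp (lin S m h) = lin S m (h * g) := by
  apply algHom_ext
  rintro ⟨i, l⟩
  rw [AlgHom.comp_apply, lin_X, lin_X, map_sum]
  have h1 : ∀ j, lin S m g (C (algebraMap F S (h i j)) * X (j, l)) =
      ∑ j', C (algebraMap F S (h i j * g j j')) * X (j', l) := by
    intro j
    rw [map_mul, lin_C, lin_X, Finset.mul_sum]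
    refine Finset.sum_congr rfl fun j' _ => ?_
    rw [map_mul, C_mul]
    ring
  rw [Finset.sum_congr rfl fun j _ => h1 j, Finset.sum_comm]
  refine Finset.sum_congr rfl fun j' _ => ?_
  rw [← Finset.sum_mul, Matrix.mul_apply, map_sum, map_sum]

lemma lin_one : lin S m (1 : Matrix (Fin n) (Fin n) F) = AlgHom.id S _ := by
  apply algHom_ext
  rintro ⟨i, l⟩
  rw [lin_X, Finset.sum_eq_single i]
  · simp
  · intro j _ hj
    rw [Matrix.one_apply_ne (Ne.symm hj)]
    simp
  · intro h
    exact absurd (Finset.mem_univ i) h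

/-- The automorphism `x ↦ g⁻¹ x`. -/
noncomputable def gact (S : Type u) [CommRing S] [Algebra F S] (m : ℕ) :
    Matrix.GeneralLinearGroup (Fin n) F →*
      (MvPolynomial (Fin n × Fin m) S ≃ₐ[S] MvPolynomial (Fin n × Fin m) S) where
  toFun g := AlgEquiv.ofAlgHom
    (lin S m ((g⁻¹ : Matrix.GeneralLinearGroup (Fin n) F) : Matrix (Fin n) (Fin n) F))
    (lin S m (g : Matrix (Fin n) (Fin n) F))
    (by rw [lin_comp, ← Units.val_mul, mul_inv_cancel, Units.val_one, lin_one])
    (by rw [lin_comp, ← Units.val_mul, inv_mul_cancel, Units.val_one, lin_one])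
  map_one' := by
    apply AlgEquiv.coe_toAlgHom_injective
    change lin S m ((1⁻¹ : Matrix.GeneralLinearGroup (Fin n) F) : Matrix (Fin n) (Fin n) F) = _
    rw [inv_one, Units.val_one, lin_one]
    rfl
  map_mul' g h := by
    apply AlgEquiv.coe_toAlgHom_injective
    change lin S m (((g * h)⁻¹ : Matrix.GeneralLinearGroup (Fin n) F) :
      Matrix (Fin n) (Fin n) F) = (lin S m ((g⁻¹ : Matrix.GeneralLinearGroup (Fin n) F) :
        Matrix (Fin n) (Fin n) F)).comp (lin S m ((h⁻¹ :
          Matrix.GeneralLinearGroup (Fin n) F) : Matrix (Fin n) (Fin n) F))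
    rw [lin_comp, mul_inv_rev, Units.val_mul]

lemma gact_apply (g : Matrix.GeneralLinearGroup (Fin n) F) (f : MvPolynomial (Fin n × Fin m) S) :
    gact S m g f = lin S m ((g⁻¹ : Matrix.GeneralLinearGroup (Fin n) F) :
      Matrix (Fin n) (Fin n) F) f := rfl

end act

end Pool.Agent.R837.FN
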