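import Pool.Agent.R837.FN.Levels2
import Pool.Agent.Y177.Dg.PG

/-!
Homogeneity of the charts.
-/

set_option autoImplicit false
set_option linter.unusedSectionVars false

open Finset

universe u v w z

namespace Pool.Agent.R837.FN

open Pool.Agent.R837.FM Pool.Agent.Y177.Dg

section hom

variable {k : Type z} [Field k] {L : Type u} [Field L] [Algebra k L] {Λ : Type}
  [AddCommGroup Λ] [Fintype Λ] [DecidableEq Λ] {q : Λ → L →ₗ[k] L} (hq : PG q)

include hq

lemma hm_prod {ι : Type*} (t : Finset ι) (f : ι → L) (α : ι → Λ)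
    (h : ∀ i ∈ t, q (α i) (f i) = f i) : q (∑ i ∈ t, α i) (∏ i ∈ t, f i) = ∏ i ∈ t, f i := by
  classical
  induction t using Finset.induction_on with
  | empty => rw [Finset.sum_empty, Finset.prod_empty, hq.one]
  | insert i t hi ih =>
    rw [Finset.sum_insert hi, Finset.prod_insert hi]
    exact hq.mul _ _ _ _ (h i (Finset.mem_insert_self _ _))
      (ih fun j hj => h j (Finset.mem_insert_of_mem hj))

lemma hm_det {ι : Type} [Fintype ι] [DecidableEq ι] (M : Matrix ι ι L) (α β : ι → Λ)
    (h : ∀ i j, q (α i + β j) (M i j) = M i j) : q (∑ i, α i + ∑ j, β j) M.det = M.det := by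
  rw [Matrix.det_apply, map_sum]
  refine Finset.sum_congr rfl fun σ _ => ?_
  rw [Units.smul_def, map_zsmul]
  congr 1
  have h1 := hm_prod hq Finset.univ (fun i => M (σ i) i) (fun i => α (σ i) + β i)
    fun i _ => h _ _
  rw [Finset.sum_add_distrib, Equiv.sum_comp σ α] at h1
  exact h1

/-- Subalgebras generated by homogeneous elements are stable. -/
lemma stable_adjoin {R : Subalgebra k L} (hR : ∀ i, ∀ x ∈ R, q i x ∈ R) {S : Set L}
    (hS : ∀ x ∈ S, ∃ i, q i x = x) : ∀ i, ∀ x ∈ R ⊔ Algebra.adjoin k S,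
      q i x ∈ R ⊔ Algebra.adjoin k S := by
  set Q := R ⊔ Algebra.adjoin k S with hQ
  let W : Subalgebra k L :=
    { carrier := {x | ∀ i, q i x ∈ Q}
      mul_mem' := by
        intro a b ha hb i
        have h1 : q i (a * b) = ∑ j, q j a * q (-j + i) b := by
          have h2 : a * b = ∑ j, q j a * b := by rw [← Finset.sum_mul, hq.sum]
          rw [h2, map_sum]
          refine Finset.sum_congr rfl fun j _ => ?_
          have h3 := hq.mul_left (hq.idem j a) (-j + i) b
          rwa [add_neg_cancel_left] at h3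
        change q i (a * b) ∈ Q
        rw [h1]
        exact Q.sum_mem fun j _ => Q.mul_mem (ha j) (hb _)
      add_mem' := by
        intro a b ha hb i
        rw [map_add]
        exact Q.add_mem (ha i) (hb i)
      algebraMap_mem' := by
        intro c i
        rw [Algebra.algebraMap_eq_smul_one, map_smul]
        refine Q.smul_mem ?_ _
        by_cases hi : i = 0
        · rw [hi, hq.one]
          exact Q.one_mem
        · rw [hq.ne hi hq.one]
          exact Q.zero_mem }
  have h1 : Q ≤ W := by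
    refine sup_le ?_ (Algebra.adjoin_le_iff.2 ?_)
    · intro x hx i
      exact (le_sup_left : R ≤ Q) (hR i x hx)
    · intro x hx i
      obtain ⟨j, hj⟩ := hS x hx
      by_cases hi : i = j
      · rw [hi, hj]
        exact (le_sup_right : Algebra.adjoin k S ≤ Q) (Algebra.subset_adjoin hx)
      · rw [hq.ne hi hj]
        exact Q.zero_mem
  exact fun i x hx => h1 hx i

end hom

section step

variable {F : Type v} [Field F] [Fintype F] {k : Type z} [Field k] {L : Type u} [Field L]
  [Algebra F L] [Algebra k L] {Λ : Type} [AddCommGroup Λ] [Fintype Λ] [DecidableEq Λ]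
  {q : Λ → L →ₗ[k] L} (hq : PG q) {m s : ℕ} {X : Submodule F (Fin m → L)} (b : Fin m → Λ)

/-- The vectors homogeneous of row degree `α`. -/
def RowH (q : Λ → L →ₗ[k] L) (b : Fin m → Λ) (α : Λ) (y : Fin m → L) : Prop :=
  ∀ l, q (α + b l) (y l) = y l

/-- The homogeneity of a chart. -/
def PrG (q : Λ → L →ₗ[k] L) (b : Fin m → Λ) (R : Subalgebra k L) (H : L)
    (r : X →ₗ[F] (Fin s → L)) : Prop :=
  (∀ i, ∀ x ∈ R, q i x ∈ R) ∧ (∃ h, q h H = H) ∧
    ∃ δ : Fin s → Λ, ∀ α : Λ, (Fintype.card F - 1) • α = 0 → ∀ y : X, RowH q b α (y : Fin m → L) →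
      ∀ l, q (α + δ l) (r y l) = r y l

lemma card_smul {α : Λ} (h : (Fintype.card F - 1) • α = 0) (j : ℕ) :
    (Fintype.card F ^ j) • α = α := by
  have h1 : Fintype.card F • α = α := by
    have h2 : Fintype.card F = (Fintype.card F - 1) + 1 :=
      (Nat.sub_add_cancel Fintype.card_pos).symm
    rw [h2, add_smul, h, one_smul, zero_add]
  induction j with
  | zero => rw [pow_zero, one_smul]
  | succ j ih => rw [pow_succ, mul_smul, h1, ih]

include hq in
lemma hm_fr {x : L} {i : Λ} (hx : q i x = x) (j : ℕ) :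
    q ((Fintype.card F ^ j) • i) (fr F j x) = fr F j x := by
  rw [fr_apply]
  exact hq.pow hx _

include hq in
theorem prG_step {ι : Type} [Fintype ι] [DecidableEq ι] {R : Subalgebra k L} {H : L}
    {r : X →ₗ[F] (Fin s → L)} {x : ι → X} {d : Fin s → ℕ} (h : Good F (fun i => r (x i)) d)
    (a : ι → Λ) (ha : ∀ i, (Fintype.card F - 1) • a i = 0)
    (hx : ∀ i, RowH q b (a i) (x i : Fin m → L)) (M e : ℕ) (hPr : PrG q b R H r) :
    PrG q b (h.alg R e) (H ^ M * h.Δ ^ e) (rnl r d h.c) := by
  obtain ⟨hR, ⟨η, hη⟩, δ, hδ⟩ := hPr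
  let D : Idx d → Λ := fun p => (Fintype.card F ^ (p.2 : ℕ)) • δ p.1
  have hcol : ∀ l j i, q (a i + (Fintype.card F ^ j) • δ l) (col F (fun i => r (x i)) l j i) =
      col F (fun i => r (x i)) l j i := by
    intro l j i
    have h1 := hm_fr (F := F) hq (hδ (a i) (ha i) (x i) (hx i) l) j
    rw [smul_add, card_smul (F := F) (ha i)] at h1
    exact h1
  have hfam : ∀ p i, q (a i + D p) (fam F (fun i => r (x i)) d p i) =
      fam F (fun i => r (x i)) d p i := fun p i => hcol p.1 p.2 i
  let ε : Fin s → Idx d → Λ := fun l p => (Fintype.card F ^ d l) • δ l - D p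
  have hc : ∀ l p, q (ε l p) (h.c l p) = h.c l p := by
    intro l
    have h1 : (fun p => q (ε l p) (h.c l p)) = h.c l := by
      apply h.unique
      intro i
      have h2 : ∀ p, q (ε l p) (h.c l p) * fam F (fun i => r (x i)) d p i =
          q (a i + (Fintype.card F ^ d l) • δ l)
            (h.c l p * fam F (fun i => r (x i)) d p i) := by
        intro p
        have h3 := hq.mul_left (hfam p i) (ε l p) (h.c l p)
        have h4 : a i + D p + ε l p = a i + (Fintype.card F ^ d l) • δ l := by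
          change a i + D p + ((Fintype.card F ^ d l) • δ l - D p) = _
          abel
        rw [h4] at h3
        rw [mul_comm, ← h3, mul_comm]
      rw [Finset.sum_congr rfl fun p _ => h2 p, ← map_sum, ← h.hc l i, hcol, h.hc l i]
    intro p
    exact congrFun h1 p
  have hΔ : ∃ i, q i h.Δ = h.Δ := by
    refine ⟨∑ i, a i + ∑ i, D (h.e i), ?_⟩
    exact hm_det hq (fm (fam F (fun i => r (x i)) d) h.e) a (fun i => D (h.e i))
      fun i j => hfam _ _
  obtain ⟨η', hη'⟩ := hΔ
  refine ⟨?_, ⟨M • η + e • η', ?_⟩, fun l => (Fintype.card F ^ d l) • δ l, ?_⟩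
  · refine stable_adjoin hq hR ?_
    rintro x (rfl | ⟨l, p, rfl⟩)
    · exact ⟨e • η', hq.pow hη' e⟩
    · exact ⟨ε l p, hc l p⟩
  · exact hq.mul _ _ _ _ (hq.pow hη M) (hq.pow hη' e)
  · intro α hα y hy l
    change q _ (fr F (d l) (r y l) - ∑ p, h.c l p * fr F p.2 (r y p.1)) =
      fr F (d l) (r y l) - ∑ p, h.c l p * fr F p.2 (r y p.1)
    have h1 : ∀ l j, q (α + (Fintype.card F ^ j) • δ l) (fr F j (r y l)) = fr F j (r y l) := by
      intro l j
      have h2 := hm_fr (F := F) hq (hδ α hα y hy l) j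
      rwa [smul_add, card_smul (F := F) hα] at h2
    rw [map_sub, map_sum, h1]
    congr 1
    refine Finset.sum_congr rfl fun p _ => ?_
    have h2 := hq.mul _ _ _ _ (hc l p) (h1 p.1 p.2)
    have h3 : ε l p + (α + (Fintype.card F ^ (p.2 : ℕ)) • δ p.1) =
        α + (Fintype.card F ^ d l) • δ l := by
      change ((Fintype.card F ^ d l) • δ l - (Fintype.card F ^ (p.2 : ℕ)) • δ p.1) +
        (α + (Fintype.card F ^ (p.2 : ℕ)) • δ p.1) = _
      abel
    rwa [h3] at h2

end step

end Pool.Agent.R837.FN
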