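import Mathlib

/-! Smooth domains over fields are integrally closed (proof of `W578.WD.Norm`). -/

set_option autoImplicit false

universe u

namespace Pool.Agent.R837.FN.Norm

open TensorProduct nonZeroDivisors

theorem core (P S : Type u) [CommRing P] [IsDomain P] [IsIntegrallyClosed P] [CommRing S]
    [IsDomain S] [Algebra P S] [Algebra.Etale P S] : IsIntegrallyClosed S := by
  have hinj : Function.Injective (algebraMap P S) := by
    rw [injective_iff_map_eq_zero]
    intro a ha
    by_contra h0
    have h1 : Function.Injective (LinearMap.mul P P a) := by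
      intro x y hxy
      exact mul_left_cancel₀ h0 hxy
    have h2 := Module.Flat.lTensor_preserves_injective_linearMap (M := S) (LinearMap.mul P P a) h1
    have h3 : (LinearMap.lTensor S (LinearMap.mul P P a)) ((1 : S) ⊗ₜ[P] (1 : P)) =
        (LinearMap.lTensor S (LinearMap.mul P P a)) 0 := by
      rw [map_zero, LinearMap.lTensor_tmul]
      have : (LinearMap.mul P P a) 1 = a • (1 : P) := by simp
      rw [this, TensorProduct.tmul_smul, TensorProduct.smul_tmul', Algebra.smul_def, ha, zero_mul,
        TensorProduct.zero_tmul]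
    have h4 := h2 h3
    have h5 : (TensorProduct.rid P S) ((1 : S) ⊗ₜ[P] (1 : P)) = 0 := by rw [h4, map_zero]
    simp at h5
  have hfs : FaithfulSMul P S := (faithfulSMul_iff_algebraMap_injective P S).2 hinj
  have hM : Algebra.algebraMapSubmonoid S P⁰ ≤ S⁰ := by
    rintro _ ⟨a, ha, rfl⟩
    refine mem_nonZeroDivisors_of_ne_zero ?_
    intro h
    exact nonZeroDivisors.ne_zero ha ((map_eq_zero_iff _ hinj).1 h)
  have hloc : IsLocalization (Algebra.algebraMapSubmonoid S P⁰) (S ⊗[P] FractionRing P) :=
    inferInstance
  have hdom : IsDomain (S ⊗[P] FractionRing P) :=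
    IsLocalization.isDomain_of_le_nonZeroDivisors _ hM
  have hdom' : IsDomain (FractionRing P ⊗[P] S) :=
    (Algebra.TensorProduct.comm P (FractionRing P) S).toMulEquiv.isDomain _
  have hfin : Module.Finite (FractionRing P) (FractionRing P ⊗[P] S) :=
    Algebra.FormallyUnramified.finite_of_free _ _
  have hE : IsField (FractionRing P ⊗[P] S) :=
    isField_of_isIntegral_of_isField' (Field.toIsField (FractionRing P))
  have hL : IsField (S ⊗[P] FractionRing P) :=
    (Algebra.TensorProduct.comm P S (FractionRing P)).toMulEquiv.isField hE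
  letI : Field (S ⊗[P] FractionRing P) := hL.toField
  have hSL : Function.Injective (algebraMap S (S ⊗[P] FractionRing P)) :=
    IsLocalization.injective _ hM
  haveI : FaithfulSMul S (S ⊗[P] FractionRing P) :=
    (faithfulSMul_iff_algebraMap_injective _ _).2 hSL
  haveI : IsFractionRing S (S ⊗[P] FractionRing P) := by
    refine IsFractionRing.of_field S _ fun z => ?_
    obtain ⟨⟨x, y⟩, hxy⟩ := IsLocalization.surj (Algebra.algebraMapSubmonoid S P⁰) z
    refine ⟨x, y, ?_⟩
    have hy : algebraMap S (S ⊗[P] FractionRing P) y ≠ 0 :=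
      (IsLocalization.map_units _ y).ne_zero
    rw [eq_div_iff hy]
    exact hxy
  rw [isIntegrallyClosed_iff (S ⊗[P] FractionRing P)]
  intro x hx
  obtain ⟨w, hw⟩ := (TensorProduct.toIntegralClosure_bijective_of_smooth (R := P) (S := S)
    (B := FractionRing P)).2 ⟨x, hx⟩
  have key : ∀ w : S ⊗[P] integralClosure P (FractionRing P), ∃ y : S,
      algebraMap S (S ⊗[P] FractionRing P) y =
        (TensorProduct.toIntegralClosure P S (FractionRing P) w : S ⊗[P] FractionRing P) := by
    intro w
    induction w with
    | zero => exact ⟨0, by simp⟩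
    | add a b ha hb =>
      obtain ⟨y, hy⟩ := ha
      obtain ⟨z, hz⟩ := hb
      exact ⟨y + z, by rw [map_add, hy, hz, map_add]; rfl⟩
    | tmul s b =>
      obtain ⟨y, hy⟩ := (isIntegrallyClosed_iff (FractionRing P)).1 inferInstance b.2
      refine ⟨y • s, ?_⟩
      have h1 : (TensorProduct.toIntegralClosure P S (FractionRing P) (s ⊗ₜ[P] b) :
          S ⊗[P] FractionRing P) = s ⊗ₜ[P] (b : FractionRing P) := rfl
      rw [h1, ← hy, Algebra.algebraMap_eq_smul_one y, TensorProduct.tmul_smul,
        TensorProduct.smul_tmul']
      rfl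
  obtain ⟨y, hy⟩ := key w
  refine ⟨y, ?_⟩
  rw [hy, hw]

theorem of_smooth (k A : Type u) [Field k] [CommRing A] [IsDomain A] [Algebra k A]
    [Algebra.Smooth k A] : IsIntegrallyClosed A := by
  apply IsIntegrallyClosed.of_localization_maximal
  intro p _ hp
  obtain ⟨f, hfp, n, _, _, _⟩ :=
    Algebra.IsSmoothAt.exists_isStandardEtale_mvPolynomial (R := k) (p := p)
  have hf0 : f ≠ 0 := by
    rintro rfl
    exact hfp p.zero_mem
  have hpow : Submonoid.powers f ≤ A⁰ := powers_le_nonZeroDivisors_of_noZeroDivisors hf0
  haveI : IsDomain (Localization.Away f) := IsLocalization.isDomain_localization hpow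
  have h1 : IsIntegrallyClosed (Localization.Away f) :=
    core (MvPolynomial (Fin n) k) (Localization.Away f)
  have hle : Submonoid.powers f ≤ p.primeCompl := by
    rw [Submonoid.powers_le]
    exact hfp
  letI := IsLocalization.localizationAlgebraOfSubmonoidLe (Localization.Away f)
    (Localization.AtPrime p) (Submonoid.powers f) p.primeCompl hle
  haveI := IsLocalization.localization_isScalarTower_of_submonoid_le (Localization.Away f)
    (Localization.AtPrime p) (Submonoid.powers f) p.primeCompl hle
  haveI := IsLocalization.isLocalization_of_submonoid_le (Localization.Away f)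
    (Localization.AtPrime p) (Submonoid.powers f) p.primeCompl hle
  refine isIntegrallyClosed_of_isLocalization (Localization.AtPrime p)
    (Submonoid.map (algebraMap A (Localization.Away f)) p.primeCompl) ?_
  rintro _ ⟨a, ha, rfl⟩
  refine mem_nonZeroDivisors_of_ne_zero ?_
  intro h
  have hinj : Function.Injective (algebraMap A (Localization.Away f)) :=
    IsLocalization.injective _ hpow
  have ha0 : a = 0 := (map_eq_zero_iff _ hinj).1 h
  apply ha
  rw [ha0]
  exact p.zero_mem

end Pool.Agent.R837.FN.Norm
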