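import Pool.Agent.R837.FM.Levels
import Pool.Agent.R837.FN.Norm

/-!
The construction of the charts level by level over a smooth base, with a general number of
generators.
-/

set_option autoImplicit false
set_option linter.unusedSectionVars false

open Finset AlgebraicGeometry CategoryTheory Polynomial

universe u v w z

namespace Pool.Agent.R837.FM

open IntermediateField.algebraAdjoinAdjoin

section base

variable {k L : Type u} [Field k] [Field L] [Algebra k L]

lemma isAlgebraic_of_le {R : Subalgebra k L} {S : Type*} [CommRing S] [Algebra S L]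
    (i : R →+* S) (hi : ∀ x : R, algebraMap S L (i x) = x) (h : Algebra.IsAlgebraic R L) :
    Algebra.IsAlgebraic S L := by
  let _ : Algebra R S := i.toAlgebra
  have : IsScalarTower R S L := IsScalarTower.of_algebraMap_eq fun x => (hi x).symm
  refine h.extendScalars ?_
  intro x y hxy
  apply Subtype.ext
  rw [← hi x, ← hi y]
  exact congrArg _ hxy

/-- Extensions of smooth subalgebras by algebraically independent elements. -/
lemma smooth_adjoin {R0 : Subalgebra k L} [Algebra.Smooth k R0] {P : Type} [Finite P]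
    {w : P → L} (hw : AlgebraicIndependent R0 w) :
    Algebra.Smooth k (R0 ⊔ Algebra.adjoin k (Set.range w) : Subalgebra k L) := by
  have hsm1 : Algebra.Smooth R0 (MvPolynomial P R0) := ⟨inferInstance, inferInstance⟩
  have hsm2 : Algebra.Smooth k (MvPolynomial P R0) := Algebra.Smooth.comp k R0 (MvPolynomial P R0)
  let e1 : MvPolynomial P R0 ≃ₐ[R0] Algebra.adjoin R0 (Set.range w) := hw.aevalEquiv
  have h1 : (Algebra.adjoin R0 (Set.range w)).restrictScalars k =
      R0 ⊔ Algebra.adjoin k (Set.range w) := by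
    rw [Algebra.restrictScalars_adjoin, Algebra.adjoin_union, Algebra.adjoin_eq]
  rw [← h1]
  let e2 : MvPolynomial P R0 ≃ₐ[k] (Algebra.adjoin R0 (Set.range w)).restrictScalars k :=
    { e1.toRingEquiv with
      commutes' := fun c => by
        apply Subtype.ext
        have h2 : algebraMap k (MvPolynomial P R0) c =
            algebraMap R0 (MvPolynomial P R0) (algebraMap k R0 c) :=
          IsScalarTower.algebraMap_apply _ _ _ _
        change ((e1 (algebraMap k (MvPolynomial P R0) c) :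
          Algebra.adjoin R0 (Set.range w)) : L) = algebraMap k L c
        rw [h2, e1.commutes]
        rfl }
  exact Algebra.Smooth.of_equiv e2

end base

section final

variable {F : Type v} [Field F] [Fintype F] {k : Type u} [Field k] {L : Type u} [Field L]
  [Algebra F L] [Algebra k L] {m s : ℕ} {X : Submodule F (Fin m → L)}

/-- The charts are smooth and contain the invariants. -/
theorem chart_final3 {R0 R : Subalgebra k L} (hR0 : Algebra.Smooth k R0)
    {r : X →ₗ[F] (Fin s → L)} {J : Type} [Fintype J]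
    (x : J → X) (hr : ∀ i, r (x i) = 0)
    (hdim : ∃ (P : Type) (_ : Fintype P) (base : P → X → L), Fintype.card P = Fintype.card J ∧
      Op F R (co X) ≤ spn R (gens F r ∪ Set.range base))
    (hint : ∀ (V : ValuationSubring L), (∀ a ∈ R, a ∈ V) → ∀ y : X, (∀ l, r y l ∈ V) →
      ∀ l, (y : Fin m → L) l ∈ V)
    (hx : LinearIndependent F fun i => (x i : Fin m → L))
    (hF : ∀ a : F, ∃ c : k, algebraMap k L c = algebraMap F L a)
    (hL : IntermediateField.adjoin k ((R : Set L) ∪ {a | ∃ i l, a = (x i : Fin m → L) l}) = ⊤)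
    {P : Type} [Fintype P] (w : P → L) (hw : R = R0 ⊔ Algebra.adjoin k (Set.range w))
    (htr : (Fintype.card P : Cardinal) ≤ Algebra.trdeg R0 L) :
    Algebra.Smooth k R ∧
    ∀ b, (∀ V : ValuationSubring L, (∀ a ∈ R, a ∈ V) → (∀ i l, (x i : Fin m → L) l ∈ V) →
      b ∈ V) → (∀ σ : L →+* L, (∀ a ∈ R, σ a = a) → σ b = b) → b ∈ R := by
  classical
  obtain ⟨S, hS⟩ : ∃ S : Set L, R = Algebra.adjoin k S := ⟨R, (Algebra.adjoin_eq R).symm⟩
  subst hS
  let E := IntermediateField.adjoin k S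
  have hgal : IsGalois E L := by
    have h0 := fun l => exists_rel (E := E) x hr hdim hx (fun a ha =>
        ⟨⟨a, IntermediateField.algebra_adjoin_le_adjoin k _ ha⟩, rfl⟩) l
    choose N u hu1 hu2 α hα1 hα2 using h0
    refine isGalois_of (E := E) {a | ∃ l b, a = u l b} ?_ ?_
    · rw [eq_top_iff]
      intro a _
      have h1 : a ∈ IntermediateField.adjoin k ((Algebra.adjoin k S : Set L) ∪
          {a | ∃ i l, a = (x i : Fin m → L) l}) := by
        rw [hL]
        trivial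
      have h2 : IntermediateField.adjoin k ((Algebra.adjoin k S : Set L) ∪
          {a | ∃ i l, a = (x i : Fin m → L) l}) ≤
          (IntermediateField.adjoin E {a | ∃ l b, a = u l b}).restrictScalars k := by
        rw [IntermediateField.adjoin_le_iff]
        rintro _ (ha | ⟨i, l, rfl⟩)
        · exact (IntermediateField.adjoin E {a | ∃ l b, a = u l b}).algebraMap_mem
            ⟨_, IntermediateField.algebra_adjoin_le_adjoin k _ ha⟩
        change (x i : Fin m → L) l ∈ IntermediateField.adjoin E {a | ∃ l b, a = u l b}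
        refine Submodule.span_induction
          (p := fun a _ => a ∈ IntermediateField.adjoin E {a | ∃ l b, a = u l b}) ?_ ?_ ?_ ?_
          (hu2 l i)
        · rintro _ ⟨b, rfl⟩
          exact IntermediateField.subset_adjoin E _ ⟨l, b, rfl⟩
        · exact zero_mem _
        · exact fun a b _ _ ha hb => add_mem ha hb
        · intro c a _ ha
          obtain ⟨c', hc'⟩ := hF c
          rw [Algebra.smul_def, ← hc']
          refine mul_mem ?_ ha
          exact (IntermediateField.adjoin E {a | ∃ l b, a = u l b}).algebraMap_mem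
            (algebraMap k E c')
      exact h2 h1
    · rintro _ ⟨l, b, rfl⟩
      exact sep_split (u l) (hu1 l) (α l) (hα1 l) (hα2 l) b
  have halg : Algebra.IsAlgebraic (Algebra.adjoin k S) L := by
    have h1 : Algebra.IsAlgebraic E L := inferInstance
    exact (IsFractionRing.comap_isAlgebraic_iff (A := Algebra.adjoin k S) (K := E)
      (C := L)).2 h1
  have hle : ∀ a ∈ Algebra.adjoin k S, a ∈ Algebra.adjoin R0 (Set.range w) := by
    intro a ha
    have h1 : (Algebra.adjoin R0 (Set.range w)).restrictScalars k =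
        R0 ⊔ Algebra.adjoin k (Set.range w) := by
      rw [Algebra.restrictScalars_adjoin, Algebra.adjoin_union, Algebra.adjoin_eq]
    rw [hw, ← h1] at ha
    exact ha
  have halg' : Algebra.IsAlgebraic (Algebra.adjoin R0 (Set.range w)) L :=
    isAlgebraic_of_le (R := Algebra.adjoin k S)
      { toFun := fun a => ⟨a.1, hle a.1 a.2⟩
        map_one' := rfl
        map_mul' := fun _ _ => rfl
        map_zero' := rfl
        map_add' := fun _ _ => rfl } (fun _ => rfl) halg
  have htb : IsTranscendenceBasis R0 w := by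
    refine Algebra.IsAlgebraic.isTranscendenceBasis_of_lift_le_trdeg_of_finite R0 w ?_
    have h1 : Cardinal.mk P = (Fintype.card P : Cardinal) := Cardinal.mk_fintype P
    rw [h1, Cardinal.lift_natCast]
    calc (Fintype.card P : Cardinal) = Cardinal.lift.{0} (Fintype.card P : Cardinal) := by simp
      _ ≤ _ := Cardinal.lift_le.2 htr
  have hai : AlgebraicIndependent R0 w := htb.1
  have hsm : Algebra.Smooth k (Algebra.adjoin k S) := by
    rw [hw]
    exact smooth_adjoin hai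
  have hic : IsIntegrallyClosed (Algebra.adjoin k S) :=
    Pool.Agent.R837.FN.Norm.of_smooth k (Algebra.adjoin k S)
  refine ⟨hsm, fun b hb hσ => ?_⟩
  have hbint : IsIntegral (Algebra.adjoin k S) b := by
    refine isIntegral_of_val fun V hV => ?_
    refine hb V hV fun i l => hint V hV (x i) (fun l => ?_) l
    rw [hr]
    exact V.zero_mem
  have hbE : b ∈ Set.range (algebraMap E L) := by
    rw [InfiniteGalois.mem_range_algebraMap_iff_fixed]
    intro f
    refine hσ (f : L →+* L) fun a ha => ?_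
    exact f.commutes ⟨a, IntermediateField.algebra_adjoin_le_adjoin k _ ha⟩
  obtain ⟨b', rfl⟩ := hbE
  have h1 : IsIntegral (Algebra.adjoin k S) b' := by
    have h2 := (isIntegral_algHom_iff
      (IsScalarTower.toAlgHom (Algebra.adjoin k S) E L)
      (algebraMap E L).injective (x := b')).1 hbint
    exact h2
  obtain ⟨c, hc⟩ := IsIntegrallyClosed.isIntegral_iff.1 h1
  rw [← hc]
  exact c.2

end final

section levels

variable {F : Type v} [Field F] [Fintype F] {k : Type z} [Field k] {L : Type u} [Field L]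
  [Algebra F L] [Algebra k L] {m s n : ℕ} {B : Subalgebra k L} {X : Submodule F (Fin m → L)}
  {Λ0 : Submodule F (Fin m → L)} {x : Fin n → X} {lv : Fin n → ℕ} {e : ℕ → ℕ}

/-- The charts up to level `a`. -/
theorem levels3 {T0 : Type} [Finite T0] {R0 : T0 → Subalgebra k L} {H0 : T0 → L}
    {r0 : T0 → X →ₗ[F] (Fin s → L)} {J0 : Type} [Fintype J0] {z : J0 → X}
    (hz : Λ0 = Submodule.span F (Set.range fun j => (z j : Fin m → L)))
    (S0 : Stage F B X Λ0 (Fintype.card J0) R0 H0 r0)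
    (hX0 : ∀ t (σ : L →+* L), (∀ b ∈ R0 t, σ b = b) → ∀ y ∈ X, (fun l => σ (y l)) ∈ X)
    (hx : LinearIndependent F (Sum.elim (fun i => (x i : Fin m → L)) fun j =>
      (z j : Fin m → L)))
    (hxB : ∀ i l, (x i : Fin m → L) l ∈ B)
    (he : ∀ a, 0 < e a)
    (Pr : Subalgebra k L → L → (X →ₗ[F] (Fin s → L)) → Prop)
    (hP0 : ∀ t, Pr (R0 t) (H0 t) (r0 t))
    (hP : ∀ (R : Subalgebra k L) (H : L) (r : X →ₗ[F] (Fin s → L)) (a : ℕ) (d : Fin s → ℕ)
      (h : Good F (fun i : {i // lv i = a} => r (x i)) d) (M : ℕ), Pr R H r →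
      Pr (h.alg R (e a)) (H ^ M * h.Δ ^ (e a)) (rnl r d h.c))
    (N : ℕ → ℕ)
    (hN : ∀ (R : Subalgebra k L) (H : L) (r : X →ₗ[F] (Fin s → L)) (a : ℕ) (d : Fin s → ℕ)
      (h : Good F (fun i : {i // lv i = a} => r (x i)) d), Pr R H r →
      ∃ (P : Type) (_ : Fintype P) (w : P → L), Fintype.card P = N a ∧
        h.alg R (e a) = R ⊔ Algebra.adjoin k (Set.range w)) (a : ℕ) :
    ∃ (T : Type) (_ : Finite T) (R : T → Subalgebra k L) (H : T → L)
      (r : T → X →ₗ[F] (Fin s → L)),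
      Stage F B X (Lam Λ0 x lv a) (Fintype.card J0 + Fintype.card {i // lv i < a}) R H r ∧
      (∀ t, ∃ (t0 : T0) (P : Type) (_ : Fintype P) (w : P → L),
        Fintype.card P = ∑ b ∈ Finset.range a, N b ∧
        R t = R0 t0 ⊔ Algebra.adjoin k (Set.range w)) ∧
      (∀ t (σ : L →+* L), (∀ b ∈ R t, σ b = b) → (∃ t0, ∀ b ∈ R0 t0, σ b = b) ∧
        ∀ b < a, Q Λ0 x lv e σ b) ∧
      (∀ σ : L →+* L, (∀ t, (∀ b ∈ R0 t, σ b = b) ∧ σ (H0 t) = H0 t) →
        (∀ b < a, Q Λ0 x lv e σ b) → ∀ t, (∀ b ∈ R t, σ b = b) ∧ σ (H t) = H t) ∧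
      ∀ t, Pr (R t) (H t) (r t) := by
  classical
  have hΛ0 : Λ0 ≤ X := by
    rw [hz]
    refine Submodule.span_le.2 ?_
    rintro _ ⟨j, rfl⟩
    exact (z j).2
  induction a with
  | zero =>
    refine ⟨T0, inferInstance, R0, H0, r0, ?_, ?_, ?_, ?_, hP0⟩
    · rw [lam_zero]
      have : Fintype.card {i // lv i < 0} = 0 := by
        rw [Fintype.card_eq_zero_iff]
        exact ⟨fun i => absurd i.2 (Nat.not_lt_zero _)⟩
      rw [this, add_zero]
      exact S0
    · intro t
      refine ⟨t, Empty, inferInstance, fun p => p.elim, rfl, ?_⟩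
      rw [Set.range_eq_empty, Algebra.adjoin_empty, sup_bot_eq]
    · exact fun t σ h => ⟨⟨t, h⟩, fun b hb => absurd hb (Nat.not_lt_zero _)⟩
    · exact fun σ h _ => h
  | succ a ih =>
    obtain ⟨T, hT, R, H, r, S, hgen, hconv, hfix, hPt⟩ := ih
    have hind := hind_of (lv := lv) hz hx a
    have he0 : 0 < e a := he a
    obtain ⟨M, S'⟩ := S.step (fun i : {i // lv i = a} => x i) (fun i l => hxB i l) hind (e a) he0
    refine ⟨TT r fun i : {i // lv i = a} => x i, inferInstance, fun τ => RR R (e a) τ,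
      fun τ => HH H M (e a) τ, fun τ => rr τ, ?_, ?_, ?_, ?_, ?_⟩
    · rw [lam_succ, card_succ, ← add_assoc]
      exact S'
    · intro τ
      obtain ⟨t0, P, hP, w, hcard, hw⟩ := hgen τ.1.1
      obtain ⟨P', hP', w', hcard', hw'⟩ := hN _ _ _ a _ τ.2 (hPt τ.1.1)
      refine ⟨t0, P ⊕ P', inferInstance, Sum.elim w w', ?_, ?_⟩
      · rw [Fintype.card_sum, hcard, hcard', Finset.sum_range_succ]
      · change RR R (e a) τ = _
        have hw'' : RR R (e a) τ = R τ.1.1 ⊔ Algebra.adjoin k (Set.range w') := hw'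
        rw [hw'', hw, Set.Sum.elim_range, Algebra.adjoin_union, sup_assoc]
    · intro τ σ hσ
      have h1 := hconv τ.1.1 σ fun b hb => hσ b (τ.2.le_alg hb)
      refine ⟨h1.1, fun b hb => ?_⟩
      rcases Nat.lt_succ_iff_lt_or_eq.1 hb with h | h
      · exact h1.2 b h
      · subst h
        obtain ⟨t0, ht0⟩ := h1.1
        exact conv_step S hind σ (hX0 t0 σ ht0) τ hσ
    · intro σ hσ0 hσ τ
      obtain ⟨h1, h2⟩ := hfix σ hσ0 (fun b hb => hσ b (Nat.lt_succ_of_lt hb)) τ.1.1
      obtain ⟨g, hg1, hg2⟩ := hσ a (Nat.lt_succ_self a)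
      have hXσ : ∀ i : {i // lv i = a}, (fun l => σ ((x i : Fin m → L) l)) ∈ X := by
        intro i
        have h3 := lam_le hΛ0 a (hg2 i)
        have h4 : ∑ j : {i // lv i = a}, g i j • (x j : Fin m → L) ∈ X :=
          Submodule.sum_mem _ fun j _ => Submodule.smul_mem _ _ (x j).2
        have h5 := X.add_mem h3 h4
        rwa [sub_add_cancel] at h5
      refine fix_step σ τ h1 g ?_ hg1 he0 h2 M
      intro i l
      rw [sigma_r S σ τ.1.1 h1 (x i) ⟨_, hXσ i⟩ (fun l => rfl)]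
      have h4 : r τ.1.1 ((⟨_, hXσ i⟩ : X) - ∑ j : {i // lv i = a}, g i j • x j) = 0 := by
        rw [S.ker, Submodule.coe_sub, Submodule.coe_sum]
        exact hg2 i
      rw [map_sub, sub_eq_zero] at h4
      rw [h4, map_sum, Finset.sum_apply]
      exact Finset.sum_congr rfl fun j _ => by rw [map_smul]; rfl
    · intro τ
      exact hP _ _ _ a _ τ.2 M (hPt τ.1.1)

end levels

section res

variable {F : Type v} [Field F] [Fintype F] {k : Type u} [Field k] {L : Type u} [Field L]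
  [Algebra F L] [Algebra k L] {m s n : ℕ} {X Λ0 : Submodule F (Fin m → L)}
  {x : Fin n → X} {lv : Fin n → ℕ} {e : ℕ → ℕ}
  {A : Type u} [CommRing A] [IsDomain A] [Algebra k A] {g : A →ₐ[k] L}

/-- The atlas of the resolution. -/
theorem atlas3
    {B : Subalgebra k L} (hxB : ∀ i l, (x i : Fin m → L) l ∈ B)
    {T0 : Type} [Finite T0] {R0 : T0 → Subalgebra k L} (hR0 : ∀ t, Algebra.Smooth k (R0 t))
    {H0 : T0 → L}
    (hBint : ∀ t, ∀ V : ValuationSubring L, (∀ c ∈ R0 t, c ∈ V) →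
      (∀ i l, (x i : Fin m → L) l ∈ V) → ∀ b ∈ B, b ∈ V)
    {r0 : T0 → X →ₗ[F] (Fin s → L)} {J0 : Type} [Fintype J0] {z : J0 → X}
    (hz : Λ0 = Submodule.span F (Set.range fun j => (z j : Fin m → L)))
    (S0 : Stage F B X Λ0 (Fintype.card J0) R0 H0 r0)
    (hX0 : ∀ t (σ : L →+* L), (∀ b ∈ R0 t, σ b = b) → ∀ y ∈ X, (fun l => σ (y l)) ∈ X)
    (hx : LinearIndependent F (Sum.elim (fun i => (x i : Fin m → L)) fun j =>
      (z j : Fin m → L)))
    (hF : ∀ a : F, ∃ c : k, algebraMap k L c = algebraMap F L a)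
    (hL : ∀ t, IntermediateField.adjoin k ((R0 t : Set L) ∪
      {a | ∃ i l, a = (x i : Fin m → L) l}) = ⊤)
    (he : ∀ a, 0 < e a)
    (𝒢 : Set (L →+* L))
    (h𝒢 : ∀ σ ∈ 𝒢, (∀ t, (∀ b ∈ R0 t, σ b = b) ∧ σ (H0 t) = H0 t) ∧ ∀ a, Q Λ0 x lv e σ a)
    (hA1 : ∀ b ∈ B, (∀ σ ∈ 𝒢, σ b = b) → ∃ a, b = g a)
    (hA2 : ∀ σ : L →+* L, (∃ t0, ∀ b ∈ R0 t0, σ b = b) → (∀ a, Q Λ0 x lv e σ a) →
      ∀ a, g a ∈ B ∧ σ (g a) = g a)
    (hA3 : ∀ V : ValuationSubring L, (∀ a, g a ∈ V) → ∀ b ∈ B, b ∈ V)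
    (Pr : Subalgebra k L → L → (X →ₗ[F] (Fin s → L)) → Prop)
    (hP0 : ∀ t, Pr (R0 t) (H0 t) (r0 t))
    (hP : ∀ (R : Subalgebra k L) (H : L) (r : X →ₗ[F] (Fin s → L)) (a : ℕ) (d : Fin s → ℕ)
      (h : Good F (fun i : {i // lv i = a} => r (x i)) d) (M : ℕ), Pr R H r →
      Pr (h.alg R (e a)) (H ^ M * h.Δ ^ (e a)) (rnl r d h.c))
    (N : ℕ → ℕ)
    (hN : ∀ (R : Subalgebra k L) (H : L) (r : X →ₗ[F] (Fin s → L)) (a : ℕ) (d : Fin s → ℕ)
      (h : Good F (fun i : {i // lv i = a} => r (x i)) d), Pr R H r →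
      ∃ (P : Type) (_ : Fintype P) (w : P → L), Fintype.card P = N a ∧
        h.alg R (e a) = R ⊔ Algebra.adjoin k (Set.range w))
    (htr : ∀ t a, ((∑ b ∈ Finset.range a, N b : ℕ) : Cardinal) ≤ Algebra.trdeg (R0 t) L) :
    ∃ (T : Type) (_ : Finite T) (C : T → Subalgebra k L) (H : T → L)
      (r : T → X →ₗ[F] (Fin s → L)),
      (∀ t, H t ≠ 0) ∧ (∀ t, ∃ a, H t = g a) ∧ (∀ t, Algebra.Smooth k (C t)) ∧
      (∀ t a, g a ∈ C t) ∧ (∀ t t', H t' / H t ∈ C t) ∧
      (∀ t t', C t' ≤ Loc (C t) (H t' / H t)) ∧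
      (∀ t, ∀ x ∈ C t, ∃ (n : ℕ) (a : A), H t ^ n * x = g a) ∧
      (∀ V : ValuationSubring L, (∀ a, g a ∈ V) → ∃ t, ∀ x ∈ C t, x ∈ V) ∧
      ∀ t, Pr (C t) (H t) (r t) := by
  classical
  -- a level above all rows
  obtain ⟨a, ha⟩ : ∃ a, ∀ i, lv i < a := by
    obtain ⟨M, hM⟩ := (Set.finite_range lv).bddAbove
    exact ⟨M + 1, fun i => Nat.lt_succ_of_le (hM ⟨i, rfl⟩)⟩
  obtain ⟨T, hT, R, H, r, S, hgen, hconv, hfix, hPt⟩ :=
    levels3 (e := e) hz S0 hX0 hx hxB he Pr hP0 hP N hN a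
  have hcard : Fintype.card {i // lv i < a} = n := by
    rw [Fintype.card_congr (Equiv.subtypeUnivEquiv ha), Fintype.card_fin]
  have hQ : ∀ σ : L →+* L, (∀ b < a, Q Λ0 x lv e σ b) → ∀ b, Q Λ0 x lv e σ b := by
    intro σ hσ b
    by_cases hb : b < a
    · exact hσ b hb
    · have : IsEmpty {i // lv i = b} := ⟨fun i => hb (i.2 ▸ ha i)⟩
      exact ⟨1, by rw [Matrix.det_one, one_pow], fun i => isEmptyElim i⟩
  let x' : Fin n ⊕ J0 → X := Sum.elim x z
  have hr : ∀ t i, r t (x' i) = 0 := by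
    rintro t (i | j)
    · rw [S.ker]
      exact Submodule.mem_sup_right (Submodule.subset_span ⟨i, ha i, rfl⟩)
    · rw [S.ker]
      refine Submodule.mem_sup_left ?_
      rw [hz]
      exact Submodule.subset_span ⟨j, rfl⟩
  have hx' : LinearIndependent F fun i => (x' i : Fin m → L) := by
    have h1 : (fun i => (x' i : Fin m → L)) = Sum.elim (fun i => (x i : Fin m → L)) fun j =>
        (z j : Fin m → L) := by
      funext i
      rcases i with i | j <;> rfl
    rw [h1]
    exact hx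
  have hch : ∀ t, Algebra.Smooth k (R t) ∧ ∀ b ∈ B,
      (∀ σ : L →+* L, (∀ a ∈ R t, σ a = a) → σ b = b) → b ∈ R t := by
    intro t
    obtain ⟨t0, P, hP, w, hcardP, hw⟩ := hgen t
    have ht0 : R0 t0 ≤ R t := by
      rw [hw]
      exact le_sup_left
    have hL' : IntermediateField.adjoin k ((R t : Set L) ∪
        {a | ∃ i l, a = (x' i : Fin m → L) l}) = ⊤ := by
      rw [eq_top_iff, ← hL t0]
      refine IntermediateField.adjoin.mono k _ _ ?_
      rintro _ (h | ⟨i, l, rfl⟩)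
      · exact Or.inl (ht0 h)
      · exact Or.inr ⟨Sum.inl i, l, rfl⟩
    have h1 := chart_final3 (F := F) (R0 := R0 t0) (R := R t) (hR0 t0) (r := r t) x' (hr t) (by
      obtain ⟨P, hP, base, h1, h2⟩ := S.dim t
      refine ⟨P, hP, base, ?_, h2⟩
      rw [h1, hcard, Fintype.card_sum, Fintype.card_fin, add_comm]) (S.int t) hx' hF hL' w hw (by
        rw [hcardP]
        exact htr t0 a)
    refine ⟨h1.1, fun b hb hσ => h1.2 b (fun V hV1 hV2 => ?_) hσ⟩
    exact hBint t0 V (fun c hc => hV1 _ (ht0 hc))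
      (fun i l => hV2 (Sum.inl i) l) b hb
  refine ⟨T, hT, R, H, r, S.H0, ?_, fun t => (hch t).1, ?_, S.rt, S.gl, ?_, ?_, hPt⟩
  · intro t
    exact hA1 _ (S.HB t) fun σ hσ => (hfix σ (h𝒢 σ hσ).1 (fun b _ => (h𝒢 σ hσ).2 b) t).2
  · intro t b
    have h1 : ∀ σ : L →+* L, (∀ a ∈ R t, σ a = a) → g b ∈ B ∧ σ (g b) = g b := by
      intro σ hσ
      obtain ⟨h2, h3⟩ := hconv t σ hσ
      exact hA2 σ h2 (hQ σ h3) b
    exact (hch t).2 _ (h1 (RingHom.id L) fun a _ => rfl).1 fun σ hσ => (h1 σ hσ).2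
  · intro t b hb
    obtain ⟨N, hN⟩ := exists_pow_mul (S.HB t) (S.H0 t) (S.dn t hb)
    obtain ⟨a', ha'⟩ := hA1 _ hN fun σ hσ => by
      obtain ⟨h1, h2⟩ := hfix σ (h𝒢 σ hσ).1 (fun b _ => (h𝒢 σ hσ).2 b) t
      rw [map_mul, map_pow, h2, h1 b hb]
    exact ⟨N, a', ha'⟩
  · intro V hV
    exact S.cv V (hA3 V hV)

end res

end Pool.Agent.R837.FM
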