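import Pool.Agent.R837.FN.Ext1
import Pool.Agent.R837.FN.Levels3
import Pool.Agent.R837.FN.Homog

/-!
The charts of the quotients over a smooth base.
-/

set_option autoImplicit false
set_option linter.unusedSectionVars false

open Finset AlgebraicGeometry CategoryTheory MvPolynomial

universe u v w z

namespace Pool.Agent.R837.FN

open Pool.Agent.R837.FM Pool.Agent.Y177.Dg

/-- The initial stage over a base. -/
lemma stage_base {F : Type v} [Field F] [Fintype F] {k : Type z} [Field k] {L : Type u} [Field L]
    [Algebra F L] [Algebra k L] {m : ℕ} {R0 B : Subalgebra k L} (hR : R0 ≤ B) :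
    Stage F B (⊤ : Submodule F (Fin m → L)) ⊥ 0 (fun _ : Unit => R0)
      (fun _ => (1 : L)) (fun _ => (⊤ : Submodule F (Fin m → L)).subtype) where
  H0 := fun _ => one_ne_zero
  HB := fun _ => B.one_mem
  rt := fun _ _ => by
    rw [div_one]
    exact one_mem _
  gl := fun _ _ => le_loc _ _
  dn := fun _ => hR.trans (le_loc _ _)
  coef := fun _ l => self_mem_op _ _ l
  op := fun _ _ l => self_mem_op _ _ l
  ker := fun _ y => by
    rw [Submodule.mem_bot]
    rfl
  int := fun _ V _ y hy l => hy l
  cv := fun V hV => ⟨(), fun a ha => hV _ (hR ha)⟩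
  dim := fun _ => ⟨Empty, inferInstance, fun p => p.elim, rfl, spn_mono le_rfl
    Set.subset_union_left⟩

section main

variable (F : Type v) [Field F] [Fintype F] (k : Type u) [Field k]
  (S : Type u) [CommRing S] [Algebra k S] (n m : ℕ)

/-- The polynomial ring. -/
abbrev BS (S : Type u) [CommRing S] (n m : ℕ) : Type u := MvPolynomial (Fin n × Fin m) S

/-- The field of rational functions. -/
abbrev LS (S : Type u) [CommRing S] [IsDomain S] (n m : ℕ) : Type u := FractionRing (BS S n m)

variable [IsDomain S]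

/-- The embedding. -/
noncomputable def embS : BS S n m →ₐ[k] LS S n m :=
  IsScalarTower.toAlgHom k (BS S n m) (LS S n m)

lemma embS_apply (b : BS S n m) : embS k S n m b = algebraMap (BS S n m) (LS S n m) b := rfl

lemma embS_injective : Function.Injective (embS k S n m) :=
  IsFractionRing.injective (BS S n m) (LS S n m)

lemma embS_surj (x : LS S n m) : ∃ a b : BS S n m, b ≠ 0 ∧ x * embS k S n m b = embS k S n m a := by
  obtain ⟨a, b, hb, rfl⟩ := IsFractionRing.div_surjective (A := BS S n m) x
  have hb0 : b ≠ 0 := nonZeroDivisors.ne_zero hb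
  have h1 : algebraMap (BS S n m) (LS S n m) b ≠ 0 := fun h =>
    hb0 ((map_eq_zero_iff _ (embS_injective k S n m)).1 h)
  exact ⟨a, b, hb0, div_mul_cancel₀ _ h1⟩

/-- The embedding of the base. -/
noncomputable def bs : S →ₐ[k] LS S n m :=
  (embS k S n m).comp (IsScalarTower.toAlgHom k S (BS S n m))

lemma bs_apply (c : S) : bs k S n m c = embS k S n m (C c) := rfl

lemma bs_injective : Function.Injective (bs k S n m) :=
  (embS_injective k S n m).comp (C_injective _ _)

lemma bs_le : (bs k S n m).range ≤ (embS k S n m).range := by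
  rintro _ ⟨c, rfl⟩
  exact ⟨C c, rfl⟩

lemma smooth_bs [Algebra.Smooth k S] : Algebra.Smooth k (bs k S n m).range :=
  Algebra.Smooth.of_equiv (AlgEquiv.ofInjective (bs k S n m) (bs_injective k S n m))

variable [Algebra F S]

/-- The rows. -/
noncomputable def xS (i : Fin n) : (⊤ : Submodule F (Fin m → LS S n m)) :=
  ⟨fun l => algebraMap (BS S n m) (LS S n m) (X (i, l)), trivial⟩

lemma xS_apply (i : Fin n) (l : Fin m) :
    (xS F S n m i : Fin m → LS S n m) l = embS k S n m (X (i, l)) := rfl

lemma embS_range_le {W : Subalgebra k (LS S n m)} (h1 : ∀ c, bs k S n m c ∈ W)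
    (h2 : ∀ i l, (xS F S n m i : Fin m → LS S n m) l ∈ W) : (embS k S n m).range ≤ W := by
  rintro _ ⟨b, rfl⟩
  induction b using MvPolynomial.induction_on with
  | C c => exact h1 c
  | add a b ha hb =>
    change embS k S n m (a + b) ∈ W
    rw [map_add]
    exact W.add_mem ha hb
  | mul_X a u ha =>
    change embS k S n m (a * X u) ∈ W
    rw [map_mul]
    exact W.mul_mem ha (h2 u.1 u.2)

lemma xS_li (l : Fin m) :
    LinearIndependent F fun i => (xS F S n m i : Fin m → LS S n m) l := by
  rw [Fintype.linearIndependent_iff]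
  intro b hb i
  have h1 : IsScalarTower.toAlgHom S (BS S n m) (LS S n m)
      (∑ i, algebraMap F S (b i) • X (i, l)) = 0 := by
    rw [map_sum, ← hb]
    refine Finset.sum_congr rfl fun i _ => ?_
    rw [map_smul, algebraMap_smul]
    rfl
  have h2 := (map_eq_zero_iff (IsScalarTower.toAlgHom S (BS S n m) (LS S n m))
    (IsFractionRing.injective (BS S n m) (LS S n m))).1 h1
  have h3 := congrArg (MvPolynomial.coeff (Finsupp.single (i, l) 1)) h2
  rw [MvPolynomial.coeff_sum, MvPolynomial.coeff_zero, Finset.sum_eq_single i] at h3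
  · rw [MvPolynomial.coeff_smul, MvPolynomial.coeff_X, if_pos rfl, smul_eq_mul, mul_one] at h3
    exact (map_eq_zero_iff _ (algebraMap F S).injective).1 h3
  · intro j _ hj
    rw [MvPolynomial.coeff_smul, MvPolynomial.coeff_X, if_neg, smul_zero]
    intro h
    have h4 := Finsupp.single_left_injective (one_ne_zero) h
    exact hj (Prod.mk.inj h4).1
  · intro h
    exact absurd (Finset.mem_univ i) h

lemma xS_li' (hm : 0 < m) :
    LinearIndependent F fun i => (xS F S n m i : Fin m → LS S n m) := by
  have h := xS_li F S n m ⟨0, hm⟩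
  rw [Fintype.linearIndependent_iff] at h ⊢
  intro b hb
  apply h b
  have h1 := congrFun hb ⟨0, hm⟩
  rw [Finset.sum_apply] at h1
  exact h1

lemma adjoinS_top : IntermediateField.adjoin k (((bs k S n m).range : Set (LS S n m)) ∪
    {a | ∃ i l, a = (xS F S n m i : Fin m → LS S n m) l}) = ⊤ := by
  rw [eq_top_iff]
  intro z _
  obtain ⟨a, b, hb, hz⟩ := embS_surj k S n m z
  have hb0 : embS k S n m b ≠ 0 := fun h =>
    hb ((map_eq_zero_iff _ (embS_injective k S n m)).1 h)
  have h : (embS k S n m).range ≤ (IntermediateField.adjoin k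
      (((bs k S n m).range : Set (LS S n m)) ∪
        {a | ∃ i l, a = (xS F S n m i : Fin m → LS S n m) l})).toSubalgebra := by
    refine embS_range_le F k S n m (fun c => ?_) fun i l => ?_
    · exact IntermediateField.subset_adjoin k _ (Or.inl ⟨c, rfl⟩)
    · exact IntermediateField.subset_adjoin k _ (Or.inr ⟨i, l, rfl⟩)
  have hz' : z = embS k S n m a / embS k S n m b := by
    rw [eq_div_iff hb0, hz]
  rw [hz']
  exact div_mem (h ⟨a, rfl⟩) (h ⟨b, rfl⟩)

omit [Algebra F S] in
lemma le_trdegS (t : ℕ) (ht : t ≤ m * n) :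
    ((t : ℕ) : Cardinal) ≤ Algebra.trdeg (bs k S n m).range (LS S n m) := by
  let _ : Algebra S (bs k S n m).range := (bs k S n m).rangeRestrict.toRingHom.toAlgebra
  have : IsScalarTower S (bs k S n m).range (LS S n m) :=
    IsScalarTower.of_algebraMap_eq fun c => rfl
  have : Algebra.IsAlgebraic S (bs k S n m).range := by
    refine ⟨fun y => ?_⟩
    obtain ⟨_, c, rfl⟩ := y
    exact isAlgebraic_algebraMap (A := (bs k S n m).range) c
  have h1 : AlgebraicIndependent S (fun u : Fin n × Fin m =>
      algebraMap (BS S n m) (LS S n m) (X u)) := by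
    have h0 : AlgebraicIndependent S (X : Fin n × Fin m → BS S n m) :=
      MvPolynomial.algebraicIndependent_X _ _
    exact h0.map' (f := IsScalarTower.toAlgHom S (BS S n m) (LS S n m))
      (IsFractionRing.injective (BS S n m) (LS S n m))
  have h2 := (h1.extendScalars (bs k S n m).range).lift_cardinalMk_le_trdeg
  rw [Cardinal.lift_id'.{0, u}] at h2
  have h3 : Cardinal.lift.{u} (Cardinal.mk (Fin n × Fin m)) = ((m * n : ℕ) : Cardinal) := by
    rw [Cardinal.mk_fintype, Fintype.card_prod, Fintype.card_fin, Fintype.card_fin,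
      Cardinal.lift_natCast, mul_comm]
  rw [h3] at h2
  exact (Nat.cast_le.2 ht).trans h2

/-- The automorphisms of the field of rational functions. -/
noncomputable def sgS {S : Type u} [CommRing S] [IsDomain S] {n m : ℕ}
    (τ : BS S n m ≃ₐ[S] BS S n m) : LS S n m →+* LS S n m :=
  IsFractionRing.lift (A := BS S n m) (K := LS S n m)
    (g := (algebraMap (BS S n m) (LS S n m)).comp (τ : BS S n m →+* BS S n m))
    (show Function.Injective fun b => algebraMap (BS S n m) (LS S n m) (τ b) from
      (IsFractionRing.injective (BS S n m) (LS S n m)).comp τ.injective)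

omit [Algebra F S] in
lemma sgS_emb (τ : BS S n m ≃ₐ[S] BS S n m) (b : BS S n m) :
    sgS τ (embS k S n m b) = embS k S n m (τ b) :=
  IsFractionRing.lift_algebraMap _ _

/-- The invariants. -/
noncomputable def AS (lv s : Fin n → ℕ) : Subalgebra k (BS S n m) where
  carrier := {b | ∀ g ∈ par F lv s, lin S m (g : Matrix (Fin n) (Fin n) F) b = b}
  mul_mem' := fun {a b} ha hb g hg => by rw [map_mul, ha g hg, hb g hg]
  add_mem' := fun {a b} ha hb g hg => by rw [map_add, ha g hg, hb g hg]
  algebraMap_mem' := fun c g _ => by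
    rw [IsScalarTower.algebraMap_apply k S (BS S n m)]
    exact AlgHom.commutes _ _

omit [IsDomain S] in
lemma mem_AS {lv s : Fin n → ℕ} {b : BS S n m} : b ∈ AS F k S n m lv s ↔
    ∀ g ∈ par F lv s, lin S m (g : Matrix (Fin n) (Fin n) F) b = b := Iff.rfl

/-- The polynomial ring is integral over the invariants. -/
lemma isIntegral_AS (lv s : Fin n → ℕ) : Algebra.IsIntegral (AS F k S n m lv s) (BS S n m) := by
  let Γ : Subgroup (BS S n m ≃ₐ[S] BS S n m) := (par F lv s).map (gact S m)
  have hfin : Finite (Matrix.GeneralLinearGroup (Fin n) F) := inferInstance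
  have hΓ : Finite Γ := by
    have h1 : (Γ : Set (BS S n m ≃ₐ[S] BS S n m)).Finite := by
      have h2 : (Γ : Set (BS S n m ≃ₐ[S] BS S n m)) =
          gact S m '' (par F lv s : Set (Matrix.GeneralLinearGroup (Fin n) F)) :=
        Subgroup.coe_map _ _
      rw [h2]
      exact (Set.toFinite _).image _
    exact h1
  have : Algebra.IsInvariant (AS F k S n m lv s) (BS S n m) Γ := by
    refine ⟨fun b hb => ⟨⟨b, fun g hg => ?_⟩, rfl⟩⟩
    have h1 := hb ⟨gact S m g⁻¹, g⁻¹, (par F lv s).inv_mem hg, rfl⟩
    change gact S m g⁻¹ b = b at h1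
    rwa [gact_apply, inv_inv] at h1
  have hc : SMulCommClass Γ (AS F k S n m lv s) (BS S n m) := by
    refine ⟨fun γ a b => ?_⟩
    obtain ⟨_, g, hg, rfl⟩ := γ
    change gact S m g ((a : BS S n m) * b) = (a : BS S n m) * gact S m g b
    rw [map_mul]
    congr 1
    rw [gact_apply]
    exact a.2 _ ((par F lv s).inv_mem hg)
  exact Algebra.IsInvariant.isIntegral (AS F k S n m lv s) (BS S n m) Γ

end main

end Pool.Agent.R837.FN
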