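import Pool.Agent.R837.FN.Ext2

/-!
The resolution of the quotients over a smooth base by finite groups and diagonalizable group
schemes.
-/

set_option autoImplicit false
set_option linter.unusedSectionVars false

open Finset AlgebraicGeometry CategoryTheory MvPolynomial

universe u v w z

namespace Pool.Agent.R837.FN

open Pool.Agent.R837.FM Pool.Agent.Y177.Dg

section main

variable (F : Type v) [Field F] [Fintype F] (k : Type u) [Field k] [Algebra F k]
  (S : Type u) [CommRing S] [IsDomain S] [Algebra k S] [Algebra F S] [IsScalarTower F k S]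
  (n m : ℕ)

/-- The atlas. -/
theorem atlas_S [Algebra.Smooth k S] (hm : 0 < m) (lv s : Fin n → ℕ)
    (hs : ∀ i, s i ∣ Fintype.card F - 1)
    (Pr : Subalgebra k (LS S n m) → LS S n m →
      ((⊤ : Submodule F (Fin m → LS S n m)) →ₗ[F] (Fin m → LS S n m)) → Prop)
    (hP0 : Pr (bs k S n m).range 1 (⊤ : Submodule F (Fin m → LS S n m)).subtype)
    (hP : ∀ (R : Subalgebra k (LS S n m)) (H : LS S n m)
      (r : (⊤ : Submodule F (Fin m → LS S n m)) →ₗ[F] (Fin m → LS S n m)) (a : ℕ)
      (d : Fin m → ℕ) (h : Good F (fun i : {i // lv i = a} => r (xS F S n m i)) d) (M : ℕ),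
      Pr R H r → Pr (h.alg R (ee F lv s a)) (H ^ M * h.Δ ^ (ee F lv s a)) (rnl r d h.c)) :
    ∃ (T : Type) (_ : Finite T) (C : T → Subalgebra k (LS S n m)) (H : T → LS S n m)
      (r : T → (⊤ : Submodule F (Fin m → LS S n m)) →ₗ[F] (Fin m → LS S n m)),
      (∀ t, H t ≠ 0) ∧
      (∀ t, ∃ a, H t = ((embS k S n m).comp (AS F k S n m lv s).val) a) ∧
      (∀ t, Algebra.Smooth k (C t)) ∧
      (∀ t a, ((embS k S n m).comp (AS F k S n m lv s).val) a ∈ C t) ∧
      (∀ t t', H t' / H t ∈ C t) ∧
      (∀ t t', C t' ≤ Loc (C t) (H t' / H t)) ∧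
      (∀ t, ∀ x ∈ C t, ∃ (n' : ℕ) (a : AS F k S n m lv s), H t ^ n' * x =
        ((embS k S n m).comp (AS F k S n m lv s).val) a) ∧
      (∀ V : ValuationSubring (LS S n m),
        (∀ a, ((embS k S n m).comp (AS F k S n m lv s).val) a ∈ V) →
          ∃ t, ∀ x ∈ C t, x ∈ V) ∧
      ∀ t, Pr (C t) (H t) (r t) := by
  classical
  have hint := isIntegral_AS F k S n m lv s
  have he : ∀ a, 0 < ee F lv s a := by
    intro a
    have h1 : 0 < Fintype.card F - 1 := by
      have : 1 < Fintype.card F := Fintype.one_lt_card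
      omega
    rcases ee_spec (F := F) (lv := lv) hs a with h | ⟨-, h⟩
    · rw [h]
      exact h1
    · exact Nat.pos_of_dvd_of_pos h h1
  have hxz : LinearIndependent F (Sum.elim (fun i => (xS F S n m i : Fin m → LS S n m))
      fun j : Empty => ((fun j : Empty => j.elim :
        Empty → (⊤ : Submodule F (Fin m → LS S n m))) j : Fin m → LS S n m)) := by
    have h1 := xS_li' F S n m hm
    rw [Fintype.linearIndependent_iff] at h1 ⊢
    intro c hc
    rw [Fintype.sum_sum_type] at hc
    have h2 := h1 (fun i => c (Sum.inl i))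
      (((add_zero _).symm.trans (congrArg _ (Fintype.sum_empty _).symm)).trans hc)
    rintro (i | j)
    · exact h2 i
    · exact j.elim
  have hcard : Fintype.card Empty = 0 := rfl
  have hres := atlas3 (F := F) (k := k) (L := LS S n m) (x := xS F S n m) (lv := lv)
    (e := ee F lv s) (g := (embS k S n m).comp (AS F k S n m lv s).val)
    (B := (embS k S n m).range) (X := ⊤) (Λ0 := ⊥) (s := m)
    (fun i l => ⟨X (i, l), rfl⟩) (T0 := Unit) (R0 := fun _ => (bs k S n m).range)
    (fun _ => smooth_bs k S n m) (H0 := fun _ => 1)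
    (fun _ V h1 h2 b hb => by
      refine embS_range_le F k S n m (W :=
        { carrier := {x | x ∈ V}
          mul_mem' := fun ha hb => V.mul_mem _ _ ha hb
          add_mem' := fun ha hb => V.add_mem _ _ ha hb
          algebraMap_mem' := fun c => h1 _ (Subalgebra.algebraMap_mem _ c) })
        (fun c => h1 _ ⟨c, rfl⟩) (fun i l => h2 i l) hb)
    (r0 := fun _ => (⊤ : Submodule F (Fin m → LS S n m)).subtype) (J0 := Empty)
    (z := fun j => j.elim) (by rw [Set.range_eq_empty, Submodule.span_empty])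
    (stage_base (bs_le k S n m)) (fun _ _ _ _ _ => trivial) hxz
    (fun c => ⟨algebraMap F k c, (IsScalarTower.algebraMap_apply F k (LS S n m) c).symm⟩)
    (fun _ => adjoinS_top F k S n m) he
    {σ | ∃ g ∈ par F lv s, σ = sgS (gact S m g)} ?_ ?_ ?_ ?_ Pr (fun _ => hP0) hP
    (fun a => m * Fintype.card {i // lv i = a}) ?_ ?_
  · exact hres
  · rintro _ ⟨g, hg, rfl⟩
    refine ⟨fun _ => ⟨?_, map_one _⟩, fun a => ?_⟩
    · rintro _ ⟨c, rfl⟩
      have h1 := sgS_emb k S n m (gact S m g) (C c)
      rw [gact_apply, lin_C] at h1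
      exact h1
    · have h3 : Cond lv s ((g⁻¹ : Matrix.GeneralLinearGroup (Fin n) F) :
          Matrix (Fin n) (Fin n) F) := (par F lv s).inv_mem hg
      have h4 : ((g⁻¹ : Matrix.GeneralLinearGroup (Fin n) F) :
          Matrix (Fin n) (Fin n) F).det ≠ 0 := (g⁻¹).det_ne_zero
      refine q_of_matrix (L := LS S n m) (x := xS F S n m) h3 h4 (σ := sgS (gact S m g))
        (fun i => ?_) a
      rw [Submodule.mem_bot, sub_eq_zero]
      funext l
      rw [xS_apply F k, sgS_emb, gact_apply, lin_X, map_sum, Finset.sum_apply]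
      refine Finset.sum_congr rfl fun j _ => ?_
      rw [map_mul, Pi.smul_apply, Algebra.smul_def, xS_apply F k]
      congr 1
  · rintro _ ⟨b, rfl⟩ h
    refine ⟨⟨b, fun g hg => ?_⟩, rfl⟩
    have h2 := h _ ⟨g⁻¹, (par F lv s).inv_mem hg, rfl⟩
    change sgS (gact S m g⁻¹) (embS k S n m b) = embS k S n m b at h2
    rw [sgS_emb, gact_apply, inv_inv] at h2
    exact embS_injective k S n m h2
  · rintro σ ⟨-, hσ0⟩ hσ b
    obtain ⟨g, hdet, hg, hgσ⟩ := matrix_of_q hs hσ
    let g' : Matrix.GeneralLinearGroup (Fin n) F := Matrix.GeneralLinearGroup.mkOfDetNeZero g hdet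
    have hg' : g' ∈ par F lv s := hg
    refine ⟨⟨b.1, rfl⟩, ?_⟩
    have h1 : ∀ f : BS S n m, σ (embS k S n m f) = embS k S n m (lin S m g f) := by
      intro f
      induction f using MvPolynomial.induction_on with
      | C c =>
        rw [lin_C]
        exact hσ0 _ ⟨c, rfl⟩
      | add a b ha hb => rw [map_add, map_add, map_add, map_add, ha, hb]
      | mul_X a u ha =>
        rw [map_mul, map_mul, map_mul, map_mul, ha]
        congr 1
        have h2 := hgσ u.1
        rw [Submodule.mem_bot, sub_eq_zero] at h2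
        have h3 := congrFun h2 u.2
        rw [xS_apply F k] at h3
        rw [h3, lin_X, map_sum, Finset.sum_apply]
        refine Finset.sum_congr rfl fun j _ => ?_
        rw [map_mul, Pi.smul_apply, Algebra.smul_def, xS_apply F k]
        congr 1
    change σ (embS k S n m b.1) = embS k S n m b.1
    rw [h1]
    congr 1
    exact b.2 g' hg'
  · rintro V hV _ ⟨b, rfl⟩
    obtain ⟨P, hP, h1⟩ := Algebra.IsIntegral.isIntegral (R := AS F k S n m lv s) b
    have h2 : IsIntegral V (embS k S n m b) := by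
      let f : AS F k S n m lv s →+* V :=
        ((embS k S n m).comp (AS F k S n m lv s).val).toRingHom.codRestrict
          V.toSubring hV
      refine ⟨P.map f, hP.map f, ?_⟩
      rw [Polynomial.eval₂_map]
      have h3 : (algebraMap V (LS S n m)).comp f =
          (embS k S n m).toRingHom.comp (algebraMap (AS F k S n m lv s) _) := rfl
      change Polynomial.eval₂ ((algebraMap V (LS S n m)).comp f) ((embS k S n m).toRingHom b) P = 0
      rw [h3, ← Polynomial.hom_eval₂, h1, map_zero]
    obtain ⟨y, hy⟩ := IsIntegrallyClosed.isIntegral_iff.1 h2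
    change embS k S n m b ∈ V
    rw [← hy]
    exact y.2
  · intro R H r a d h _
    rcases ee_spec (F := F) (lv := lv) hs a with h1 | ⟨h1, h2⟩
    · rw [h1]
      exact Pool.Agent.R837.FM.gen_general h R
    · exact Pool.Agent.R837.FM.gen_one h R h1 _ h2
  · intro _ a
    refine le_trdegS k S n m _ ?_
    rw [← Finset.mul_sum]
    refine Nat.mul_le_mul_left m ?_
    have h1 : ∀ a, ∑ b ∈ Finset.range a, Fintype.card {i // lv i = b} =
        Fintype.card {i // lv i < a} := by
      intro a
      induction a with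
      | zero =>
        rw [Finset.range_zero, Finset.sum_empty, eq_comm, Fintype.card_eq_zero_iff]
        exact ⟨fun i => absurd i.2 (Nat.not_lt_zero _)⟩
      | succ a ih => rw [Finset.sum_range_succ, ih, card_succ]
    rw [h1]
    exact (Fintype.card_subtype_le _).trans (Fintype.card_fin n).le

variable {Λ : Type} [AddCommGroup Λ] [Fintype Λ] [DecidableEq Λ]

/-- The invariants of degree zero. -/
noncomputable def ZS (lv s : Fin n → ℕ) (P : Λ → S →ₗ[k] S) (hP : PG P)
    (w : Fin n × Fin m → Λ) : Subalgebra k (BS S n m) :=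
  AS F k S n m lv s ⊓ Pool.Agent.Y177.Dg.zr (pg_pS hP w)

/-- The polynomial ring is integral over the invariants of degree zero. -/
lemma isIntegral_ZS (lv s : Fin n → ℕ) (P : Λ → S →ₗ[k] S) (hP : PG P)
    (w : Fin n × Fin m → Λ) (st : ∀ i, ∀ x ∈ AS F k S n m lv s, pS P w i x ∈ AS F k S n m lv s) :
    Algebra.IsIntegral (ZS F k S n m lv s P hP w) (BS S n m) := by
  have h1 := isIntegral_AS F k S n m lv s
  have hle : ZS F k S n m lv s P hP w ≤ AS F k S n m lv s := inf_le_left
  let _ : Algebra (ZS F k S n m lv s P hP w) (AS F k S n m lv s) :=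
    (Subalgebra.inclusion hle).toRingHom.toAlgebra
  have : IsScalarTower (ZS F k S n m lv s P hP w) (AS F k S n m lv s) (BS S n m) :=
    IsScalarTower.of_algebraMap_eq fun _ => rfl
  have h2 : Algebra.IsIntegral (ZS F k S n m lv s P hP w) (AS F k S n m lv s) := by
    refine ⟨fun x => ?_⟩
    have hP1 := (pg_pS hP w).res (AS F k S n m lv s) st
    have h3 := hP1.isIntegral x
    let f : Pool.Agent.Y177.Dg.zr hP1 →+* ZS F k S n m lv s P hP w :=
      { toFun := fun y => ⟨((y : AS F k S n m lv s) : BS S n m), y.1.2,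
          congrArg Subtype.val y.2⟩
        map_one' := rfl
        map_mul' := fun _ _ => rfl
        map_zero' := rfl
        map_add' := fun _ _ => rfl }
    exact h3.map_of_comp_eq f (RingHom.id _) rfl
  exact Algebra.IsIntegral.trans (R := ZS F k S n m lv s P hP w) (AS F k S n m lv s)

lemma finiteType_ZS [Algebra.FiniteType k S] (lv s : Fin n → ℕ) (P : Λ → S →ₗ[k] S) (hP : PG P)
    (w : Fin n × Fin m → Λ) (st : ∀ i, ∀ x ∈ AS F k S n m lv s, pS P w i x ∈ AS F k S n m lv s) :
    Algebra.FiniteType k (ZS F k S n m lv s P hP w) := by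
  have h1 := isIntegral_ZS F k S n m lv s P hP w st
  have h0 : Algebra.FiniteType k (BS S n m) := Algebra.FiniteType.trans (S := S)
    inferInstance inferInstance
  have h2 : Algebra.FiniteType (ZS F k S n m lv s P hP w) (BS S n m) := by
    apply Algebra.FiniteType.of_restrictScalars_finiteType k
  have h3 : Module.Finite (ZS F k S n m lv s P hP w) (BS S n m) := Algebra.IsIntegral.finite
  refine ⟨?_⟩
  exact fg_of_fg_of_fg k (ZS F k S n m lv s P hP w) (BS S n m) h0.1 h3.1 Subtype.val_injective

/-- The resolution. -/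
theorem main_S [Algebra.Smooth k S] (hm : 0 < m) (lv s : Fin n → ℕ)
    (hs : ∀ i, s i ∣ Fintype.card F - 1) (P : Λ → S →ₗ[k] S) (hP : PG P) (a : Fin n → Λ)
    (ha : ∀ i, (Fintype.card F - 1) • a i = 0) (b : Fin m → Λ) :
    (∀ i, ∀ x ∈ AS F k S n m lv s, pS P (fun u => a u.1 + b u.2) i x ∈ AS F k S n m lv s) ∧
    Pool.Agent.H920R2.HasResolution
      (X := Spec (CommRingCat.of (ZS F k S n m lv s P hP fun u => a u.1 + b u.2)))
      (Spec.map (CommRingCat.ofHom (algebraMap k
        (ZS F k S n m lv s P hP fun u => a u.1 + b u.2)))) := by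
  classical
  set w : Fin n × Fin m → Λ := fun u => a u.1 + b u.2 with hw
  have hB := pg_pS hP w
  have hq := pg_qK hB (embS k S n m) (embS_injective k S n m) (embS_surj k S n m)
  set q := qK hB (embS k S n m) (embS_injective k S n m) (embS_surj k S n m) with hqdef
  have hqg : ∀ i f, q i (embS k S n m f) = embS k S n m (pS P w i f) := fun i f =>
    qK_g hB (embS k S n m) (embS_injective k S n m) (embS_surj k S n m) i f
  obtain ⟨T, hT, C, H, r, h1, h2, h3, h4, h5, h6, h7, h8, h9⟩ :=
    atlas_S F k S n m hm lv s hs (PrG q b) (by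
      refine ⟨?_, ⟨0, hq.one⟩, b, fun α _ y hy l => hy l⟩
      rintro i _ ⟨c, rfl⟩
      refine ⟨P i c, ?_⟩
      change bs k S n m (P i c) = q i (bs k S n m c)
      rw [bs_apply, bs_apply, hqg, pS_C]) (by
      intro R H r l d h M hPr
      refine prG_step hq b h (fun i => a i) (fun i => ha i) (fun i l => ?_) M _ hPr
      rw [xS_apply F k, hqg]
      exact congrArg _ (pS_X hP w (i.1, l)))
  obtain ⟨t0, -⟩ := h8 ⊤ fun _ => trivial
  have st : ∀ i, ∀ x ∈ AS F k S n m lv s, pS P w i x ∈ AS F k S n m lv s := by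
    intro i x hx
    have h10 : embS k S n m (pS P w i x) ∈ C t0 := by
      rw [← hqg]
      exact (h9 t0).1 i _ (h4 t0 ⟨x, hx⟩)
    obtain ⟨N, y, hy⟩ := h7 t0 _ h10
    obtain ⟨c, hc⟩ := h2 t0
    have hc' : H t0 = embS k S n m c.1 := hc
    have hy' : embS k S n m (c.1 ^ N * pS P w i x) = embS k S n m y.1 := by
      rw [map_mul, map_pow, ← hc', hy]
      rfl
    have hy2 := embS_injective k S n m hy'
    have hc0 : c.1 ^ N ≠ 0 := by
      intro h0
      have h11 := congrArg (embS k S n m) h0
      rw [map_pow, ← hc', map_zero] at h11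
      exact pow_ne_zero N (h1 t0) h11
    intro g hg
    have h12 := congrArg (lin S m (g : Matrix (Fin n) (Fin n) F)) hy2
    rw [map_mul, map_pow, c.2 g hg, y.2 g hg, ← hy2] at h12
    exact mul_left_cancel₀ hc0 h12
  refine ⟨st, ?_⟩
  have hP1 := hB.res (AS F k S n m lv s) st
  have h10 := res_graded hP1 hq ((embS k S n m).comp (AS F k S n m lv s).val)
    ((embS_injective k S n m).comp Subtype.val_injective) (fun i x => hqg i x) h1 h2 h3 h4 h5 h6
    h7 h8 (fun t => (h9 t).1) (fun t => (h9 t).2.1)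
  let e : Pool.Agent.Y177.Dg.zr hP1 ≃ₐ[k] ZS F k S n m lv s P hP w :=
    { toFun := fun y => ⟨((y : AS F k S n m lv s) : BS S n m), y.1.2,
          congrArg Subtype.val y.2⟩
      invFun := fun y => ⟨⟨y.1, y.2.1⟩, Subtype.ext y.2.2⟩
      left_inv := fun _ => rfl
      right_inv := fun _ => rfl
      map_mul' := fun _ _ => rfl
      map_add' := fun _ _ => rfl
      commutes' := fun _ => rfl }
  exact Pool.Agent.H920R2.hasResolution_congr e h10

end main

end Pool.Agent.R837.FN
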