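import Pool.Agent.R837.FN.Ext3

/-!
The theorem on diagonalizable extensions, for gradings by submodules.
-/

set_option autoImplicit false
set_option linter.unusedSectionVars false

open Finset AlgebraicGeometry CategoryTheory MvPolynomial

universe u v w z

namespace Pool.Agent.R837.FN

open Pool.Agent.R837.FM Pool.Agent.Y177.Dg

section gr

variable {k B : Type u} [Field k] [CommRing B] [Algebra k B] {Λ : Type}
  [AddCommGroup Λ] [Fintype Λ] [DecidableEq Λ] (𝒜 : Λ → Submodule k B) [GradedAlgebra 𝒜]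

lemma gproj_eq_iff (i : Λ) (x : B) : GradedAlgebra.proj 𝒜 i x = x ↔ x ∈ 𝒜 i := by
  rw [GradedAlgebra.proj_apply]
  constructor
  · intro h
    rw [← h]
    exact SetLike.coe_mem _
  · exact fun h => DirectSum.decompose_of_mem_same 𝒜 h

/-- The projections of a grading. -/
lemma pg_proj : PG (fun i => GradedAlgebra.proj 𝒜 i) where
  sum x := by
    classical
    simp only [GradedAlgebra.proj_apply]
    conv_rhs => rw [← DirectSum.sum_support_decompose 𝒜 x]
    symm
    refine Finset.sum_subset (Finset.subset_univ _) ?_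
    intro i _ hi
    rw [DFinsupp.notMem_support_iff] at hi
    rw [hi]
    rfl
  orth i j x := by
    simp only [GradedAlgebra.proj_apply]
    split_ifs with h
    · subst h
      exact DirectSum.decompose_of_mem_same 𝒜 (SetLike.coe_mem _)
    · exact DirectSum.decompose_of_mem_ne 𝒜 (SetLike.coe_mem _) (fun h' => h h'.symm)
  mul i j x y hx hy := by
    rw [gproj_eq_iff] at hx hy ⊢
    exact SetLike.mul_mem_graded hx hy

end gr

section main

variable (F : Type v) [Field F] [Fintype F] (k : Type u) [Field k] [Algebra F k]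
  (S : Type u) [CommRing S] [Algebra k S] (n m : ℕ)
  {Λ : Type} [AddCommGroup Λ] [Fintype Λ] [DecidableEq Λ]
  (𝒮 : Λ → Submodule k S) [GradedAlgebra 𝒮]

/-- The structure of an algebra over the finite field. -/
@[reducible] noncomputable def algF : Algebra F S :=
  ((algebraMap k S).comp (algebraMap F k)).toAlgebra

/-- The invariants of degree zero. -/
noncomputable def ZG (lv t : Fin n → ℕ) (a : Fin n → Λ) (b : Fin m → Λ) :
    Subalgebra k (BS S n m) :=
  let _ := algF F k S
  ZS F k S n m lv t (fun i => GradedAlgebra.proj 𝒮 i) (pg_proj 𝒮) fun u => a u.1 + b u.2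

lemma mem_ZG {lv t : Fin n → ℕ} {a : Fin n → Λ} {b : Fin m → Λ} {f : BS S n m} :
    f ∈ ZG F k S n m 𝒮 lv t a b ↔
    (∀ g : Matrix.GeneralLinearGroup (Fin n) F, Cond lv t (g : Matrix (Fin n) (Fin n) F) →
      aeval (fun p : Fin n × Fin m => ∑ j, C (algebraMap k S (algebraMap F k
        ((g : Matrix (Fin n) (Fin n) F) p.1 j))) * (X (j, p.2) : BS S n m)) f = f) ∧
    ∀ d : Fin n × Fin m →₀ ℕ, f.coeff d ∈ 𝒮 (-∑ u, d u • (a u.1 + b u.2)) := by
  refine and_congr ?_ ?_
  · exact Iff.rfl
  · change pS (fun i => GradedAlgebra.proj 𝒮 i) (fun u : Fin n × Fin m => a u.1 + b u.2) 0 f = f ↔ _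
    rw [pS_eq_iff]
    refine forall_congr' fun d => ?_
    rw [gproj_eq_iff, zero_sub, wt_apply]

/-- The theorem. -/
theorem main_G [IsDomain S] [Algebra.Smooth k S] (hm : 0 < m) (lv t : Fin n → ℕ)
    (ht : ∀ i, t i ∣ Fintype.card F - 1) (a : Fin n → Λ)
    (ha : ∀ i, (Fintype.card F - 1) • a i = 0) (b : Fin m → Λ) :
    Algebra.FiniteType k (ZG F k S n m 𝒮 lv t a b) ∧
    Pool.Agent.H920R2.HasResolution
      (X := Spec (CommRingCat.of (ZG F k S n m 𝒮 lv t a b)))
      (Spec.map (CommRingCat.ofHom (algebraMap k (ZG F k S n m 𝒮 lv t a b)))) := by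
  let _ := algF F k S
  have : IsScalarTower F k S := IsScalarTower.of_algebraMap_eq fun _ => rfl
  have h := main_S F k S n m hm lv t ht (fun i => GradedAlgebra.proj 𝒮 i) (pg_proj 𝒮) a ha b
  exact ⟨finiteType_ZS F k S n m lv t _ (pg_proj 𝒮) _ h.1, h.2⟩

end main

end Pool.Agent.R837.FN
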