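import Pool.Agent.R837.FM.Glue
import Pool.Agent.Y177.Dg.Res

/-!
Charts with a grading give resolutions of the quotients by diagonalizable group schemes.
-/

set_option autoImplicit false
set_option linter.unusedSectionVars false

open AlgebraicGeometry CategoryTheory

universe u v w

namespace Pool.Agent.R837.FN

open AddMonoidAlgebra Pool.Agent.Y177.Dg Pool.Agent.W559.Mg

section chart

variable {k K : Type u} [Field k] [Field K] [Algebra k K] {Λ : Type} [AddCommGroup Λ]
  [Fintype Λ] [DecidableEq Λ] {q : Λ → K →ₗ[k] K} (hq : PG q) {G : Type} [AddCommGroup G]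
  (π : G →+ Λ) (C : Subalgebra k K)

/-- The Laurent polynomials with coefficients in a chart. -/
noncomputable def Tm (G : Type) [AddCommGroup G] (C : Subalgebra k K) :
    AddMonoidAlgebra C G →ₐ[k] ML K G :=
  AddMonoidAlgebra.liftNCAlgHom ((W559.Mg.zr k K G).comp C.val)
    { toFun := fun μ => mo μ.toAdd 1
      map_one' := rfl
      map_mul' := fun a b => by
        rw [mo_mul, one_mul]
        rfl } fun _ _ => Commute.all _ _

lemma coeff_Tm (f : AddMonoidAlgebra C G) (μ : G) :
    (Tm G C f).coeff μ = (f.coeff μ : C) := by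
  classical
  induction f using AddMonoidAlgebra.induction_linear with
  | zero =>
    rw [map_zero]
    rfl
  | add a b ha hb =>
    rw [map_add, AddMonoidAlgebra.coeff_add, Finsupp.add_apply, ha, hb,
      AddMonoidAlgebra.coeff_add, Finsupp.add_apply]
    rfl
  | single ν r =>
    have h1 : Tm G C (single ν r) = mo 0 (r : K) * mo ν 1 :=
      AddMonoidAlgebra.liftNC_single _ _ _ _
    rw [h1, mo_mul, zero_add, mul_one, coeff_mo, coeff_single, Finsupp.single_apply]
    split_ifs
    · rfl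
    · rfl

lemma Tm_injective : Function.Injective (Tm G C) := by
  rw [injective_iff_map_eq_zero]
  intro f hf
  apply AddMonoidAlgebra.coeff_injective
  ext μ : 1
  apply Subtype.ext
  rw [← coeff_Tm, hf]
  rfl

/-- The chart over the torus. -/
def CT (hq : PG q) (π : G →+ Λ) (C : Subalgebra k K) : Subalgebra k (ML K G) where
  carrier := {f | ∀ μ, f.coeff μ ∈ C ∧ q (π μ) (f.coeff μ) = f.coeff μ}
  mul_mem' := by
    intro f f' hf hf' μ
    rw [AddMonoidAlgebra.coeff_mul_apply_left, Finsupp.sum]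
    refine ⟨C.sum_mem fun ν _ => C.mul_mem (hf ν).1 (hf' _).1, ?_⟩
    rw [map_sum]
    refine Finset.sum_congr rfl fun ν _ => ?_
    have h1 := hq.mul _ _ _ _ (hf ν).2 (hf' (-ν + μ)).2
    rwa [← map_add, add_neg_cancel_left] at h1
  add_mem' := by
    intro f f' hf hf' μ
    rw [AddMonoidAlgebra.coeff_add, Finsupp.add_apply, map_add, (hf μ).2, (hf' μ).2]
    exact ⟨C.add_mem (hf μ).1 (hf' μ).1, rfl⟩
  algebraMap_mem' := by
    classical
    intro c μ
    have h1 : (algebraMap k (ML K G)) c = mo 0 (algebraMap k K c) := rfl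
    rw [h1, coeff_mo]
    split_ifs with h2
    · rw [← h2, map_zero, Algebra.algebraMap_eq_smul_one, map_smul, hq.one]
      exact ⟨C.smul_mem C.one_mem _, rfl⟩
    · exact ⟨C.zero_mem, map_zero _⟩

lemma mem_CT {f : ML K G} : f ∈ CT hq π C ↔
    ∀ μ, f.coeff μ ∈ C ∧ q (π μ) (f.coeff μ) = f.coeff μ := Iff.rfl

lemma mo_mem_CT {μ : G} {a : K} (ha : a ∈ C) (h : q (π μ) a = a) : mo μ a ∈ CT hq π C := by
  classical
  intro ν
  rw [coeff_mo]
  split_ifs with h2
  · rw [← h2]
    exact ⟨ha, h⟩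
  · exact ⟨C.zero_mem, map_zero _⟩

lemma of_mo_mem_CT {μ : G} {a : K} (h : mo μ a ∈ CT hq π C) : a ∈ C ∧ q (π μ) a = a := by
  have h1 := h μ
  rwa [coeff_mo_same] at h1

variable (st : ∀ i, ∀ x ∈ C, q i x ∈ C)

lemma CT_eq : CT hq π C = (tw (hq.res C st) π).map (Tm G C) := by
  classical
  apply le_antisymm
  · intro f hf
    let f' : AddMonoidAlgebra C G :=
      ∑ μ ∈ f.coeff.support, single μ ⟨f.coeff μ, (hf μ).1⟩
    have h2 : ∀ μ, ((f'.coeff μ : C) : K) = f.coeff μ := by
      intro μ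
      have h3 : f'.coeff μ = if μ ∈ f.coeff.support then
          (⟨f.coeff μ, (hf μ).1⟩ : C) else 0 := by
        change (∑ μ ∈ f.coeff.support, single μ _ : AddMonoidAlgebra _ G).coeff μ = _
        rw [AddMonoidAlgebra.coeff_sum, Finsupp.finsetSum_apply]
        simp_rw [coeff_single, Finsupp.single_apply]
        rw [Finset.sum_ite_eq']
      rw [h3]
      split_ifs with h4
      · rfl
      · rw [Finsupp.mem_support_iff, not_not] at h4
        exact h4.symm
    refine ⟨f', ?_, ?_⟩
    · intro μ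
      apply Subtype.ext
      rw [coe_rs, h2]
      exact (hf μ).2
    · apply AddMonoidAlgebra.coeff_injective
      ext μ
      rw [← h2 μ]
      exact coeff_Tm C f' μ
  · rintro _ ⟨f, hf, rfl⟩
    intro μ
    have h1 : (Tm G C f).coeff μ = (f.coeff μ : C) := coeff_Tm C f μ
    have h2 := congrArg Subtype.val (hf μ)
    rw [coe_rs] at h2
    have h3 : (Tm G C f).coeff μ ∈ C ∧
        q (π μ) ((Tm G C f).coeff μ) = (Tm G C f).coeff μ := by
      rw [h1]
      exact ⟨Subtype.property _, h2⟩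
    exact h3

include st in
theorem smooth_CT [Algebra.Smooth k C] [AddMonoid.FG G] [Module.Projective ℤ π.ker]
    (hsup : ∀ i, ∀ x ∈ C, q i x = x → x ≠ 0 → i ∈ π.range) :
    Algebra.Smooth k (CT hq π C) := by
  rw [CT_eq hq π C st]
  have h1 : Algebra.Smooth k (tw (hq.res C st) π) := smooth_tw _ _ fun i x hx hx0 =>
    hsup i x x.2 (congrArg Subtype.val hx) fun h0 => hx0 (Subtype.ext h0)
  exact Algebra.Smooth.of_equiv
    ((tw (hq.res C st) π).equivMapOfInjective (Tm G C) (Tm_injective C))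

lemma gr_CT : W559.Mg.Gr (CT hq π C) := by
  intro f hf μ
  exact mo_mem_CT hq π C (hf μ).1 (hf μ).2

end chart

section glue

variable {k A K : Type u} [Field k] [CommRing A] [IsDomain A] [Algebra k A] [Field K]
  [Algebra k K] {Λ : Type} [AddCommGroup Λ] [Fintype Λ] [DecidableEq Λ] {P : Λ → A →ₗ[k] A}
  (hP : PG P) {q : Λ → K →ₗ[k] K} (hq : PG q) (g : A →ₐ[k] K) (hg : Function.Injective g)
  (hqg : ∀ i a, q i (g a) = g (P i a))

include hq hg hqg in
/-- Graded smooth charts which glue and satisfy the valuative criterion give a resolution of the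
quotient by the diagonalizable group scheme. -/
theorem hasResolution_graded {T : Type u} [Finite T] {C : T → Subalgebra k K} {H : T → K}
    (H0 : ∀ t, H t ≠ 0) (hA : ∀ t, ∃ a, H t = g a) (sm : ∀ t, Algebra.Smooth k (C t))
    (aa : ∀ t a, g a ∈ C t) (rt : ∀ t t', H t' / H t ∈ C t)
    (gl : ∀ t t', C t' ≤ FM.Loc (C t) (H t' / H t))
    (dn : ∀ t, ∀ x ∈ C t, ∃ (n : ℕ) (a : A), H t ^ n * x = g a)
    (cv : ∀ V : ValuationSubring K, (∀ a, g a ∈ V) → ∃ t, ∀ x ∈ C t, x ∈ V)
    (st : ∀ t i, ∀ x ∈ C t, q i x ∈ C t) (hH : ∀ t, q 0 (H t) = H t) :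
    Pool.Agent.H920R2.HasResolution (X := Spec (CommRingCat.of (Pool.Agent.Y177.Dg.zr hP)))
      (Spec.map (CommRingCat.ofHom (algebraMap k (Pool.Agent.Y177.Dg.zr hP)))) := by
  classical
  obtain ⟨L, _, π, hNR, hπ⟩ := exists_nr.{u} (supp hP : Set Λ).toFinset.toList
  obtain ⟨hL1, hL2, hL3, hL4⟩ := id hNR
  have hrange : π.range = supp hP := by
    rw [hπ]
    have h1 : {x | x ∈ (supp hP : Set Λ).toFinset.toList} = (supp hP : Set Λ) := by
      ext x
      simp
    rw [h1, AddSubgroup.closure_eq]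
  have hproj := proj_ker π
  have hfg : AddMonoid.FG L := by
    have h1 : AddGroup.FG L := Module.Finite.iff_addGroup_fg.1 hL2
    infer_instance
  have hH1 : ∀ t n, q 0 (H t ^ n) = H t ^ n := fun t n =>
    (Pool.Agent.Y177.Dg.zr hq).pow_mem (show H t ∈ Pool.Agent.Y177.Dg.zr hq from hH t) n
  have hHinv : ∀ t, q 0 (H t)⁻¹ = (H t)⁻¹ := by
    intro t
    have h1 := hq.inv (hH t) (mul_inv_cancel₀ (H0 t))
    rwa [neg_zero] at h1
  have hHdiv : ∀ t t', q 0 (H t' / H t) = H t' / H t := by
    intro t t'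
    rw [div_eq_mul_inv, hq.mul0 (hH t'), hHinv]
  have hHdivn : ∀ t t' n, q 0 ((H t' / H t) ^ n) = (H t' / H t) ^ n := fun t t' n =>
    (Pool.Agent.Y177.Dg.zr hq).pow_mem (show H t' / H t ∈ Pool.Agent.Y177.Dg.zr hq from hHdiv t t') n
  have hsup : ∀ t i, ∀ x ∈ C t, q i x = x → x ≠ 0 → i ∈ π.range := by
    intro t i x hx hqx hx0
    obtain ⟨n, a, ha⟩ := dn t x hx
    rw [hrange]
    refine ⟨a, ?_, ?_⟩
    · intro h0
      rw [h0, map_zero] at ha
      exact mul_ne_zero (pow_ne_zero _ (H0 t)) hx0 ha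
    · apply hg
      rw [← hqg, ← ha, hq.mul0 (hH1 t n), hqx]
  have hma : MA (g.comp (Pool.Agent.Y177.Dg.zr hP).val) (Fintype.card Λ) (fun t => CT hq π (C t)) H := by
    refine { pa := ?_, sm := ?_ }
    · refine
      { H0 := H0
        hA := ?_
        gr := fun t => ?_
        aa := fun t c => ⟨?_, trivial⟩
        Fi := fun _ _ _ _ => trivial
        rt := fun t t' => ⟨?_, trivial⟩
        gl := ?_
        dn := ?_
        cv := ?_
        E0 := Fintype.card_pos
        un := ?_
        gen := ?_ }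
      · intro t
        obtain ⟨a, ha⟩ := hA t
        refine ⟨⟨a, ?_⟩, ha⟩
        change P 0 a = a
        apply hg
        rw [← hqg, ← ha, hH]
      · rw [inf_top_eq]
        exact gr_CT hq π (C t)
      · refine mo_mem_CT hq π (C t) (aa t c) ?_
        rw [map_zero]
        change q 0 (g c) = g c
        rw [hqg]
        exact congrArg g c.2
      · refine mo_mem_CT hq π (C t) (rt t t') ?_
        rw [map_zero, hHdiv]
      · rintro t t' f ⟨hf, -⟩
        have h1 : ∀ μ, ∃ n : ℕ, (H t' / H t) ^ n * f.coeff μ ∈ C t := fun μ =>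
          FM.exists_pow_mul (rt t t') (div_ne_zero (H0 t') (H0 t)) (gl t t' (hf μ).1)
        choose n hn using h1
        refine ⟨f.coeff.support.sup n, ?_⟩
        intro μ
        rw [mo_pow, smul_zero, coeff_mo_mul, sub_zero]
        refine ⟨?_, ?_⟩
        · by_cases hμ : μ ∈ f.coeff.support
          · obtain ⟨e, he⟩ := Nat.exists_eq_add_of_le (Finset.le_sup (f := n) hμ)
            rw [he, add_comm, pow_add, mul_assoc]
            exact (C t).mul_mem ((C t).pow_mem (rt t t') _) (hn μ)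
          · rw [Finsupp.notMem_support_iff.1 hμ, mul_zero]
            exact (C t).zero_mem
        · rw [hq.mul0 (hHdivn t t' _), (hf μ).2]
      · rintro t x ⟨hx, -⟩
        obtain ⟨hx1, hx2⟩ := of_mo_mem_CT hq π (C t) hx
        rw [map_zero] at hx2
        obtain ⟨n, a, ha⟩ := dn t x hx1
        refine ⟨n, ⟨a, ?_⟩, ha⟩
        change P 0 a = a
        apply hg
        rw [← hqg, ← ha, hq.mul0 (hH1 t n), hx2]
      · intro V hV
        have hVC : ∀ c, g c ∈ V := by
          intro c
          obtain ⟨Q, hQ, hQ0⟩ := hP.isIntegral c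
          have h2 : IsIntegral V (g c) := by
            let φ : Pool.Agent.Y177.Dg.zr hP →+* V :=
              ((g.comp (Pool.Agent.Y177.Dg.zr hP).val : Pool.Agent.Y177.Dg.zr hP →ₐ[k] K) : Pool.Agent.Y177.Dg.zr hP →+* K).codRestrict
                V.toSubring hV
            refine ⟨Q.map φ, hQ.map _, ?_⟩
            rw [Polynomial.eval₂_map]
            have h3 : (algebraMap V K).comp φ =
              (g : A →+* K).comp (algebraMap (Pool.Agent.Y177.Dg.zr hP) A) := rfl
            rw [h3]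
            have h4 := congrArg g hQ0
            rw [map_zero] at h4
            rw [← h4]
            exact (Polynomial.hom_eval₂ Q (algebraMap (Pool.Agent.Y177.Dg.zr hP) A) (g : A →+* K) c).symm
          obtain ⟨y, hy⟩ := IsIntegrallyClosed.isIntegral_iff.1 h2
          rw [← hy]
          exact y.2
        obtain ⟨t, ht⟩ := cv V hVC
        refine ⟨t, 1, fun _ => 1, one_pos, fun _ => one_ne_zero, fun _ _ => (mul_one 1).symm, ?_⟩
        intro f hf m
        rw [pow_one]
        exact (V.valuation_le_one_iff _).2 (ht _ (hf m).1)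
      · intro t m
        have h1 : ∀ m : L, mo (Fintype.card Λ • m) (1 : K) ∈ CT hq π (C t) := by
          intro m
          refine mo_mem_CT hq π (C t) (C t).one_mem ?_
          rw [map_nsmul, card_nsmul_eq_zero, hq.one]
        refine ⟨1, one_ne_zero, ⟨h1 m, trivial⟩, ⟨?_, trivial⟩⟩
        rw [inv_one, ← smul_neg]
        exact h1 (-m)
      · intro t
        rw [eq_top_iff]
        intro m _
        have h1 : π m ∈ supp hP := by
          rw [← hrange]
          exact ⟨m, rfl⟩
        obtain ⟨c, hc0, hc⟩ := h1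
        refine AddSubgroup.subset_closure ⟨g c, ?_, ?_, trivial⟩
        · intro h0
          exact hc0 ((map_eq_zero_iff g hg).1 h0)
        · refine mo_mem_CT hq π (C t) (aa t c) ?_
          rw [hqg, hc]
    · intro t
      have := sm t
      exact smooth_CT hq π (C t) (st t) (hsup t)
  exact hL4 k (Pool.Agent.Y177.Dg.zr hP) K (g.comp (Pool.Agent.Y177.Dg.zr hP).val) (hg.comp Subtype.val_injective) T _ _ _ hma

include hq hg hqg in
/-- The version with homogeneous denominators. -/
theorem res_graded {T : Type} [Finite T] {C : T → Subalgebra k K} {H : T → K}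
    (H0 : ∀ t, H t ≠ 0) (hA : ∀ t, ∃ a, H t = g a) (sm : ∀ t, Algebra.Smooth k (C t))
    (aa : ∀ t a, g a ∈ C t) (rt : ∀ t t', H t' / H t ∈ C t)
    (gl : ∀ t t', C t' ≤ FM.Loc (C t) (H t' / H t))
    (dn : ∀ t, ∀ x ∈ C t, ∃ (n : ℕ) (a : A), H t ^ n * x = g a)
    (cv : ∀ V : ValuationSubring K, (∀ a, g a ∈ V) → ∃ t, ∀ x ∈ C t, x ∈ V)
    (st : ∀ t i, ∀ x ∈ C t, q i x ∈ C t) (hH : ∀ t, ∃ i, q i (H t) = H t) :
    Pool.Agent.H920R2.HasResolution
      (X := Spec (CommRingCat.of (Pool.Agent.Y177.Dg.zr hP)))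
      (Spec.map (CommRingCat.ofHom (algebraMap k (Pool.Agent.Y177.Dg.zr hP)))) := by
  have hN : 0 < Fintype.card Λ := Fintype.card_pos
  refine hasResolution_graded hP hq g hg hqg (T := ULift.{u} T) (C := fun t => C t.down)
    (H := fun t => H t.down ^ Fintype.card Λ) (fun t => pow_ne_zero _ (H0 _)) ?_
    (fun t => sm _) (fun t a => aa _ a) ?_ ?_ ?_ ?_ (fun t i x hx => st _ i x hx) ?_
  · intro t
    obtain ⟨a, ha⟩ := hA t.down
    exact ⟨a ^ Fintype.card Λ, by rw [map_pow, ha]⟩
  · intro t t'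
    change H t'.down ^ Fintype.card Λ / H t.down ^ Fintype.card Λ ∈ C t.down
    rw [← div_pow]
    exact (C t.down).pow_mem (rt _ _) _
  · intro t t'
    change C t'.down ≤ FM.Loc (C t.down) (H t'.down ^ Fintype.card Λ / H t.down ^ Fintype.card Λ)
    refine (gl t.down t'.down).trans ?_
    obtain ⟨N, hN'⟩ := Nat.exists_eq_succ_of_ne_zero hN.ne'
    rw [hN', ← div_pow, pow_succ']
    exact FM.loc_le_of_mul ((C t.down).pow_mem (rt _ _) _)
      (pow_ne_zero _ (div_ne_zero (H0 _) (H0 _)))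
  · intro t x hx
    obtain ⟨n, a, ha⟩ := dn t.down x hx
    obtain ⟨a', ha'⟩ := hA t.down
    obtain ⟨N, hN'⟩ := Nat.exists_eq_succ_of_ne_zero hN.ne'
    refine ⟨n, a' ^ (N * n) * a, ?_⟩
    rw [map_mul, map_pow, ← ha', ← ha, hN', ← pow_mul, Nat.succ_mul, pow_add, mul_assoc]
  · intro V hV
    obtain ⟨t, ht⟩ := cv V hV
    exact ⟨⟨t⟩, ht⟩
  · intro t
    obtain ⟨i, hi⟩ := hH t.down
    exact hq.pow_zr hi

end glue

end Pool.Agent.R837.FN
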