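import Pool.Agent.R837.FN.Levels2

/-!
The initial stage over a Grassmannian.
-/

set_option autoImplicit false
set_option linter.unusedSectionVars false

open Finset

universe u v w z

namespace Pool.Agent.R837.FM

section grass

variable {F : Type v} [Field F] [Fintype F] {k : Type z} [Field k] {L : Type u} [Field L]
  [Algebra F L] [Algebra k L] {m s : ℕ} {B : Subalgebra k L} {X : Submodule F (Fin m → L)}
  {T0 : Type} {e : T0 → Fin s → Fin m} {E : T0 → Fin s → Fin m → L} {R0 : T0 → Subalgebra k L}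
  {H0 : T0 → L}

/-- The chosen coordinates. -/
def rG (X : Submodule F (Fin m → L)) (e : Fin s → Fin m) : X →ₗ[F] (Fin s → L) :=
  (LinearMap.funLeft F L e).comp X.subtype

lemma rG_apply (e : Fin s → Fin m) (y : X) (l : Fin s) : rG X e y l = (y : Fin m → L) (e l) := rfl

/-- The initial stage over a Grassmannian. -/
theorem stage_grass (hE : ∀ t l j, E t l j ∈ R0 t)
    (hX : ∀ y ∈ X, ∀ t j, y j = ∑ l, y (e t l) * E t l j)
    (h0 : ∀ t, H0 t ≠ 0) (hB : ∀ t, H0 t ∈ B) (rt : ∀ t t', H0 t' / H0 t ∈ R0 t)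
    (gl : ∀ t t', R0 t' ≤ Loc (R0 t) (H0 t' / H0 t)) (dn : ∀ t, R0 t ≤ Loc B (H0 t))
    (cv : ∀ V : ValuationSubring L, (∀ a ∈ B, a ∈ V) → ∃ t, ∀ a ∈ R0 t, a ∈ V) :
    Stage F B X ⊥ (Fintype.card Empty) R0 H0 fun t => rG X (e t) where
  H0 := h0
  HB := hB
  rt := rt
  gl := gl
  dn := dn
  coef := fun t l => self_mem_op (R0 t) (co X) (e t l)
  op := by
    intro t t' l
    have h1 : (fun y => rG X (e t') y l) = fun y : X => ∑ l', E t l' (e t' l) * rG X (e t) y l' := by
      funext y
      rw [rG_apply, hX y y.2 t (e t' l)]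
      exact Finset.sum_congr rfl fun l' _ => mul_comm _ _
    rw [h1]
    exact sum_mem_spn _ _ (fun l' y => rG X (e t) y l') (fun l' _ => le_loc _ _ (hE t l' _))
      fun l' _ => self_mem_op _ _ l'
  ker := by
    intro t y
    rw [Submodule.mem_bot]
    constructor
    · intro h
      funext j
      rw [hX y y.2 t j, Pi.zero_apply]
      refine Finset.sum_eq_zero fun l _ => ?_
      have h1 := congrFun h l
      rw [rG_apply, Pi.zero_apply] at h1
      rw [h1, zero_mul]
    · intro h
      funext l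
      rw [rG_apply, h]
      rfl
  int := by
    intro t V hV y hy j
    rw [hX y y.2 t j]
    exact sum_mem fun l _ => V.mul_mem _ _ (hy l) (hV _ (hE t l j))
  cv := cv
  dim := by
    intro t
    refine ⟨Empty, inferInstance, fun p => p.elim, rfl, ?_⟩
    refine spn_le (fun a ha f hf => smul_mem_spn ha hf) ?_
    rintro _ ⟨j, i, rfl⟩
    have h1 : (fun y : X => fr F i (co X y j)) =
        fun y : X => ∑ l, fr F i (E t l j) * fr F i (rG X (e t) y l) := by
      funext y
      have h2 : co X y j = ∑ l, (y : Fin m → L) (e t l) * E t l j := hX y y.2 t j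
      rw [h2, map_sum]
      refine Finset.sum_congr rfl fun l _ => ?_
      rw [map_mul, mul_comm]
      rfl
    rw [h1]
    exact sum_mem_spn _ _ (fun l y => fr F i (rG X (e t) y l))
      (fun l _ => fr_mem_alg (hE t l j) i)
      fun l _ => subset_spn (Or.inl ⟨l, i, rfl⟩)

end grass

end Pool.Agent.R837.FM
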